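import Pool.Agent.Lib.MP_a98e84_gt.TG.Defs

section

/-!
# TASK TG B1: polarisation in a `J*`-algebra

(`JStar.aba`) For a complex number `z` and real `r`: `(A + r z B)(A + r z B)ᴴ(A + r z B) ∈ V`. Expand: it is
`A Aᴴ A + r (z (A Aᴴ B + B Aᴴ A) + conj z (A Bᴴ A)) + r² (...) + r³ |z|² z B Bᴴ B`. A combination of the values at `r = ±1, ±2` (or: at `z = 1, -1, i, -i` with `r = 1`) isolates
`A Bᴴ A`: put `f z = (A + z B)(A + z B)ᴴ(A + z B)`; the terms are: `1`: `A Aᴴ A`; `z`: `A Aᴴ B + B Aᴴ A`; `conj z`: `A Bᴴ A`; `z²`: `B Aᴴ B`; `|z|²`: `A Bᴴ B + B Bᴴ A`; `z² conj z`: `B Bᴴ B`. So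
`∑ z ∈ {1, i, -1, -i}, z * f z = 4 A Bᴴ A + 4 (z³-terms: none) `: `∑ z * z = 0`, `∑ z * conj z = 4`, `∑ z * z² = ∑ z³ = 0`, `∑ z |z|² = 0`, `∑ z * z² conj z = ∑ z² |z|² = 0`. So the sum is `4 • (A Bᴴ A)`.
(`JStar.triple`) `aba` for `A + C`, minus `aba` for `A` and `C`. (`JStar.odd`) induction: `triple` for `A, A, X = A (Aᴴ A)ᵏ`: `A Aᴴ X + X Aᴴ A = 2 A (Aᴴ A)ᵏ⁺¹`. (`JStar.zpow`) the same for
`Z Bᴴ X + X Bᴴ Z`, `X = Z (Bᴴ Z)ᵏ`. (`JStar.odd_poly`) `Polynomial.aeval_eq_sum_range`.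
-/

set_option autoImplicit false

namespace Pool.Agent.MP_a98e84_gt.TG

open Matrix
open scoped ComplexOrder

variable {m n : Type*} [Fintype m] [Fintype n] [DecidableEq m] [DecidableEq n]


variable {V : Submodule ℂ (Matrix m n ℂ)} {A B C Z : Matrix m n ℂ}

private theorem B1_id (A B : Matrix m n ℂ) :
    (A + B) * (A + B)ᴴ * (A + B) - (A - B) * (A - B)ᴴ * (A - B)
      + Complex.I • ((A + Complex.I • B) * (A + Complex.I • B)ᴴ * (A + Complex.I • B)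
        - (A - Complex.I • B) * (A - Complex.I • B)ᴴ * (A - Complex.I • B))
      = (4 : ℂ) • (A * Bᴴ * A) := by
  have hI : star Complex.I = -Complex.I := Complex.conj_I
  simp only [Matrix.conjTranspose_add, Matrix.conjTranspose_sub, Matrix.conjTranspose_smul, Matrix.add_mul,
    Matrix.mul_add, Matrix.sub_mul, Matrix.mul_sub, Matrix.smul_mul, Matrix.mul_smul, hI]
  match_scalars <;> ring_nf <;> simp [Complex.I_sq, Complex.I_pow_four] <;> norm_num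

theorem JStar.aba (hV : JStar V) (hA : A ∈ V) (hB : B ∈ V) : A * Bᴴ * A ∈ V := by
  have h1 := hV.cube _ (V.add_mem hA hB)
  have h2 := hV.cube _ (V.sub_mem hA hB)
  have h3 := hV.cube _ (V.add_mem hA (V.smul_mem Complex.I hB))
  have h4 := hV.cube _ (V.sub_mem hA (V.smul_mem Complex.I hB))
  have h5 := V.add_mem (V.sub_mem h1 h2) (V.smul_mem Complex.I (V.sub_mem h3 h4))
  rw [B1_id] at h5
  have h6 := V.smul_mem (4 : ℂ)⁻¹ h5
  rwa [smul_smul, inv_mul_cancel₀ (by norm_num), one_smul] at h6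

theorem JStar.triple (hV : JStar V) (hA : A ∈ V) (hB : B ∈ V) (hC : C ∈ V) : A * Bᴴ * C + C * Bᴴ * A ∈ V := by
  have h := V.sub_mem (V.sub_mem (hV.aba (V.add_mem hA hC) hB) (hV.aba hA hB)) (hV.aba hC hB)
  have e : (A + C) * Bᴴ * (A + C) - A * Bᴴ * A - C * Bᴴ * C = A * Bᴴ * C + C * Bᴴ * A := by
    simp only [Matrix.add_mul, Matrix.mul_add]
    abel
  rwa [e] at h

private theorem B1_half {X : Matrix m n ℂ} (h : X + X ∈ V) : X ∈ V := by
  have h6 := V.smul_mem (2 : ℂ)⁻¹ h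
  rwa [← two_smul ℂ X, smul_smul, inv_mul_cancel₀ (by norm_num), one_smul] at h6

theorem JStar.zpow (hV : JStar V) (hZ : Z ∈ V) (hB : B ∈ V) (k : ℕ) : Z * (Bᴴ * Z) ^ k ∈ V := by
  induction k with
  | zero => simpa using hZ
  | succ k ih =>
    have h := hV.triple hZ hB ih
    have e1 : Z * Bᴴ * (Z * (Bᴴ * Z) ^ k) = Z * (Bᴴ * Z) ^ (k + 1) := by
      rw [pow_succ', Matrix.mul_assoc, Matrix.mul_assoc, ← Matrix.mul_assoc Bᴴ Z]
    have e2 : Z * (Bᴴ * Z) ^ k * Bᴴ * Z = Z * (Bᴴ * Z) ^ (k + 1) := by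
      rw [pow_succ, Matrix.mul_assoc, Matrix.mul_assoc]
    rw [e1, e2] at h
    exact B1_half h

theorem JStar.odd (hV : JStar V) (hA : A ∈ V) (k : ℕ) : A * (Aᴴ * A) ^ k ∈ V :=
  hV.zpow hA hA k

theorem JStar.odd_poly (hV : JStar V) (hA : A ∈ V) (f : Polynomial ℝ) : A * Polynomial.aeval (Aᴴ * A) f ∈ V := by
  rw [Polynomial.aeval_eq_sum_range, Matrix.mul_sum]
  refine V.sum_mem fun i _ => ?_
  rw [Matrix.mul_smul]
  have h := V.smul_mem ((f.coeff i : ℝ) : ℂ) (hV.odd hA i)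
  have e : ((f.coeff i : ℝ) : ℂ) • (A * (Aᴴ * A) ^ i) = (f.coeff i) • (A * (Aᴴ * A) ^ i) := by
    ext a b
    simp [Matrix.smul_apply]
  rwa [e] at h

end Pool.Agent.MP_a98e84_gt.TG
end

section

/-!
# TASK TG Sp1: polynomials of Hermitian matrices

`hA.spectral_theorem`: `A = U * diagonal (eigenvalues) * Uᴴ`, `U` unitary, so `aeval A f = U * diagonal (f (eigenvalues)) * Uᴴ` for a real polynomial `f` (induction on `f`, or conjugation by `U` is an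
algebra automorphism and `aeval` of a diagonal matrix is entrywise). (`aeval_herm`, `aeval_eq_zero`, `aeval_posDef`) follow. (`aeval_intertwine`) induction on `f`: `(B Bᴴ)ᵏ B = B (Bᴴ B)ᵏ`.
(`exists_poly`) Lagrange interpolation (`Lagrange.interpolate`, `Lagrange.eval_interpolate_at_node`).
(`commute_of_sq`) `a = U diag(λ) Uᴴ`, `λ i > 0`; with `y = Uᴴ k U`: `y i j * (λ j ^ 2 - λ i ^ 2) = 0`, so `y i j * (λ j - λ i) = 0`.
(`root_apply`) if `a` is positive definite, `a * a * X = c² X`, `c > 0`, then `a * X = c X`: `(a + c) (a - c) X = 0` and `a + c` is positive definite, so invertible. (`root_apply'`) the same from the right.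
-/

set_option autoImplicit false

namespace Pool.Agent.MP_a98e84_gt.TG

open Matrix
open scoped ComplexOrder

variable {m n : Type*} [Fintype m] [Fintype n] [DecidableEq m] [DecidableEq n]


private theorem Sp1_spec {A : Matrix m m ℂ} (hA : A.IsHermitian) :
    ∃ U : Matrix m m ℂ, Uᴴ * U = 1 ∧ U * Uᴴ = 1 ∧
      A = U * diagonal (fun i => ((hA.eigenvalues i : ℝ) : ℂ)) * Uᴴ := by
  refine ⟨(hA.eigenvectorUnitary : Matrix m m ℂ), ?_, ?_, ?_⟩
  · exact Unitary.coe_star_mul_self hA.eigenvectorUnitary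
  · exact Unitary.coe_mul_star_self hA.eigenvectorUnitary
  · conv_lhs => rw [hA.spectral_theorem, Unitary.conjStarAlgAut_apply]
    rfl

private theorem Sp1_pow {U D : Matrix m m ℂ} (h1 : Uᴴ * U = 1) (h2 : U * Uᴴ = 1) (n : ℕ) :
    (U * D * Uᴴ) ^ n = U * D ^ n * Uᴴ := by
  induction n with
  | zero => simp [h2]
  | succ n ih =>
    rw [pow_succ, ih, pow_succ]
    calc U * D ^ n * Uᴴ * (U * D * Uᴴ) = U * D ^ n * (Uᴴ * U) * D * Uᴴ := by
          simp only [Matrix.mul_assoc]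
      _ = U * (D ^ n * D) * Uᴴ := by rw [h1]; simp only [Matrix.mul_one, Matrix.mul_assoc]

private theorem Sp1_aeval {U : Matrix m m ℂ} {l : m → ℝ} (h1 : Uᴴ * U = 1) (h2 : U * Uᴴ = 1)
    (f : Polynomial ℝ) :
    Polynomial.aeval (U * diagonal (fun i => ((l i : ℝ) : ℂ)) * Uᴴ) f =
      U * diagonal (fun i => ((f.eval (l i) : ℝ) : ℂ)) * Uᴴ := by
  induction f using Polynomial.induction_on' with
  | add f g hf hg =>
    rw [map_add, hf, hg, ← Matrix.add_mul, ← Matrix.mul_add, diagonal_add]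
    simp
  | monomial n r =>
    rw [Polynomial.aeval_monomial, Sp1_pow h1 h2, diagonal_pow]
    have h3 : (algebraMap ℝ (Matrix m m ℂ)) r = ((r : ℝ) : ℂ) • (1 : Matrix m m ℂ) := by
      ext i j
      rw [algebraMap_matrix_apply]
      by_cases hij : i = j
      · subst hij; simp
      · simp [hij]
    rw [h3]
    have h4 : diagonal (fun i => ((Polynomial.eval (l i) (Polynomial.monomial n r) : ℝ) : ℂ)) =
        ((r : ℝ) : ℂ) • diagonal ((fun i => ((l i : ℝ) : ℂ)) ^ n) := by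
      ext i j
      by_cases hij : i = j
      · subst hij; simp
      · simp [hij]
    rw [h4]
    simp

theorem aeval_herm {A : Matrix m m ℂ} (hA : A.IsHermitian) (f : Polynomial ℝ) :
    (Polynomial.aeval A f).IsHermitian := by
  obtain ⟨U, h1, h2, h3⟩ := Sp1_spec hA
  have h4 := Sp1_aeval (l := hA.eigenvalues) h1 h2 f
  rw [← h3] at h4
  rw [h4]
  unfold IsHermitian
  rw [conjTranspose_mul, conjTranspose_mul, conjTranspose_conjTranspose, diagonal_conjTranspose,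
    Matrix.mul_assoc]
  congr 2
  congr 1
  ext i
  simp

theorem aeval_eq_zero {A : Matrix m m ℂ} (hA : A.IsHermitian) (f : Polynomial ℝ)
    (h : ∀ i, f.eval (hA.eigenvalues i) = 0) : Polynomial.aeval A f = 0 := by
  obtain ⟨U, h1, h2, h3⟩ := Sp1_spec hA
  have h4 := Sp1_aeval (l := hA.eigenvalues) h1 h2 f
  rw [← h3] at h4
  rw [h4]
  simp [h]

theorem aeval_posDef {A : Matrix m m ℂ} (hA : A.IsHermitian) (f : Polynomial ℝ)
    (h : ∀ i, 0 < f.eval (hA.eigenvalues i)) : (Polynomial.aeval A f).PosDef := by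
  obtain ⟨U, h1, h2, h3⟩ := Sp1_spec hA
  have h4 := Sp1_aeval (l := hA.eigenvalues) h1 h2 f
  rw [← h3] at h4
  rw [h4]
  have h5 : (diagonal (fun i => ((f.eval (hA.eigenvalues i) : ℝ) : ℂ))).PosDef := by
    refine PosDef.diagonal fun i => ?_
    exact_mod_cast h i
  have h6 : IsUnit U := by
    have := invertibleOfLeftInverse U Uᴴ h1
    exact isUnit_of_invertible U
  exact (IsUnit.posDef_star_right_conjugate_iff h6).mpr h5

theorem aeval_intertwine (B : Matrix m n ℂ) (f : Polynomial ℝ) :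
    Polynomial.aeval (B * Bᴴ) f * B = B * Polynomial.aeval (Bᴴ * B) f := by
  have hp : ∀ k : ℕ, (B * Bᴴ) ^ k * B = B * (Bᴴ * B) ^ k := by
    intro k
    induction k with
    | zero => simp
    | succ k ih =>
      rw [pow_succ, pow_succ]
      calc (B * Bᴴ) ^ k * (B * Bᴴ) * B = ((B * Bᴴ) ^ k * B) * (Bᴴ * B) := by
            simp only [Matrix.mul_assoc]
        _ = B * ((Bᴴ * B) ^ k * (Bᴴ * B)) := by rw [ih, Matrix.mul_assoc]
  induction f using Polynomial.induction_on' with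
  | add f g hf hg => rw [map_add, map_add, Matrix.add_mul, Matrix.mul_add, hf, hg]
  | monomial k r =>
    rw [Polynomial.aeval_monomial, Polynomial.aeval_monomial, Algebra.algebraMap_eq_smul_one,
      Algebra.algebraMap_eq_smul_one, smul_mul_assoc, one_mul, smul_mul_assoc, one_mul,
      Matrix.smul_mul, hp, Matrix.mul_smul]

theorem exists_poly (φ : ℝ → ℝ) (s : Finset ℝ) : ∃ f : Polynomial ℝ, ∀ x ∈ s, f.eval x = φ x := by
  refine ⟨Lagrange.interpolate s id φ, fun x hx => ?_⟩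
  exact Lagrange.eval_interpolate_at_node φ (Function.injective_id.injOn) hx

theorem commute_of_sq {a k : Matrix m m ℂ} (ha : a.PosDef) (h : k * (a * a) = (a * a) * k) :
    k * a = a * k := by
  obtain ⟨U, h1, h2, h3⟩ := Sp1_spec ha.isHermitian
  set l := ha.isHermitian.eigenvalues with hl
  have hpos : ∀ i, 0 < l i := ha.eigenvalues_pos
  set D : Matrix m m ℂ := diagonal (fun i => ((l i : ℝ) : ℂ)) with hD
  set y := Uᴴ * k * U with hy
  have hsq : a * a = U * (D * D) * Uᴴ := by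
    rw [h3]
    calc U * D * Uᴴ * (U * D * Uᴴ) = U * D * (Uᴴ * U) * D * Uᴴ := by simp only [Matrix.mul_assoc]
      _ = U * (D * D) * Uᴴ := by rw [h1]; simp only [Matrix.mul_one, Matrix.mul_assoc]
  have h5 : y * (D * D) = (D * D) * y := by
    have h6 : Uᴴ * (k * (a * a)) * U = Uᴴ * ((a * a) * k) * U := by rw [h]
    rw [hsq] at h6
    calc y * (D * D) = Uᴴ * (k * (U * (D * D) * Uᴴ)) * U := by
          rw [hy]
          calc Uᴴ * k * U * (D * D) = Uᴴ * k * U * (D * D) * (Uᴴ * U) := by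
                rw [h1, Matrix.mul_one]
            _ = Uᴴ * (k * (U * (D * D) * Uᴴ)) * U := by simp only [Matrix.mul_assoc]
      _ = Uᴴ * (U * (D * D) * Uᴴ * k) * U := h6
      _ = (Uᴴ * U) * (D * D) * (Uᴴ * k * U) := by simp only [Matrix.mul_assoc]
      _ = (D * D) * y := by rw [h1, Matrix.one_mul]
  have h7 : y * D = D * y := by
    ext i j
    have h8 := congrFun (congrFun h5 i) j
    rw [hD, diagonal_mul_diagonal, mul_diagonal, diagonal_mul] at h8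
    rw [hD, mul_diagonal, diagonal_mul]
    have h9 : (y i j * ((l j : ℝ) : ℂ) - ((l i : ℝ) : ℂ) * y i j) * (((l j + l i : ℝ)) : ℂ) = 0 := by
      push_cast
      linear_combination h8
    rcases mul_eq_zero.mp h9 with h10 | h10
    · exact sub_eq_zero.mp h10
    · exfalso
      have h11 : l j + l i = 0 := by exact_mod_cast h10
      linarith [hpos i, hpos j]
  have hk : k = U * y * Uᴴ := by
    rw [hy]
    calc k = (U * Uᴴ) * k * (U * Uᴴ) := by rw [h2, Matrix.one_mul, Matrix.mul_one]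
      _ = U * (Uᴴ * k * U) * Uᴴ := by simp only [Matrix.mul_assoc]
  calc k * a = (U * y * Uᴴ) * (U * D * Uᴴ) := by rw [← hk, ← h3]
    _ = U * y * (Uᴴ * U) * D * Uᴴ := by simp only [Matrix.mul_assoc]
    _ = U * (y * D) * Uᴴ := by rw [h1]; simp only [Matrix.mul_one, Matrix.mul_assoc]
    _ = U * (D * y) * Uᴴ := by rw [h7]
    _ = U * D * (Uᴴ * U) * y * Uᴴ := by rw [h1]; simp only [Matrix.mul_one, Matrix.mul_assoc]
    _ = (U * D * Uᴴ) * (U * y * Uᴴ) := by simp only [Matrix.mul_assoc]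
    _ = a * k := by rw [← hk, ← h3]

theorem root_apply {a : Matrix m m ℂ} (ha : a.PosDef) {X : Matrix m n ℂ} {c : ℝ} (hc : 0 < c)
    (h : a * a * X = ((c ^ 2 : ℝ) : ℂ) • X) : a * X = (c : ℂ) • X := by
  have h1 : (a + (c : ℂ) • (1 : Matrix m m ℂ)).PosDef := by
    refine ha.add ?_
    exact PosDef.one.smul (by exact_mod_cast hc)
  have h2 : IsUnit (a + (c : ℂ) • (1 : Matrix m m ℂ)).det := (isUnit_iff_isUnit_det _).mp h1.isUnit
  have h3 : (a + (c : ℂ) • (1 : Matrix m m ℂ)) * (a * X - (c : ℂ) • X) = 0 := by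
    rw [Matrix.mul_sub, Matrix.add_mul, Matrix.add_mul, ← Matrix.mul_assoc, h]
    simp only [Matrix.smul_mul, Matrix.one_mul, Matrix.mul_smul, smul_smul]
    push_cast
    rw [sq]
    abel
  have h4 : a * X - (c : ℂ) • X = 0 := by
    have h5 := congrArg (fun Y => (a + (c : ℂ) • (1 : Matrix m m ℂ))⁻¹ * Y) h3
    simp only [Matrix.mul_zero] at h5
    rwa [nonsing_inv_mul_cancel_left _ _ h2] at h5
  exact sub_eq_zero.mp h4

theorem root_apply' {d : Matrix n n ℂ} (hd : d.PosDef) {X : Matrix m n ℂ} {c : ℝ} (hc : 0 < c)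
    (h : X * (d * d) = ((c ^ 2 : ℝ) : ℂ) • X) : X * d = (c : ℂ) • X := by
  have hH : dᴴ = d := hd.isHermitian
  have h1 : d * d * Xᴴ = ((c ^ 2 : ℝ) : ℂ) • Xᴴ := by
    have h2 := congrArg conjTranspose h
    rw [conjTranspose_mul, conjTranspose_mul, hH, conjTranspose_smul] at h2
    rw [h2]
    congr 1
    simp
  have h3 := congrArg conjTranspose (root_apply hd hc h1)
  rw [conjTranspose_mul, conjTranspose_conjTranspose, hH, conjTranspose_smul,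
    conjTranspose_conjTranspose] at h3
  rw [h3]
  congr 1
  simp

end Pool.Agent.MP_a98e84_gt.TG
end

section

/-!
# TASK TG B2: the decomposition of an element of a `J*`-algebra into orthogonal tripotents

Let `h = Bᴴ * B`, Hermitian, eigenvalues `≥ 0` (`Matrix.posSemidef_conjTranspose_mul_self`). Let `Λ` be the finite set of the distinct nonzero eigenvalues of `h` (`Finset.univ.image eigenvalues` minus `0`), numbered by
`Fin k` (`Finset.equivFin`). For `λ ∈ Λ` let `f_λ` be a real polynomial with `f_λ (λ) = λ^(-1/2)` and `f_λ = 0` at `0` and at the other elements of `Λ` (`exists_poly`), `E_λ = B * aeval h f_λ`, `β_λ = √λ`.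
`E_λ ∈ V` by `JStar.odd_poly`. `E_λᴴ E_μ = aeval h (f_λ * X * f_μ)` (`aeval_herm`), which is `0` for `λ ≠ μ` and, for `λ = μ`, equals `aeval h (p_λ)` for every polynomial `p_λ` with value `1` at `λ` and `0` at the
other eigenvalues (`aeval_eq_zero` for the difference). So `E_λ E_λᴴ E_λ = B aeval h (f_λ * (f_λ X f_λ)) = B aeval h f_λ = E_λ` (values at the eigenvalues). `E_λ E_μᴴ = B aeval h (f_λ * f_μ) Bᴴ = 0` for `λ ≠ μ` (if an eigenvalue
is neither `λ` nor `μ` one factor is zero anyway). `∑ β_λ E_λ = B aeval h (∑ β_λ f_λ) = B`: the difference is `B * aeval h g` with `g = 1 - ∑ β_λ f_λ`, `g = 0` at all nonzero eigenvalues, so `X * g = 0` at all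
eigenvalues, `(B aeval h g)ᴴ (B aeval h g) = aeval h (g * X * g) = 0`, so `B aeval h g = 0`. `E_λ ≠ 0`: `E_λᴴ E_λ = aeval h (f_λ X f_λ)` is not `0` because its value at the eigenvalue `λ` is `1` (apply it to an eigenvector).
Intertwining: `k1 B = B k2` and unitarity give `k2 Bᴴ = Bᴴ k1` (`Bᴴ k1ᴴ = k2ᴴ Bᴴ`, multiply by `k2` and `k1`; `k1 k1ᴴ = 1` by `Matrix.mul_eq_one_comm`), so `k2` commutes with `h` and with `aeval h f`, and
`k1 E_λ = B k2 aeval h f_λ = E_λ k2`.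
-/

set_option autoImplicit false

namespace Pool.Agent.MP_a98e84_gt.TG

open Matrix
open scoped ComplexOrder

variable {m n : Type*} [Fintype m] [Fintype n] [DecidableEq m] [DecidableEq n]


private theorem B2_congr {A : Matrix n n ℂ} (hA : A.IsHermitian) {f g : Polynomial ℝ}
    (h : ∀ i, f.eval (hA.eigenvalues i) = g.eval (hA.eigenvalues i)) :
    Polynomial.aeval A f = Polynomial.aeval A g := by
  have h1 := aeval_eq_zero hA (f - g) (fun i => by rw [Polynomial.eval_sub, h i, sub_self])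
  rw [map_sub, sub_eq_zero] at h1
  exact h1

private theorem B2_mulVec {A : Matrix n n ℂ} {v : n → ℂ} {μ : ℝ} (hv : A *ᵥ v = (μ : ℂ) • v)
    (p : Polynomial ℝ) : Polynomial.aeval A p *ᵥ v = ((p.eval μ : ℝ) : ℂ) • v := by
  induction p using Polynomial.induction_on' with
  | add p q hp hq =>
    rw [map_add, add_mulVec, hp, hq, Polynomial.eval_add, Complex.ofReal_add, add_smul]
  | monomial k a =>
    have hk : (A ^ k) *ᵥ v = ((μ ^ k : ℝ) : ℂ) • v := by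
      induction k with
      | zero => simp
      | succ k ih =>
        rw [pow_succ', ← mulVec_mulVec, ih, mulVec_smul, hv, smul_smul, pow_succ,
          Complex.ofReal_mul]
    rw [Polynomial.aeval_monomial, Algebra.algebraMap_eq_smul_one, smul_mul_assoc, one_mul,
      smul_mulVec, hk, Polynomial.eval_monomial, Complex.ofReal_mul, mul_smul]
    ext i
    simp

private theorem B2_comm {A k : Matrix n n ℂ} (h : k * A = A * k) (p : Polynomial ℝ) :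
    k * Polynomial.aeval A p = Polynomial.aeval A p * k := by
  have hc : Commute k A := h
  rw [Polynomial.aeval_eq_sum_range]
  exact (Commute.sum_right _ _ _ fun i _ => (hc.pow_right i).smul_right _).eq

private theorem B2_mul {A : Matrix n n ℂ} (f g : Polynomial ℝ) :
    Polynomial.aeval A f * Polynomial.aeval A g = Polynomial.aeval A (f * g) := (map_mul _ _ _).symm

theorem trip_decomp {V : Submodule ℂ (Matrix m n ℂ)} (hV : JStar V) {B : Matrix m n ℂ} (hB : B ∈ V) :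
    ∃ (k : ℕ) (β : Fin k → ℝ) (E : Fin k → Matrix m n ℂ), Trip E ∧ (∀ j, 0 < β j) ∧ (∀ j, E j ≠ 0) ∧ (∀ j, E j ∈ V) ∧
      B = pl E (fun j => (β j : ℂ)) ∧
      ∀ (k1 : Matrix m m ℂ) (k2 : Matrix n n ℂ), k1ᴴ * k1 = 1 → k2ᴴ * k2 = 1 → k1 * B = B * k2 →
        ∀ j, k1 * E j = E j * k2 := by
  classical
  have hh : (Bᴴ * B).IsHermitian := isHermitian_conjTranspose_mul_self B
  have hev : ∀ i, 0 ≤ hh.eigenvalues i := fun i => eigenvalues_conjTranspose_mul_self_nonneg B i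
  generalize hA : Bᴴ * B = A at hh hev
  set Λ : Finset ℝ := (Finset.univ.image hh.eigenvalues).erase 0 with hΛ
  have hex : ∀ μ : ℝ, ∃ f : Polynomial ℝ, ∀ x ∈ insert 0 (Finset.univ.image hh.eigenvalues),
      f.eval x = if x = μ then (√μ)⁻¹ else 0 := fun μ =>
    exists_poly (fun x => if x = μ then (√μ)⁻¹ else 0) _
  choose F hF using hex
  let e : Fin Λ.card ≃ Λ := Λ.equivFin.symm
  let lam : Fin Λ.card → ℝ := fun j => (e j : ℝ)
  have hlam : ∀ j, lam j ∈ Λ := fun j => (e j).2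
  have hlinj : ∀ i j, lam i = lam j → i = j := fun i j h => e.injective (Subtype.ext h)
  have hl0 : ∀ j, 0 < lam j := by
    intro j
    have h1 := hlam j
    rw [hΛ, Finset.mem_erase, Finset.mem_image] at h1
    obtain ⟨h2, i, _, h3⟩ := h1
    exact lt_of_le_of_ne (h3 ▸ hev i) (Ne.symm h2)
  have hFe : ∀ j i, (F (lam j)).eval (hh.eigenvalues i) =
      if hh.eigenvalues i = lam j then (√(lam j))⁻¹ else 0 := fun j i =>
    hF (lam j) _ (Finset.mem_insert_of_mem (Finset.mem_image_of_mem _ (Finset.mem_univ i)))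
  have hadj : ∀ j, (Polynomial.aeval A (F (lam j)))ᴴ = Polynomial.aeval A (F (lam j)) := fun j =>
    (aeval_herm hh _).eq
  have hX : A = Polynomial.aeval A (Polynomial.X : Polynomial ℝ) := (Polynomial.aeval_X A).symm
  let E : Fin Λ.card → Matrix m n ℂ := fun j => B * Polynomial.aeval A (F (lam j))
  have hEE : ∀ i j, (E i)ᴴ * E j =
      Polynomial.aeval A (F (lam i) * Polynomial.X * F (lam j)) := by
    intro i j
    show (B * Polynomial.aeval A (F (lam i)))ᴴ * (B * Polynomial.aeval A (F (lam j))) = _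
    rw [conjTranspose_mul, hadj, Matrix.mul_assoc, ← Matrix.mul_assoc Bᴴ, hA, map_mul, map_mul,
      Polynomial.aeval_X, Matrix.mul_assoc]
  have hsq : ∀ j, √(lam j) * √(lam j) = lam j := fun j => Real.mul_self_sqrt (hl0 j).le
  have hs0 : ∀ j, √(lam j) ≠ 0 := fun j => (Real.sqrt_pos.2 (hl0 j)).ne'
  refine ⟨Λ.card, fun j => √(lam j), E, ⟨?_, ?_, ?_⟩, fun j => Real.sqrt_pos.2 (hl0 j), ?_, ?_, ?_, ?_⟩
  · intro j
    rw [Matrix.mul_assoc, hEE]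
    show B * Polynomial.aeval A (F (lam j)) * _ = B * Polynomial.aeval A (F (lam j))
    rw [Matrix.mul_assoc, B2_mul]
    congr 1
    apply B2_congr hh
    intro i
    simp only [Polynomial.eval_mul, Polynomial.eval_X, hFe]
    split_ifs with h
    · rw [h]
      have h1 := hsq j
      have h2 := hs0 j
      field_simp
      rw [sq]
      linarith
    · simp
  · intro j l hjl
    rw [hEE]
    apply aeval_eq_zero hh
    intro i
    simp only [Polynomial.eval_mul, Polynomial.eval_X, hFe]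
    split_ifs with h1 h2 h2
    · exact absurd (hlinj j l (h1.symm.trans h2)) hjl
    all_goals simp
  · intro j l hjl
    show B * Polynomial.aeval A (F (lam j)) * (B * Polynomial.aeval A (F (lam l)))ᴴ = 0
    rw [conjTranspose_mul, hadj, Matrix.mul_assoc, ← Matrix.mul_assoc (Polynomial.aeval A (F (lam j))),
      B2_mul]
    have h0 : Polynomial.aeval A (F (lam j) * F (lam l)) = 0 := by
      apply aeval_eq_zero hh
      intro i
      simp only [Polynomial.eval_mul, hFe]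
      split_ifs with h1 h2 h2
      · exact absurd (hlinj j l (h1.symm.trans h2)) hjl
      all_goals simp
    rw [h0, Matrix.zero_mul, Matrix.mul_zero]
  · intro j h0
    have h1 := hlam j
    rw [hΛ, Finset.mem_erase, Finset.mem_image] at h1
    obtain ⟨h2, i, _, h3⟩ := h1
    have h4 : Polynomial.aeval A (F (lam j) * Polynomial.X * F (lam j)) = 0 := by
      rw [← hEE, h0, Matrix.mul_zero]
    have h5 : A *ᵥ ⇑(hh.eigenvectorBasis i) =
        ((hh.eigenvalues i : ℝ) : ℂ) • ⇑(hh.eigenvectorBasis i) := by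
      rw [hh.mulVec_eigenvectorBasis i]
      ext x
      simp
    have h6 := B2_mulVec h5 (F (lam j) * Polynomial.X * F (lam j))
    rw [h4, zero_mulVec] at h6
    simp only [Polynomial.eval_mul, Polynomial.eval_X, hFe] at h6
    rw [if_pos h3, h3] at h6
    have h7 : (√(lam j))⁻¹ * lam j * (√(lam j))⁻¹ = 1 := by
      have h8 := hsq j
      have h9 := hs0 j
      field_simp
      rw [sq]
      linarith
    rw [h7, Complex.ofReal_one, one_smul] at h6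
    have h8 := hh.eigenvectorBasis.orthonormal.ne_zero i
    apply h8
    ext x
    have h9 := congrFun h6 x
    simpa using h9.symm
  · intro j
    have h1 := hV.odd_poly hB (F (lam j))
    rw [hA] at h1
    exact h1
  · have h1 : pl E (fun j => ((√(lam j) : ℝ) : ℂ)) =
        B * Polynomial.aeval A (∑ j, Polynomial.C (√(lam j)) * F (lam j)) := by
      unfold pl
      rw [map_sum, Matrix.mul_sum]
      refine Finset.sum_congr rfl fun j _ => ?_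
      show ((√(lam j) : ℝ) : ℂ) • (B * Polynomial.aeval A (F (lam j))) = _
      rw [map_mul, Polynomial.aeval_C, Algebra.algebraMap_eq_smul_one, smul_mul_assoc, one_mul,
        Matrix.mul_smul]
      ext x y
      simp
    rw [h1]
    have h2 : B * Polynomial.aeval A (1 - ∑ j, Polynomial.C (√(lam j)) * F (lam j)) = 0 := by
      rw [← Matrix.conjTranspose_mul_self_eq_zero, conjTranspose_mul, (aeval_herm hh _).eq,
        Matrix.mul_assoc, ← Matrix.mul_assoc Bᴴ, hA]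
      have h3 : A * Polynomial.aeval A (1 - ∑ j, Polynomial.C (√(lam j)) * F (lam j)) =
          Polynomial.aeval A (Polynomial.X * (1 - ∑ j, Polynomial.C (√(lam j)) * F (lam j))) := by
        rw [map_mul, Polynomial.aeval_X]
      rw [h3, B2_mul]
      apply aeval_eq_zero hh
      intro i
      have h4 : hh.eigenvalues i = 0 ∨ (1 - ∑ j, Polynomial.C (√(lam j)) * F (lam j)).eval
          (hh.eigenvalues i) = 0 := by
        by_cases h5 : hh.eigenvalues i = 0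
        · exact Or.inl h5
        · right
          have h6 : hh.eigenvalues i ∈ Λ := by
            rw [hΛ, Finset.mem_erase]
            exact ⟨h5, Finset.mem_image_of_mem _ (Finset.mem_univ i)⟩
          have h7 : lam (e.symm ⟨_, h6⟩) = hh.eigenvalues i := by
            show ((e (e.symm ⟨_, h6⟩) : Λ) : ℝ) = _
            rw [e.apply_symm_apply]
          rw [Polynomial.eval_sub, Polynomial.eval_one, Polynomial.eval_finsetSum,
            Finset.sum_eq_single (e.symm ⟨_, h6⟩)]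
          · rw [Polynomial.eval_mul, Polynomial.eval_C, hFe, if_pos h7.symm,
              mul_inv_cancel₀ (hs0 _), sub_self]
          · intro l _ hl
            rw [Polynomial.eval_mul, hFe, if_neg, mul_zero]
            intro h8
            exact hl (hlinj _ _ (h8.symm.trans h7.symm))
          · intro h8
            exact absurd (Finset.mem_univ _) h8
      rw [Polynomial.eval_mul, Polynomial.eval_mul, Polynomial.eval_X]
      rcases h4 with h4 | h4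
      · rw [h4]
        simp
      · rw [h4]
        simp
    rw [map_sub, map_one, Matrix.mul_sub, Matrix.mul_one, sub_eq_zero] at h2
    exact h2
  · intro k1 k2 hk1 hk2 hkB j
    have hk2' : k2 * k2ᴴ = 1 := mul_eq_one_comm.1 hk2
    have h1 : Bᴴ * k1ᴴ = k2ᴴ * Bᴴ := by
      rw [← conjTranspose_mul, hkB, conjTranspose_mul]
    have h2 : k2 * Bᴴ = Bᴴ * k1 := by
      calc k2 * Bᴴ = k2 * Bᴴ * (k1ᴴ * k1) := by rw [hk1, Matrix.mul_one]
        _ = k2 * (Bᴴ * k1ᴴ) * k1 := by simp only [Matrix.mul_assoc]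
        _ = (k2 * k2ᴴ) * Bᴴ * k1 := by rw [h1]; simp only [Matrix.mul_assoc]
        _ = Bᴴ * k1 := by rw [hk2', Matrix.one_mul]
    have h3 : k2 * A = A * k2 := by
      rw [← hA, ← Matrix.mul_assoc, h2, Matrix.mul_assoc, hkB, Matrix.mul_assoc]
    show k1 * (B * Polynomial.aeval A (F (lam j))) = B * Polynomial.aeval A (F (lam j)) * k2
    rw [← Matrix.mul_assoc, hkB, Matrix.mul_assoc, B2_comm h3, Matrix.mul_assoc]

end Pool.Agent.MP_a98e84_gt.TG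
end

section

/-!
# TASK TG A1: algebra of the ball

`Ball W` says that `1 - Wᴴ * W` is positive definite; so its determinant is not zero (`Matrix.PosDef.det_pos`). (`Ball.flip`) Sylvester: the block matrix `(1, W; Wᴴ, 1)` is positive definite iff one
Schur complement is: `Matrix.PosDef.fromBlocks₁₁`/`fromBlocks₂₂`; or directly: for `v ≠ 0` put `u = Wᴴ v`; `|u|² = ⟨v, W u⟩ ≤ |v| |W u| < |v| |u|` if `u ≠ 0`.
(`P_mul`) `W * (1 - Wᴴ W) = (1 - W Wᴴ) * W`, multiply by the inverses. (`P_eq`) multiply by `1 - W Wᴴ`. (`ball_iff`) definition of `PosDef`: `vᴴ (1 - Wᴴ W) v = |v|² - |W v|²`, the matrix is Hermitian.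
(`ball_smul`) `1 - |c|² Wᴴ W = (1 - |c|²) 1 + |c|² (1 - Wᴴ W)`, or `ball_iff`. (`ball_unitary`) `ball_iff`. (`exists_smul_ball`) `|W v|² ≤ C |v|²` with `C = ∑ ‖W i j‖²` (Cauchy-Schwarz), `ball_iff`; take
`r = 1 / (1 + C)`, `r² C < 1`.
-/

set_option autoImplicit false

namespace Pool.Agent.MP_a98e84_gt.TG

open Matrix
open scoped ComplexOrder

variable {m n : Type*} [Fintype m] [Fintype n] [DecidableEq m] [DecidableEq n]


variable {W : Matrix m n ℂ}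

private theorem A1_sq {k : Type*} [Fintype k] (v : k → ℂ) :
    star v ⬝ᵥ v = ((∑ j, ‖v j‖ ^ 2 : ℝ) : ℂ) := by
  rw [dotProduct, Complex.ofReal_sum]
  refine Finset.sum_congr rfl fun j _ => ?_
  rw [Pi.star_apply, Complex.star_def, Complex.conj_mul', Complex.ofReal_pow]

private theorem A1_quad {k l : Type*} [Fintype k] [Fintype l] [DecidableEq l] (W : Matrix k l ℂ)
    (v : l → ℂ) : star v ⬝ᵥ ((1 - Wᴴ * W) *ᵥ v) =
      (((∑ j, ‖v j‖ ^ 2) - ∑ i, ‖(W *ᵥ v) i‖ ^ 2 : ℝ) : ℂ) := by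
  rw [sub_mulVec, one_mulVec, dotProduct_sub, A1_sq, ← mulVec_mulVec, dotProduct_mulVec,
    ← star_mulVec, A1_sq, Complex.ofReal_sub]

private theorem A1_iff {k l : Type*} [Fintype k] [Fintype l] [DecidableEq l]
    {W : Matrix k l ℂ} :
    Ball W ↔ ∀ v : l → ℂ, v ≠ 0 → ∑ i, ‖(W *ᵥ v) i‖ ^ 2 < ∑ j, ‖v j‖ ^ 2 := by
  unfold Ball
  rw [posDef_iff_dotProduct_mulVec]
  constructor
  · rintro ⟨_, h⟩ v hv
    have h1 := h hv
    rw [A1_quad, Complex.zero_lt_real, sub_pos] at h1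
    exact h1
  · intro h
    refine ⟨isHermitian_one.sub (isHermitian_conjTranspose_mul_self W), fun v hv => ?_⟩
    rw [A1_quad, Complex.zero_lt_real, sub_pos]
    exact h v hv

private theorem A1_pos {k : Type*} [Fintype k] {v : k → ℂ} (hv : v ≠ 0) :
    0 < ∑ j, ‖v j‖ ^ 2 := by
  obtain ⟨j, hj⟩ := Function.ne_iff.1 hv
  refine Finset.sum_pos' (fun i _ => by positivity) ⟨j, Finset.mem_univ j, ?_⟩
  have : 0 < ‖v j‖ := norm_pos_iff.2 hj
  positivity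

private theorem A1_flip {k l : Type*} [Fintype k] [Fintype l] [DecidableEq k] [DecidableEq l]
    {W : Matrix k l ℂ} (h : Ball W) : Ball Wᴴ := by
  rw [A1_iff] at h ⊢
  intro v hv
  by_cases hu : Wᴴ *ᵥ v = 0
  · rw [hu]
    have := A1_pos hv
    simpa using this
  · have h1 := h _ hu
    set u := Wᴴ *ᵥ v with hudef
    have hup := A1_pos hu
    have hvp := A1_pos hv
    have h2 : ((∑ j, ‖u j‖ ^ 2 : ℝ) : ℂ) = star (W *ᵥ u) ⬝ᵥ v := by
      rw [← A1_sq, star_mulVec W u, ← dotProduct_mulVec]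
    have h3 : (∑ j, ‖u j‖ ^ 2) ≤ ∑ i, ‖(W *ᵥ u) i‖ * ‖v i‖ := by
      have h4 : ‖((∑ j, ‖u j‖ ^ 2 : ℝ) : ℂ)‖ ≤ ∑ i, ‖(W *ᵥ u) i‖ * ‖v i‖ := by
        rw [h2, dotProduct]
        refine (norm_sum_le _ _).trans (le_of_eq ?_)
        refine Finset.sum_congr rfl fun i _ => ?_
        rw [norm_mul, Pi.star_apply, norm_star]
      rwa [Complex.norm_real, Real.norm_of_nonneg hup.le] at h4
    have h5 : (∑ i, ‖(W *ᵥ u) i‖ * ‖v i‖) ^ 2 ≤
        (∑ i, ‖(W *ᵥ u) i‖ ^ 2) * ∑ i, ‖v i‖ ^ 2 := Finset.sum_mul_sq_le_sq_mul_sq _ _ _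
    by_contra hcon
    push Not at hcon
    have h6 : (∑ j, ‖u j‖ ^ 2) ^ 2 ≤ (∑ i, ‖(W *ᵥ u) i‖ ^ 2) * ∑ i, ‖v i‖ ^ 2 :=
      (pow_le_pow_left₀ hup.le h3 2).trans h5
    have h7 : (∑ i, ‖(W *ᵥ u) i‖ ^ 2) * ∑ i, ‖v i‖ ^ 2 <
        (∑ j, ‖u j‖ ^ 2) * ∑ i, ‖v i‖ ^ 2 := mul_lt_mul_of_pos_right h1 hvp
    have h8 : (∑ j, ‖u j‖ ^ 2) * ∑ i, ‖v i‖ ^ 2 ≤ (∑ j, ‖u j‖ ^ 2) * (∑ j, ‖u j‖ ^ 2) :=
      mul_le_mul_of_nonneg_left hcon hup.le
    nlinarith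

theorem ball_iff : Ball W ↔ ∀ v : n → ℂ, v ≠ 0 → ∑ i, ‖(W *ᵥ v) i‖ ^ 2 < ∑ j, ‖v j‖ ^ 2 :=
  A1_iff

theorem Ball.det_ne (h : Ball W) : (1 - Wᴴ * W).det ≠ 0 := by
  have h1 : IsUnit (1 - Wᴴ * W) := Matrix.PosDef.isUnit h
  exact ((Matrix.isUnit_iff_isUnit_det _).1 h1).ne_zero

theorem Ball.flip (h : Ball W) : (1 - W * Wᴴ).PosDef := by
  have h1 : Ball Wᴴ := A1_flip h
  unfold Ball at h1
  rwa [conjTranspose_conjTranspose] at h1

theorem Ball.det_ne' (h : Ball W) : (1 - W * Wᴴ).det ≠ 0 := by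
  have h1 : IsUnit (1 - W * Wᴴ) := Matrix.PosDef.isUnit h.flip
  exact ((Matrix.isUnit_iff_isUnit_det _).1 h1).ne_zero

theorem ball_zero : Ball (0 : Matrix m n ℂ) := by
  rw [ball_iff]
  intro v hv
  have := A1_pos hv
  simpa using this

theorem ball_neg (h : Ball W) : Ball (-W) := by
  unfold Ball at h ⊢
  rwa [conjTranspose_neg, Matrix.neg_mul, Matrix.mul_neg, neg_neg]

private theorem A1_P {k l : Type*} [Fintype k] [Fintype l] [DecidableEq k] [DecidableEq l]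
    {W : Matrix k l ℂ} (hA : (1 - W * Wᴴ).det ≠ 0) (hB : (1 - Wᴴ * W).det ≠ 0) :
    (1 - W * Wᴴ)⁻¹ * W = W * (1 - Wᴴ * W)⁻¹ := by
  have h1 : (1 - W * Wᴴ) * W = W * (1 - Wᴴ * W) := by
    rw [Matrix.sub_mul, Matrix.mul_sub, Matrix.one_mul, Matrix.mul_one, Matrix.mul_assoc]
  have hA' : IsUnit (1 - W * Wᴴ).det := isUnit_iff_ne_zero.2 hA
  have hB' : IsUnit (1 - Wᴴ * W).det := isUnit_iff_ne_zero.2 hB
  calc (1 - W * Wᴴ)⁻¹ * W = (1 - W * Wᴴ)⁻¹ * (W * (1 - Wᴴ * W)) * (1 - Wᴴ * W)⁻¹ := by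
        rw [Matrix.mul_assoc, Matrix.mul_assoc W, Matrix.mul_nonsing_inv _ hB', Matrix.mul_one]
    _ = W * (1 - Wᴴ * W)⁻¹ := by
        rw [← h1, ← Matrix.mul_assoc, Matrix.nonsing_inv_mul _ hA', Matrix.one_mul]

private theorem A1_Peq {k l : Type*} [Fintype k] [Fintype l] [DecidableEq k] [DecidableEq l]
    {W : Matrix k l ℂ} (hB : (1 - Wᴴ * W).det ≠ 0) :
    (1 - W * Wᴴ)⁻¹ = 1 + W * (1 - Wᴴ * W)⁻¹ * Wᴴ := by
  have h1 : (1 - W * Wᴴ) * W = W * (1 - Wᴴ * W) := by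
    rw [Matrix.sub_mul, Matrix.mul_sub, Matrix.one_mul, Matrix.mul_one, Matrix.mul_assoc]
  have hB' : IsUnit (1 - Wᴴ * W).det := isUnit_iff_ne_zero.2 hB
  refine Matrix.inv_eq_right_inv ?_
  rw [Matrix.mul_add, Matrix.mul_one, ← Matrix.mul_assoc, ← Matrix.mul_assoc, h1,
    Matrix.mul_assoc W, Matrix.mul_nonsing_inv _ hB', Matrix.mul_one, sub_add_cancel]

theorem P_mul (h : Ball W) : (1 - W * Wᴴ)⁻¹ * W = W * (1 - Wᴴ * W)⁻¹ :=
  A1_P h.det_ne' h.det_ne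

theorem Q_mul (h : Ball W) : (1 - Wᴴ * W)⁻¹ * Wᴴ = Wᴴ * (1 - W * Wᴴ)⁻¹ := by
  have h1 := A1_P (W := Wᴴ) (by rw [conjTranspose_conjTranspose]; exact h.det_ne)
    (by rw [conjTranspose_conjTranspose]; exact h.det_ne')
  rwa [conjTranspose_conjTranspose] at h1

theorem P_herm (W : Matrix m n ℂ) : ((1 - W * Wᴴ)⁻¹)ᴴ = (1 - W * Wᴴ)⁻¹ := by
  rw [conjTranspose_nonsing_inv, conjTranspose_sub, conjTranspose_one, conjTranspose_mul,
    conjTranspose_conjTranspose]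

theorem Q_herm (W : Matrix m n ℂ) : ((1 - Wᴴ * W)⁻¹)ᴴ = (1 - Wᴴ * W)⁻¹ := by
  rw [conjTranspose_nonsing_inv, conjTranspose_sub, conjTranspose_one, conjTranspose_mul,
    conjTranspose_conjTranspose]

theorem P_eq (h : Ball W) : (1 - W * Wᴴ)⁻¹ = 1 + W * (1 - Wᴴ * W)⁻¹ * Wᴴ :=
  A1_Peq h.det_ne

theorem Q_eq (h : Ball W) : (1 - Wᴴ * W)⁻¹ = 1 + Wᴴ * (1 - W * Wᴴ)⁻¹ * W := by
  have h1 := A1_Peq (W := Wᴴ) (by rw [conjTranspose_conjTranspose]; exact h.det_ne')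
  rwa [conjTranspose_conjTranspose] at h1

private theorem A1_smul (W : Matrix m n ℂ) (c : ℂ) (v : n → ℂ) :
    ∑ i, ‖((c • W) *ᵥ v) i‖ ^ 2 = ‖c‖ ^ 2 * ∑ i, ‖(W *ᵥ v) i‖ ^ 2 := by
  rw [Finset.mul_sum]
  refine Finset.sum_congr rfl fun i _ => ?_
  rw [smul_mulVec, Pi.smul_apply, norm_smul, mul_pow]

theorem ball_smul (h : Ball W) {c : ℂ} (hc : ‖c‖ ≤ 1) : Ball (c • W) := by
  rw [ball_iff] at h ⊢
  intro v hv
  rw [A1_smul]
  refine lt_of_le_of_lt ?_ (h v hv)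
  have h1 : 0 ≤ ∑ i, ‖(W *ᵥ v) i‖ ^ 2 := Finset.sum_nonneg fun i _ => by positivity
  have h2 : ‖c‖ ^ 2 ≤ 1 := pow_le_one₀ (norm_nonneg c) hc
  nlinarith

private theorem A1_iso {k : Type*} [Fintype k] [DecidableEq k] {u : Matrix k k ℂ}
    (hu : uᴴ * u = 1) (v : k → ℂ) : ∑ i, ‖(u *ᵥ v) i‖ ^ 2 = ∑ i, ‖v i‖ ^ 2 := by
  have h1 : ((∑ i, ‖(u *ᵥ v) i‖ ^ 2 : ℝ) : ℂ) = ((∑ i, ‖v i‖ ^ 2 : ℝ) : ℂ) := by
    rw [← A1_sq, ← A1_sq, star_mulVec, ← dotProduct_mulVec, mulVec_mulVec, hu, one_mulVec]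
  exact Complex.ofReal_injective h1

theorem ball_unitary (h : Ball W) {k1 : Matrix m m ℂ} {k2 : Matrix n n ℂ} (h1 : k1ᴴ * k1 = 1) (h2 : k2ᴴ * k2 = 1) :
    Ball (k1 * W * k2ᴴ) := by
  rw [ball_iff] at h ⊢
  intro v hv
  have h3 : k2 * k2ᴴ = 1 := mul_eq_one_comm.1 h2
  have h4 : k2ᴴ *ᵥ v ≠ 0 := by
    intro h5
    apply hv
    have h6 : k2 *ᵥ (k2ᴴ *ᵥ v) = v := by rw [mulVec_mulVec, h3, one_mulVec]
    rw [← h6, h5, mulVec_zero]
  have h5 := h _ h4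
  have h6 : (k1 * W * k2ᴴ) *ᵥ v = k1 *ᵥ (W *ᵥ (k2ᴴ *ᵥ v)) := by
    rw [mulVec_mulVec, mulVec_mulVec, Matrix.mul_assoc]
  rw [h6, A1_iso h1]
  refine lt_of_lt_of_eq h5 (A1_iso ?_ v)
  rw [conjTranspose_conjTranspose, h3]

theorem exists_smul_ball (W : Matrix m n ℂ) : ∃ r : ℝ, 0 < r ∧ ∀ s : ℝ, |s| ≤ r → Ball ((s : ℂ) • W) := by
  set C : ℝ := ∑ i, ∑ j, ‖W i j‖ ^ 2 with hC
  have hC0 : 0 ≤ C := Finset.sum_nonneg fun i _ => Finset.sum_nonneg fun j _ => by positivity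
  refine ⟨1 / (1 + C), by positivity, fun s hs => ?_⟩
  rw [ball_iff]
  intro v hv
  have hvp := A1_pos hv
  rw [A1_smul, Complex.norm_real, Real.norm_eq_abs]
  have h1 : ∑ i, ‖(W *ᵥ v) i‖ ^ 2 ≤ C * ∑ j, ‖v j‖ ^ 2 := by
    rw [hC, Finset.sum_mul]
    refine Finset.sum_le_sum fun i _ => ?_
    have h2 : ‖(W *ᵥ v) i‖ ≤ ∑ j, ‖W i j‖ * ‖v j‖ := by
      rw [mulVec, dotProduct]
      refine (norm_sum_le _ _).trans (le_of_eq ?_)
      refine Finset.sum_congr rfl fun j _ => norm_mul _ _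
    exact (pow_le_pow_left₀ (norm_nonneg _) h2 2).trans (Finset.sum_mul_sq_le_sq_mul_sq _ _ _)
  have h2 : |s| ^ 2 * C < 1 := by
    have h3 : |s| * (1 + C) ≤ 1 := by
      rwa [le_div_iff₀ (by positivity)] at hs
    have h4 : 0 ≤ |s| := abs_nonneg s
    have h5 : |s| ≤ 1 := by nlinarith
    by_cases h6 : |s| = 0
    · rw [h6]; norm_num
    · have h7 : 0 < |s| := lt_of_le_of_ne h4 (Ne.symm h6)
      nlinarith [mul_nonneg h4 hC0, mul_nonneg (sub_nonneg.2 h5) (mul_nonneg h4 hC0)]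
  calc |s| ^ 2 * ∑ i, ‖(W *ᵥ v) i‖ ^ 2 ≤ |s| ^ 2 * (C * ∑ j, ‖v j‖ ^ 2) :=
        mul_le_mul_of_nonneg_left h1 (by positivity)
    _ = (|s| ^ 2 * C) * ∑ j, ‖v j‖ ^ 2 := by ring
    _ < 1 * ∑ j, ‖v j‖ ^ 2 := mul_lt_mul_of_pos_right h2 hvp
    _ = _ := one_mul _

end Pool.Agent.MP_a98e84_gt.TG
end

section

/-!
# TASK TG B3a: algebra of orthogonal tripotents

`pl E w = ∑ j, w j • E j`. (`pl_star_mul`) `(pl E w)ᴴ * pl E u = ∑ j, (conj (w j) * u j) • ((E j)ᴴ * E j)` by `Trip.orthL`. (`pl_mul_proj`) `pl E u * ∑ j, c j • ((E j)ᴴ * E j) = pl E (u * c)` (`orthR`, `trip`; for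
`i ≠ j`: `E i * (E j)ᴴ = 0`). The matrices `(E j)ᴴ * E j` are pairwise orthogonal projections.
(`Trip.ball`) For `v ≠ 0`: `|pl E w v|² = ∑ |w j|² |E j v|²` and `∑ |E j v|² ≤ |v|²` (Bessel: `F = ∑ (E j)ᴴ E j` is a Hermitian projection, `|v|² = vᴴ F v + vᴴ (1 - F) v`); if `F v = 0` the left side of
`ball_iff` is `0 < |v|²`; otherwise it is `< ∑ |E j v|² ≤ |v|²`. (`Trip.inv`) multiply: `(1 - ∑ |w j|² p j)(1 + ∑ c j p j) = 1` because `c j - |w j|² - |w j|² c j = 0`, `p j = (E j)ᴴ E j`. (`Trip.uqwu`), (`Trip.hm_pl`): by `Trip.inv` and the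
analogous formula for `(1 - W Wᴴ)⁻¹` (apply `Trip.inv` to the adjoints, or `P_eq`), then `hm = ∑ |u j|² / (1 - |w j|²)² * tr (E j (E j)ᴴ)`, and `trace_trip`: `E Eᴴ` is a Hermitian projection, its trace is its rank, and
`rank (E Eᴴ) = rank E` (`Matrix.rank_self_mul_conjTranspose`). The trace of an idempotent matrix is its rank: `LinearMap.IsIdempotentElem`/`LinearMap.IsProj.trace` or diagonalise (eigenvalues 0 or 1, `Matrix.IsHermitian.rank_eq_card_non_zero_eigs`).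
(`Trip.lt_one`) take `v ≠ 0` with `E j v ≠ 0`, replace `v` by `(E j)ᴴ E j v`; then `|B v|² = β² |v|²`, `ball_iff`.
-/

set_option autoImplicit false
set_option linter.unusedSectionVars false

namespace Pool.Agent.MP_a98e84_gt.TG

open Matrix
open scoped ComplexOrder

variable {m n : Type*} [Fintype m] [Fintype n] [DecidableEq m] [DecidableEq n]


variable {k : ℕ} {E : Fin k → Matrix m n ℂ}

theorem pl_star_mul (hE : Trip E) (w u : Fin k → ℂ) :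
    (pl E w)ᴴ * pl E u = ∑ j, ((starRingEnd ℂ) (w j) * u j) • ((E j)ᴴ * E j) := by
  unfold pl
  rw [conjTranspose_sum, Matrix.sum_mul]
  refine Finset.sum_congr rfl fun j _ => ?_
  rw [Matrix.mul_sum, Finset.sum_eq_single j]
  · rw [conjTranspose_smul, Matrix.smul_mul, Matrix.mul_smul, smul_smul]
    rfl
  · intro l _ hl
    rw [conjTranspose_smul, Matrix.smul_mul, Matrix.mul_smul, hE.orthL j l (Ne.symm hl), smul_zero,
      smul_zero]
  · intro h; exact absurd (Finset.mem_univ j) h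

theorem pl_mul_star (hE : Trip E) (w u : Fin k → ℂ) :
    pl E w * (pl E u)ᴴ = ∑ j, (w j * (starRingEnd ℂ) (u j)) • (E j * (E j)ᴴ) := by
  unfold pl
  rw [conjTranspose_sum, Matrix.sum_mul]
  refine Finset.sum_congr rfl fun j _ => ?_
  rw [Matrix.mul_sum, Finset.sum_eq_single j]
  · rw [conjTranspose_smul, Matrix.smul_mul, Matrix.mul_smul, smul_smul]
    rfl
  · intro l _ hl
    rw [conjTranspose_smul, Matrix.smul_mul, Matrix.mul_smul, hE.orthR j l (Ne.symm hl), smul_zero,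
      smul_zero]
  · intro h; exact absurd (Finset.mem_univ j) h

theorem pl_mul_proj (hE : Trip E) (w c : Fin k → ℂ) :
    pl E w * ∑ j, c j • ((E j)ᴴ * E j) = pl E (fun j => w j * c j) := by
  unfold pl
  rw [Matrix.sum_mul]
  refine Finset.sum_congr rfl fun j _ => ?_
  rw [Matrix.mul_sum, Finset.sum_eq_single j]
  · rw [Matrix.smul_mul, Matrix.mul_smul, smul_smul, ← Matrix.mul_assoc, hE.trip j]
  · intro l _ hl
    rw [Matrix.smul_mul, Matrix.mul_smul, ← Matrix.mul_assoc, hE.orthR j l (Ne.symm hl),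
      Matrix.zero_mul, smul_zero, smul_zero]
  · intro h; exact absurd (Finset.mem_univ j) h

theorem proj_mul_pl (hE : Trip E) (w c : Fin k → ℂ) :
    (∑ j, c j • (E j * (E j)ᴴ)) * pl E w = pl E (fun j => c j * w j) := by
  unfold pl
  rw [Matrix.sum_mul]
  refine Finset.sum_congr rfl fun j _ => ?_
  rw [Matrix.mul_sum, Finset.sum_eq_single j]
  · rw [Matrix.smul_mul, Matrix.mul_smul, smul_smul, hE.trip j]
  · intro l _ hl
    rw [Matrix.smul_mul, Matrix.mul_smul, Matrix.mul_assoc, hE.orthL j l (Ne.symm hl),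
      Matrix.mul_zero, smul_zero, smul_zero]
  · intro h; exact absurd (Finset.mem_univ j) h

/-- orthogonal idempotents -/
private theorem B3a_pr {ν : Type*} [Fintype ν] [DecidableEq ν] {q : Fin k → Matrix ν ν ℂ}
    (h1 : ∀ j, q j * q j = q j) (h2 : ∀ j l, j ≠ l → q j * q l = 0) (c d : Fin k → ℂ) :
    (∑ j, c j • q j) * (∑ j, d j • q j) = ∑ j, (c j * d j) • q j := by
  rw [Matrix.sum_mul]
  refine Finset.sum_congr rfl fun j _ => ?_
  rw [Matrix.mul_sum, Finset.sum_eq_single j]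
  · rw [Matrix.smul_mul, Matrix.mul_smul, smul_smul, h1]
  · intro l _ hl
    rw [Matrix.smul_mul, Matrix.mul_smul, h2 j l (Ne.symm hl), smul_zero, smul_zero]
  · intro h; exact absurd (Finset.mem_univ j) h

private theorem B3a_pr1 {ν : Type*} [Fintype ν] [DecidableEq ν] {q : Fin k → Matrix ν ν ℂ}
    (h1 : ∀ j, q j * q j = q j) (h2 : ∀ j l, j ≠ l → q j * q l = 0) (c d : Fin k → ℂ) :
    (1 + ∑ j, c j • q j) * (1 + ∑ j, d j • q j) = 1 + ∑ j, (c j + d j + c j * d j) • q j := by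
  rw [add_mul, mul_add, mul_add, one_mul, one_mul, mul_one, B3a_pr h1 h2]
  simp only [add_smul, Finset.sum_add_distrib]
  abel

private theorem B3a_q1 (hE : Trip E) (j : Fin k) :
    ((E j)ᴴ * E j) * ((E j)ᴴ * E j) = (E j)ᴴ * E j := by
  rw [Matrix.mul_assoc, ← Matrix.mul_assoc (E j), hE.trip j]

private theorem B3a_q2 (hE : Trip E) (j l : Fin k) (h : j ≠ l) :
    ((E j)ᴴ * E j) * ((E l)ᴴ * E l) = 0 := by
  rw [Matrix.mul_assoc, ← Matrix.mul_assoc (E j), hE.orthR j l h, Matrix.zero_mul, Matrix.mul_zero]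

private theorem B3a_q1' (hE : Trip E) (j : Fin k) :
    (E j * (E j)ᴴ) * (E j * (E j)ᴴ) = E j * (E j)ᴴ := by
  rw [← Matrix.mul_assoc, hE.trip j]

private theorem B3a_q2' (hE : Trip E) (j l : Fin k) (h : j ≠ l) :
    (E j * (E j)ᴴ) * (E l * (E l)ᴴ) = 0 := by
  rw [Matrix.mul_assoc, ← Matrix.mul_assoc ((E j)ᴴ), hE.orthL j l h, Matrix.zero_mul,
    Matrix.mul_zero]

private theorem B3a_conj (z : ℂ) : (starRingEnd ℂ) z * z = ((‖z‖ ^ 2 : ℝ) : ℂ) := by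
  rw [Complex.conj_mul']
  push_cast
  rfl

private theorem B3a_one_sub (hE : Trip E) (w : Fin k → ℂ) :
    1 - (pl E w)ᴴ * pl E w = 1 + ∑ j, (-((‖w j‖ ^ 2 : ℝ) : ℂ)) • ((E j)ᴴ * E j) := by
  rw [pl_star_mul hE, sub_eq_add_neg, ← Finset.sum_neg_distrib]
  congr 1
  refine Finset.sum_congr rfl fun j _ => ?_
  rw [B3a_conj, neg_smul]

private theorem B3a_one_sub' (hE : Trip E) (w : Fin k → ℂ) :
    1 - pl E w * (pl E w)ᴴ = 1 + ∑ j, (-((‖w j‖ ^ 2 : ℝ) : ℂ)) • (E j * (E j)ᴴ) := by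
  rw [pl_mul_star hE, sub_eq_add_neg, ← Finset.sum_neg_distrib]
  congr 1
  refine Finset.sum_congr rfl fun j _ => ?_
  rw [mul_comm, B3a_conj, neg_smul]

private theorem B3a_lt {z : ℂ} (h : ‖z‖ < 1) : 0 < 1 - ‖z‖ ^ 2 := by
  have := norm_nonneg z
  nlinarith

theorem Trip.ball (hE : Trip E) {w : Fin k → ℂ} (hw : ∀ j, ‖w j‖ < 1) : Ball (pl E w) := by
  let s : Fin k → ℝ := fun j => Real.sqrt (1 - ‖w j‖ ^ 2)
  have hs : ∀ j, 0 < s j := fun j => Real.sqrt_pos.2 (B3a_lt (hw j))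
  have hs2 : ∀ j, s j * s j = 1 - ‖w j‖ ^ 2 := fun j => Real.mul_self_sqrt (B3a_lt (hw j)).le
  let A : Matrix n n ℂ := 1 + ∑ j, ((s j - 1 : ℝ) : ℂ) • ((E j)ᴴ * E j)
  let B : Matrix n n ℂ := 1 + ∑ j, (((s j)⁻¹ - 1 : ℝ) : ℂ) • ((E j)ᴴ * E j)
  have hAB : B * A = 1 := by
    show (1 + ∑ j, (((s j)⁻¹ - 1 : ℝ) : ℂ) • ((E j)ᴴ * E j)) *
      (1 + ∑ j, ((s j - 1 : ℝ) : ℂ) • ((E j)ᴴ * E j)) = 1
    rw [B3a_pr1 (B3a_q1 hE) (B3a_q2 hE)]
    rw [Finset.sum_eq_zero, add_zero]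
    intro j _
    have h1 : (((s j)⁻¹ - 1 : ℝ) : ℂ) + ((s j - 1 : ℝ) : ℂ) +
        (((s j)⁻¹ - 1 : ℝ) : ℂ) * ((s j - 1 : ℝ) : ℂ) = 0 := by
      have h2 : (s j)⁻¹ - 1 + (s j - 1) + ((s j)⁻¹ - 1) * (s j - 1) = 0 := by
        have := (hs j).ne'
        field_simp
        ring
      exact_mod_cast h2
    rw [h1, zero_smul]
  have hAA : Aᴴ * A = 1 - (pl E w)ᴴ * pl E w := by
    have hA : Aᴴ = A := by
      show (1 + ∑ j, ((s j - 1 : ℝ) : ℂ) • ((E j)ᴴ * E j))ᴴ = _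
      rw [conjTranspose_add, conjTranspose_one, conjTranspose_sum]
      congr 1
      refine Finset.sum_congr rfl fun j _ => ?_
      rw [conjTranspose_smul, conjTranspose_mul, conjTranspose_conjTranspose]
      congr 1
      exact Complex.conj_ofReal _
    rw [hA, B3a_one_sub hE]
    show (1 + ∑ j, ((s j - 1 : ℝ) : ℂ) • ((E j)ᴴ * E j)) *
      (1 + ∑ j, ((s j - 1 : ℝ) : ℂ) • ((E j)ᴴ * E j)) = _
    rw [B3a_pr1 (B3a_q1 hE) (B3a_q2 hE)]
    congr 1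
    refine Finset.sum_congr rfl fun j _ => ?_
    congr 1
    have h2 : (s j - 1) + (s j - 1) + (s j - 1) * (s j - 1) = -(‖w j‖ ^ 2) := by
      have := hs2 j
      linear_combination this
    exact_mod_cast h2
  unfold Ball
  rw [← hAA]
  refine Matrix.PosDef.conjTranspose_mul_self A ?_
  intro x y hxy
  have h1 : B *ᵥ (A *ᵥ x) = B *ᵥ (A *ᵥ y) := congrArg (fun z => B *ᵥ z) hxy
  rwa [mulVec_mulVec, mulVec_mulVec, hAB, one_mulVec, one_mulVec] at h1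

theorem Trip.inv (hE : Trip E) {w : Fin k → ℂ} (hw : ∀ j, ‖w j‖ < 1) :
    (1 - (pl E w)ᴴ * pl E w)⁻¹ = 1 + ∑ j, (((‖w j‖ ^ 2 / (1 - ‖w j‖ ^ 2) : ℝ)) : ℂ) • ((E j)ᴴ * E j) := by
  refine Matrix.inv_eq_right_inv ?_
  rw [B3a_one_sub hE, B3a_pr1 (B3a_q1 hE) (B3a_q2 hE), Finset.sum_eq_zero, add_zero]
  intro j _
  have h1 : -((‖w j‖ ^ 2 : ℝ) : ℂ) + ((‖w j‖ ^ 2 / (1 - ‖w j‖ ^ 2) : ℝ) : ℂ) +
      -((‖w j‖ ^ 2 : ℝ) : ℂ) * ((‖w j‖ ^ 2 / (1 - ‖w j‖ ^ 2) : ℝ) : ℂ) = 0 := by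
    have h2 : -(‖w j‖ ^ 2) + ‖w j‖ ^ 2 / (1 - ‖w j‖ ^ 2) +
        -(‖w j‖ ^ 2) * (‖w j‖ ^ 2 / (1 - ‖w j‖ ^ 2)) = 0 := by
      have := (B3a_lt (hw j)).ne'
      field_simp
      ring
    exact_mod_cast h2
  rw [h1, zero_smul]

theorem Trip.inv' (hE : Trip E) {w : Fin k → ℂ} (hw : ∀ j, ‖w j‖ < 1) :
    (1 - pl E w * (pl E w)ᴴ)⁻¹ = 1 + ∑ j, (((‖w j‖ ^ 2 / (1 - ‖w j‖ ^ 2) : ℝ)) : ℂ) • (E j * (E j)ᴴ) := by
  refine Matrix.inv_eq_right_inv ?_
  rw [B3a_one_sub' hE, B3a_pr1 (B3a_q1' hE) (B3a_q2' hE), Finset.sum_eq_zero, add_zero]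
  intro j _
  have h1 : -((‖w j‖ ^ 2 : ℝ) : ℂ) + ((‖w j‖ ^ 2 / (1 - ‖w j‖ ^ 2) : ℝ) : ℂ) +
      -((‖w j‖ ^ 2 : ℝ) : ℂ) * ((‖w j‖ ^ 2 / (1 - ‖w j‖ ^ 2) : ℝ) : ℂ) = 0 := by
    have h2 : -(‖w j‖ ^ 2) + ‖w j‖ ^ 2 / (1 - ‖w j‖ ^ 2) +
        -(‖w j‖ ^ 2) * (‖w j‖ ^ 2 / (1 - ‖w j‖ ^ 2)) = 0 := by
      have := (B3a_lt (hw j)).ne'
      field_simp
      ring
    exact_mod_cast h2
  rw [h1, zero_smul]

private theorem B3a_pl_inv (hE : Trip E) {w : Fin k → ℂ} (hw : ∀ j, ‖w j‖ < 1) (u : Fin k → ℂ) :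
    pl E u * (1 - (pl E w)ᴴ * pl E w)⁻¹ =
      pl E (fun j => u j / ((1 - ‖w j‖ ^ 2 : ℝ) : ℂ)) := by
  rw [hE.inv hw, Matrix.mul_add, Matrix.mul_one, pl_mul_proj hE]
  unfold pl
  rw [← Finset.sum_add_distrib]
  refine Finset.sum_congr rfl fun j _ => ?_
  rw [← add_smul]
  congr 1
  have h1 : ((1 - ‖w j‖ ^ 2 : ℝ) : ℂ) ≠ 0 := by exact_mod_cast (B3a_lt (hw j)).ne'
  show u j + u j * ((‖w j‖ ^ 2 / (1 - ‖w j‖ ^ 2) : ℝ) : ℂ) = u j / ((1 - ‖w j‖ ^ 2 : ℝ) : ℂ)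
  rw [Complex.ofReal_div]
  field_simp
  push_cast
  ring

theorem Trip.uqwu (hE : Trip E) {w : Fin k → ℂ} (hw : ∀ j, ‖w j‖ < 1) (u : Fin k → ℂ) :
    pl E u * (1 - (pl E w)ᴴ * pl E w)⁻¹ * (pl E w)ᴴ * pl E u =
      pl E (fun j => (starRingEnd ℂ) (w j) * u j ^ 2 / ((1 - ‖w j‖ ^ 2 : ℝ) : ℂ)) := by
  rw [B3a_pl_inv hE hw, Matrix.mul_assoc, pl_star_mul hE, pl_mul_proj hE]
  unfold pl
  refine Finset.sum_congr rfl fun j _ => ?_
  congr 1
  ring

theorem trace_trip {e : Matrix m n ℂ} (h : e * eᴴ * e = e) : trace (e * eᴴ) = (e.rank : ℂ) := by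
  have hP : (e * eᴴ) * (e * eᴴ) = e * eᴴ := by
    rw [← Matrix.mul_assoc, h]
  have h1 : IsIdempotentElem (Matrix.toLin' (e * eᴴ)) := by
    unfold IsIdempotentElem
    rw [Module.End.mul_eq_comp, ← Matrix.toLin'_mul, hP]
  have h2 := (LinearMap.IsIdempotentElem.isProj_range _ h1).trace
  rw [Matrix.trace_toLin'_eq] at h2
  rw [h2]
  congr 1
  rw [← Matrix.rank_self_mul_conjTranspose e]
  rfl

theorem Trip.hm_pl (hE : Trip E) {w : Fin k → ℂ} (hw : ∀ j, ‖w j‖ < 1) (u : Fin k → ℂ) :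
    hm (pl E w) (pl E u) (pl E u) =
      ((∑ j, ((E j).rank : ℝ) * (‖u j‖ ^ 2 / (1 - ‖w j‖ ^ 2) ^ 2) : ℝ) : ℂ) := by
  unfold hm
  rw [Matrix.mul_assoc ((1 - pl E w * (pl E w)ᴴ)⁻¹), B3a_pl_inv hE hw, hE.inv' hw, Matrix.add_mul,
    Matrix.one_mul, proj_mul_pl hE]
  have h0 : pl E (fun j => u j / ((1 - ‖w j‖ ^ 2 : ℝ) : ℂ)) +
      pl E (fun j => (((‖w j‖ ^ 2 / (1 - ‖w j‖ ^ 2) : ℝ)) : ℂ) * (u j / ((1 - ‖w j‖ ^ 2 : ℝ) : ℂ)))
      = pl E (fun j => u j / ((1 - ‖w j‖ ^ 2 : ℝ) : ℂ) ^ 2) := by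
    unfold pl
    rw [← Finset.sum_add_distrib]
    refine Finset.sum_congr rfl fun j _ => ?_
    rw [← add_smul]
    congr 1
    have h1 : ((1 - ‖w j‖ ^ 2 : ℝ) : ℂ) ≠ 0 := by exact_mod_cast (B3a_lt (hw j)).ne'
    show u j / ((1 - ‖w j‖ ^ 2 : ℝ) : ℂ) +
      ((‖w j‖ ^ 2 / (1 - ‖w j‖ ^ 2) : ℝ) : ℂ) * (u j / ((1 - ‖w j‖ ^ 2 : ℝ) : ℂ)) =
      u j / ((1 - ‖w j‖ ^ 2 : ℝ) : ℂ) ^ 2
    rw [Complex.ofReal_div]
    field_simp
    push_cast
    ring
  rw [h0, pl_mul_star hE, Matrix.trace_sum]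
  push_cast
  refine Finset.sum_congr rfl fun j _ => ?_
  rw [Matrix.trace_smul, trace_trip (hE.trip j), smul_eq_mul]
  have h2 : u j * (starRingEnd ℂ) (u j) = ((‖u j‖ : ℝ) : ℂ) ^ 2 := by
    rw [mul_comm, Complex.conj_mul']
  rw [mul_comm, div_mul_eq_mul_div, h2]

private theorem B3a_sq {ν : Type*} [Fintype ν] (v : ν → ℂ) :
    ((∑ i, ‖v i‖ ^ 2 : ℝ) : ℂ) = star v ⬝ᵥ v := by
  simp only [dotProduct]
  push_cast
  refine Finset.sum_congr rfl fun i _ => ?_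
  rw [Pi.star_apply]
  exact (Complex.conj_mul' (v i)).symm

theorem Trip.lt_one (hE : Trip E) (hne : ∀ j, E j ≠ 0) {β : Fin k → ℝ} (hβ : ∀ j, 0 < β j)
    (h : Ball (pl E (fun j => (β j : ℂ)))) (j : Fin k) : β j < 1 := by
  obtain ⟨x, hx⟩ : ∃ x, E j *ᵥ x ≠ 0 := by
    by_contra hc
    push Not at hc
    apply hne j
    ext a b
    have h1 := congrFun (hc (Pi.single b 1)) a
    simpa using h1
  let y : m → ℂ := E j *ᵥ x
  let v : n → ℂ := (E j)ᴴ *ᵥ y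
  have hEv : E j *ᵥ v = y := by
    show E j *ᵥ ((E j)ᴴ *ᵥ (E j *ᵥ x)) = E j *ᵥ x
    rw [mulVec_mulVec, mulVec_mulVec, hE.trip j]
  have hv : v ≠ 0 := by
    intro h0
    rw [h0, mulVec_zero] at hEv
    exact hx hEv.symm
  have h1 := ball_iff.1 h v hv
  have h2 : pl E (fun j => (β j : ℂ)) *ᵥ v = (β j : ℂ) • y := by
    unfold pl
    rw [Matrix.sum_mulVec, Finset.sum_eq_single j]
    · rw [smul_mulVec, hEv]
    · intro l _ hl
      show (((β l : ℂ) • E l) *ᵥ ((E j)ᴴ *ᵥ y)) = 0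
      rw [smul_mulVec, mulVec_mulVec, hE.orthR l j hl, zero_mulVec, smul_zero]
    · intro h0; exact absurd (Finset.mem_univ j) h0
  have h3 : ∑ i, ‖v i‖ ^ 2 = ∑ i, ‖y i‖ ^ 2 := by
    have h4 : star v ⬝ᵥ v = star y ⬝ᵥ y := by
      show star ((E j)ᴴ *ᵥ y) ⬝ᵥ v = _
      rw [star_mulVec, conjTranspose_conjTranspose, ← dotProduct_mulVec, hEv]
    rw [← B3a_sq, ← B3a_sq] at h4
    exact_mod_cast h4
  rw [h2, h3] at h1
  have h5 : ∑ i, ‖((β j : ℂ) • y) i‖ ^ 2 = β j ^ 2 * ∑ i, ‖y i‖ ^ 2 := by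
    rw [Finset.mul_sum]
    refine Finset.sum_congr rfl fun i _ => ?_
    rw [Pi.smul_apply, smul_eq_mul, norm_mul, Complex.norm_real, mul_pow, Real.norm_eq_abs, sq_abs]
  rw [h5] at h1
  have h6 : 0 ≤ ∑ i, ‖y i‖ ^ 2 := Finset.sum_nonneg fun i _ => sq_nonneg _
  by_contra hge
  push Not at hge
  have h7 : 1 ≤ β j ^ 2 := by nlinarith [hβ j]
  nlinarith

end Pool.Agent.MP_a98e84_gt.TG
end

section

/-!
# TASK TG C1: the group `U(m,n)`

`IsU G`: `Gᴴ J G = J`, `J = JJ m n`, `J * J = 1`, `Jᴴ = J`. (`IsU.inv_eq`) `(J Gᴴ J) G = 1`, so `G⁻¹ = J Gᴴ J` (`Matrix.inv_eq_left_inv`); then `G (J Gᴴ J) = 1` (`Matrix.mul_eq_one_comm`), which gives `G J Gᴴ = J`. The block relations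
are the blocks of `Gᴴ J G = J` and `G J Gᴴ = J` (write `G = fromBlocks G.toBlocks₁₁ ..`, `Matrix.fromBlocks_toBlocks`, `Matrix.fromBlocks_conjTranspose`, `Matrix.fromBlocks_multiply`, `Matrix.fromBlocks_inj`).
-/

set_option autoImplicit false

namespace Pool.Agent.MP_a98e84_gt.TG

open Matrix
open scoped ComplexOrder

variable {m n : Type*} [Fintype m] [Fintype n] [DecidableEq m] [DecidableEq n]


variable {G H : Matrix (m ⊕ n) (m ⊕ n) ℂ}

theorem JJ_mul : JJ m n * JJ m n = 1 := by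
  rw [JJ, fromBlocks_multiply]
  simp

theorem JJ_herm : (JJ m n)ᴴ = JJ m n := by
  rw [JJ, fromBlocks_conjTranspose]
  simp

theorem IsU.one : IsU (1 : Matrix (m ⊕ n) (m ⊕ n) ℂ) := by
  rw [IsU, conjTranspose_one, Matrix.one_mul, Matrix.mul_one]

theorem IsU.mul (hG : IsU G) (hH : IsU H) : IsU (G * H) := by
  rw [IsU] at hG hH ⊢
  calc (G * H)ᴴ * JJ m n * (G * H) = Hᴴ * (Gᴴ * JJ m n * G) * H := by
        rw [conjTranspose_mul]
        simp only [Matrix.mul_assoc]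
    _ = JJ m n := by rw [hG, hH]

private theorem C1_left (hG : IsU G) : JJ m n * Gᴴ * JJ m n * G = 1 := by
  rw [IsU] at hG
  calc JJ m n * Gᴴ * JJ m n * G = JJ m n * (Gᴴ * JJ m n * G) := by
        simp only [Matrix.mul_assoc]
    _ = 1 := by rw [hG, JJ_mul]

theorem IsU.isUnit_det (hG : IsU G) : IsUnit G.det :=
  Matrix.isUnit_det_of_left_inverse (C1_left hG)

theorem IsU.inv_eq (hG : IsU G) : G⁻¹ = JJ m n * Gᴴ * JJ m n :=
  Matrix.inv_eq_left_inv (C1_left hG)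

private theorem C1_flip (hG : IsU G) : G * JJ m n * Gᴴ = JJ m n := by
  have h1 : G * (JJ m n * Gᴴ * JJ m n) = 1 := mul_eq_one_comm.1 (C1_left hG)
  calc G * JJ m n * Gᴴ = G * (JJ m n * Gᴴ * JJ m n) * JJ m n := by
        have h2 : G * (JJ m n * Gᴴ * JJ m n) * JJ m n = G * JJ m n * Gᴴ * (JJ m n * JJ m n) := by
          simp only [Matrix.mul_assoc]
        rw [h2, JJ_mul, Matrix.mul_one]
    _ = JJ m n := by rw [h1, Matrix.one_mul]

theorem IsU.inv (hG : IsU G) : IsU G⁻¹ := by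
  rw [IsU, hG.inv_eq, conjTranspose_mul, conjTranspose_mul, JJ_herm, conjTranspose_conjTranspose]
  calc JJ m n * (G * JJ m n) * JJ m n * (JJ m n * Gᴴ * JJ m n)
      = JJ m n * G * (JJ m n * (JJ m n * JJ m n)) * Gᴴ * JJ m n := by
        simp only [Matrix.mul_assoc]
    _ = JJ m n * (G * JJ m n * Gᴴ) * JJ m n := by
        rw [JJ_mul, Matrix.mul_one]
        simp only [Matrix.mul_assoc]
    _ = JJ m n := by rw [C1_flip hG, JJ_mul, Matrix.one_mul]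

theorem IsU.flip (hG : IsU G) : G * JJ m n * Gᴴ = JJ m n := C1_flip hG

private theorem C1_rel (A : Matrix m m ℂ) (B : Matrix m n ℂ) (C : Matrix n m ℂ) (D : Matrix n n ℂ) :
    (fromBlocks A B C D)ᴴ * JJ m n * fromBlocks A B C D =
      fromBlocks (Aᴴ * A - Cᴴ * C) (Aᴴ * B - Cᴴ * D) (Bᴴ * A - Dᴴ * C) (Bᴴ * B - Dᴴ * D) := by
  rw [JJ, fromBlocks_conjTranspose, fromBlocks_multiply, fromBlocks_multiply]
  simp [sub_eq_add_neg]

private theorem C1_col (A : Matrix m m ℂ) (B : Matrix m n ℂ) (C : Matrix n m ℂ) (D : Matrix n n ℂ) :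
    fromBlocks A B C D * JJ m n * (fromBlocks A B C D)ᴴ =
      fromBlocks (A * Aᴴ - B * Bᴴ) (A * Cᴴ - B * Dᴴ) (C * Aᴴ - D * Bᴴ) (C * Cᴴ - D * Dᴴ) := by
  rw [JJ, fromBlocks_conjTranspose, fromBlocks_multiply, fromBlocks_multiply]
  simp [sub_eq_add_neg]

private theorem C1_rel' (hG : IsU G) :
    fromBlocks (G.toBlocks₁₁ᴴ * G.toBlocks₁₁ - G.toBlocks₂₁ᴴ * G.toBlocks₂₁)
      (G.toBlocks₁₁ᴴ * G.toBlocks₁₂ - G.toBlocks₂₁ᴴ * G.toBlocks₂₂)
      (G.toBlocks₁₂ᴴ * G.toBlocks₁₁ - G.toBlocks₂₂ᴴ * G.toBlocks₂₁)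
      (G.toBlocks₁₂ᴴ * G.toBlocks₁₂ - G.toBlocks₂₂ᴴ * G.toBlocks₂₂) = fromBlocks 1 0 0 (-1) := by
  rw [← C1_rel, fromBlocks_toBlocks]
  exact hG

private theorem C1_col' (hG : IsU G) :
    fromBlocks (G.toBlocks₁₁ * G.toBlocks₁₁ᴴ - G.toBlocks₁₂ * G.toBlocks₁₂ᴴ)
      (G.toBlocks₁₁ * G.toBlocks₂₁ᴴ - G.toBlocks₁₂ * G.toBlocks₂₂ᴴ)
      (G.toBlocks₂₁ * G.toBlocks₁₁ᴴ - G.toBlocks₂₂ * G.toBlocks₁₂ᴴ)
      (G.toBlocks₂₁ * G.toBlocks₂₁ᴴ - G.toBlocks₂₂ * G.toBlocks₂₂ᴴ) = fromBlocks 1 0 0 (-1) := by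
  rw [← C1_col, fromBlocks_toBlocks]
  exact C1_flip hG

theorem IsU.inv_blocks (hG : IsU G) :
    G⁻¹ = fromBlocks G.toBlocks₁₁ᴴ (-G.toBlocks₂₁ᴴ) (-G.toBlocks₁₂ᴴ) G.toBlocks₂₂ᴴ := by
  rw [hG.inv_eq]
  conv_lhs => rw [← fromBlocks_toBlocks G]
  rw [JJ, fromBlocks_conjTranspose, fromBlocks_multiply, fromBlocks_multiply]
  simp

theorem IsU.r11 (hG : IsU G) : G.toBlocks₁₁ᴴ * G.toBlocks₁₁ - G.toBlocks₂₁ᴴ * G.toBlocks₂₁ = 1 :=
  (fromBlocks_inj.1 (C1_rel' hG)).1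

theorem IsU.r12 (hG : IsU G) : G.toBlocks₁₁ᴴ * G.toBlocks₁₂ = G.toBlocks₂₁ᴴ * G.toBlocks₂₂ :=
  sub_eq_zero.1 (fromBlocks_inj.1 (C1_rel' hG)).2.1

theorem IsU.r22 (hG : IsU G) : G.toBlocks₂₂ᴴ * G.toBlocks₂₂ - G.toBlocks₁₂ᴴ * G.toBlocks₁₂ = 1 := by
  rw [← neg_sub, (fromBlocks_inj.1 (C1_rel' hG)).2.2.2, neg_neg]

theorem IsU.c11 (hG : IsU G) : G.toBlocks₁₁ * G.toBlocks₁₁ᴴ - G.toBlocks₁₂ * G.toBlocks₁₂ᴴ = 1 :=
  (fromBlocks_inj.1 (C1_col' hG)).1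

theorem IsU.c21 (hG : IsU G) : G.toBlocks₂₁ * G.toBlocks₁₁ᴴ = G.toBlocks₂₂ * G.toBlocks₁₂ᴴ :=
  sub_eq_zero.1 (fromBlocks_inj.1 (C1_col' hG)).2.2.1

theorem IsU.c22 (hG : IsU G) : G.toBlocks₂₂ * G.toBlocks₂₂ᴴ - G.toBlocks₂₁ * G.toBlocks₂₁ᴴ = 1 := by
  rw [← neg_sub, (fromBlocks_inj.1 (C1_col' hG)).2.2.2, neg_neg]

end Pool.Agent.MP_a98e84_gt.TG
end

section

/-!
# TASK TG C1b: the action of `U(m,n)` on the unit ball

Let `A, B, C, D` be the blocks of `G`. `(A W + B)ᴴ (A Z + B) - (C W + D)ᴴ (C Z + D) = Wᴴ Z - 1` (expand, `r11`, `r12` and its adjoint, `r22`). (`det_ne`) if `(C W + D) v = 0` then with `Z = W`: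
`- |(A W + B) v|² = vᴴ (1 - Wᴴ W) v`, so `v = 0`. (`det_ne'`) the same for the adjoint: `(A Aᴴ - B Bᴴ = 1` etc.`)`: `(Aᴴ + W Bᴴ)`: if `vᴴ (Aᴴ + W Bᴴ) = 0` then... use `(A + B Wᴴ)(A + B Wᴴ)ᴴ - (B + A W)(B + A W)ᴴ = A (1 - W Wᴴ) Aᴴ - B (1 - Wᴴ W) Bᴴ`;
simpler: the matrix of `G` exchanged: `(Bᴴ.. )`. Direct argument: if `(Aᴴ + W Bᴴ) v = 0`, put `x = Aᴴ v`, `y = Bᴴ v`: `x = -W y`, and `|x|² - |y|² = vᴴ (A Aᴴ - B Bᴴ) v = |v|²`, but `|x|² = |W y|² ≤ |y|²`, so `v = 0`.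
(`one_sub_mob`) from the first identity. (`ball_mob`) `one_sub_mob` with `Z = W`: congruence of a positive definite matrix by an invertible matrix. (`mob_mul`) the blocks of `G * H` and
`mob H W = (A' W + B') (C' W + D')⁻¹`: `(G * H)`: `(A A' + B C') W + (A B' + B D') = (A (mob H W) + B) (C' W + D')`. (`mob_key`) `(A - Z C) (Aᴴ + W Bᴴ) = 1` for `Z = mob G W`: since `Z (C W + D) = A W + B`,
`(A - Z C)(Aᴴ + W Bᴴ) = A Aᴴ + A W Bᴴ - Z C Aᴴ - Z C W Bᴴ = A Aᴴ + A W Bᴴ - Z (D + C W) Bᴴ = A Aᴴ + A W Bᴴ - (A W + B) Bᴴ = 1` (`c21`, `c11`).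
(`one_sub_mob'`) `1 - Z Zᴴ = α (1 - W Wᴴ) αᴴ`: `α⁻¹ Z = Wᴴ..`: `(Aᴴ + W Bᴴ)(A W + B) = (W Dᴴ + Cᴴ)(C W + D)` (expand: `Aᴴ A W + Aᴴ B + W Bᴴ A W + W Bᴴ B` and `W Dᴴ C W + W Dᴴ D + Cᴴ C W + Cᴴ D`; `r11`, `r12`, its adjoint, `r22`), so
`(Aᴴ + W Bᴴ) Z = W Dᴴ + Cᴴ`; and `(Aᴴ + W Bᴴ)(Aᴴ + W Bᴴ)ᴴ - (W Dᴴ + Cᴴ)(W Dᴴ + Cᴴ)ᴴ = 1 - W Wᴴ`. (`mob_inv_mob`) `mob_mul`, `mob_one`.
-/

set_option autoImplicit false

namespace Pool.Agent.MP_a98e84_gt.TG

open Matrix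
open scoped ComplexOrder

variable {m n : Type*} [Fintype m] [Fintype n] [DecidableEq m] [DecidableEq n]


variable {G H : Matrix (m ⊕ n) (m ⊕ n) ℂ} {W Z : Matrix m n ℂ}

private theorem C1b_nsq {p q : Type*} [Fintype p] [Fintype q] (M : Matrix p q ℂ) (v : q → ℂ) :
    star v ⬝ᵥ ((Mᴴ * M) *ᵥ v) = ((∑ i, ‖(M *ᵥ v) i‖ ^ 2 : ℝ) : ℂ) := by
  rw [← mulVec_mulVec, dotProduct_mulVec, ← star_mulVec]
  unfold dotProduct
  push_cast
  refine Finset.sum_congr rfl fun i _ => ?_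
  simp only [Pi.star_apply, RCLike.star_def]
  exact Complex.conj_mul' _

private theorem C1b_one {q : Type*} [Fintype q] [DecidableEq q] (v : q → ℂ) :
    star v ⬝ᵥ ((1 : Matrix q q ℂ) *ᵥ v) = ((∑ i, ‖v i‖ ^ 2 : ℝ) : ℂ) := by
  have h := C1b_nsq (1 : Matrix q q ℂ) v
  rw [conjTranspose_one, Matrix.one_mul, one_mulVec] at h
  rw [one_mulVec]
  exact h

private theorem C1b_pos {q : Type*} [Fintype q] {v : q → ℂ} (hv : v ≠ 0) : 0 < ∑ i, ‖v i‖ ^ 2 := by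
  obtain ⟨i, hi⟩ := Function.ne_iff.1 hv
  have h1 : ‖v i‖ ^ 2 ≤ ∑ i, ‖v i‖ ^ 2 :=
    Finset.single_le_sum (f := fun i => ‖v i‖ ^ 2) (fun _ _ => by positivity) (Finset.mem_univ i)
  have h2 : 0 < ‖v i‖ ^ 2 := by
    have : 0 < ‖v i‖ := norm_pos_iff.2 hi
    positivity
  linarith

private theorem C1b_key {A : Matrix m m ℂ} {B : Matrix m n ℂ} {C : Matrix n m ℂ} {D : Matrix n n ℂ}
    (h11 : Aᴴ * A = 1 + Cᴴ * C) (h12 : Aᴴ * B = Cᴴ * D) (h21 : Bᴴ * A = Dᴴ * C)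
    (h22 : Dᴴ * D = 1 + Bᴴ * B) (W Z : Matrix m n ℂ) :
    (A * W + B)ᴴ * (A * Z + B) = (C * W + D)ᴴ * (C * Z + D) + Wᴴ * Z - 1 := by
  have e11 : Aᴴ * (A * Z) = Z + Cᴴ * (C * Z) := by
    rw [← Matrix.mul_assoc, h11, Matrix.add_mul, Matrix.one_mul, Matrix.mul_assoc]
  have e21 : Bᴴ * (A * Z) = Dᴴ * (C * Z) := by
    rw [← Matrix.mul_assoc, h21, Matrix.mul_assoc]
  simp only [conjTranspose_add, conjTranspose_mul, Matrix.add_mul, Matrix.mul_add,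
    Matrix.mul_assoc, e11, e21, h12, h22]
  abel

private theorem C1b_rels (hG : IsU G) :
    (G.toBlocks₁₁ᴴ * G.toBlocks₁₁ = 1 + G.toBlocks₂₁ᴴ * G.toBlocks₂₁) ∧
    (G.toBlocks₁₁ᴴ * G.toBlocks₁₂ = G.toBlocks₂₁ᴴ * G.toBlocks₂₂) ∧
    (G.toBlocks₁₂ᴴ * G.toBlocks₁₁ = G.toBlocks₂₂ᴴ * G.toBlocks₂₁) ∧
    (G.toBlocks₂₂ᴴ * G.toBlocks₂₂ = 1 + G.toBlocks₁₂ᴴ * G.toBlocks₁₂) := by
  refine ⟨?_, hG.r12, ?_, ?_⟩
  · exact sub_eq_iff_eq_add.1 hG.r11
  · have h := congrArg conjTranspose hG.r12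
    simpa only [conjTranspose_mul, conjTranspose_conjTranspose] using h
  · exact sub_eq_iff_eq_add.1 hG.r22

theorem IsU.det_ne (hG : IsU G) (hW : Ball W) : (G.toBlocks₂₁ * W + G.toBlocks₂₂).det ≠ 0 := by
  intro hdet
  obtain ⟨v, hv, hv0⟩ := Matrix.exists_mulVec_eq_zero_iff.2 hdet
  obtain ⟨h11, h12, h21, h22⟩ := C1b_rels hG
  have hk := C1b_key h11 h12 h21 h22 W W
  clear hdet
  generalize G.toBlocks₂₁ * W + G.toBlocks₂₂ = X at *
  generalize G.toBlocks₁₁ * W + G.toBlocks₁₂ = U at *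
  have h1 := congrArg (fun M : Matrix n n ℂ => star v ⬝ᵥ (M *ᵥ v)) hk
  simp only [sub_mulVec, add_mulVec, dotProduct_sub, dotProduct_add, C1b_nsq, C1b_one] at h1
  have h2 : ∑ i, ‖(U *ᵥ v) i‖ ^ 2 = ∑ i, ‖(X *ᵥ v) i‖ ^ 2 + ∑ i, ‖(W *ᵥ v) i‖ ^ 2 -
        ∑ i, ‖v i‖ ^ 2 := by
    exact_mod_cast h1
  have h3 : ∑ i, ‖(X *ᵥ v) i‖ ^ 2 = 0 := by
    rw [hv0]
    simp
  have h4 : 0 ≤ ∑ i, ‖(U *ᵥ v) i‖ ^ 2 := Finset.sum_nonneg fun _ _ => by positivity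
  have h5 := ball_iff.1 hW v hv
  linarith

theorem IsU.det_ne' (hG : IsU G) (hW : Ball W) : (G.toBlocks₁₁ᴴ + W * G.toBlocks₁₂ᴴ).det ≠ 0 := by
  intro hdet
  obtain ⟨v, hv, hv0⟩ := Matrix.exists_mulVec_eq_zero_iff.2 hdet
  have hc : G.toBlocks₁₁ * G.toBlocks₁₁ᴴ = 1 + G.toBlocks₁₂ * G.toBlocks₁₂ᴴ :=
    sub_eq_iff_eq_add.1 hG.c11
  have h1 := congrArg (fun M : Matrix m m ℂ => star v ⬝ᵥ (M *ᵥ v)) hc
  have ha := C1b_nsq (G.toBlocks₁₁ᴴ) v
  have hb := C1b_nsq (G.toBlocks₁₂ᴴ) v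
  rw [conjTranspose_conjTranspose] at ha hb
  simp only [add_mulVec, dotProduct_add, ha, hb, C1b_one] at h1
  have h2 : ∑ i, ‖((G.toBlocks₁₁ᴴ) *ᵥ v) i‖ ^ 2 =
      ∑ i, ‖v i‖ ^ 2 + ∑ i, ‖((G.toBlocks₁₂ᴴ) *ᵥ v) i‖ ^ 2 := by
    exact_mod_cast h1
  have h3 : (G.toBlocks₁₁ᴴ) *ᵥ v = -(W *ᵥ ((G.toBlocks₁₂ᴴ) *ᵥ v)) := by
    rw [add_mulVec, ← mulVec_mulVec] at hv0
    exact eq_neg_of_add_eq_zero_left hv0
  have h4 : ∑ i, ‖((G.toBlocks₁₁ᴴ) *ᵥ v) i‖ ^ 2 ≤ ∑ i, ‖((G.toBlocks₁₂ᴴ) *ᵥ v) i‖ ^ 2 := by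
    rw [h3]
    simp only [Pi.neg_apply, norm_neg]
    by_cases h0 : (G.toBlocks₁₂ᴴ) *ᵥ v = 0
    · rw [h0]
      simp
    · exact (ball_iff.1 hW _ h0).le
  have h5 := C1b_pos hv
  linarith

theorem mob_one (W : Matrix m n ℂ) : mob 1 W = W := by
  unfold mob
  rw [← fromBlocks_one (l := m) (m := n), toBlocks_fromBlocks₁₁, toBlocks_fromBlocks₁₂,
    toBlocks_fromBlocks₂₁, toBlocks_fromBlocks₂₂, Matrix.one_mul, Matrix.zero_mul, add_zero,
    zero_add, inv_one, Matrix.mul_one]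

theorem one_sub_mob (hG : IsU G) (hW : Ball W) (hZ : Ball Z) :
    1 - (mob G W)ᴴ * mob G Z =
      ((G.toBlocks₂₁ * W + G.toBlocks₂₂)⁻¹)ᴴ * (1 - Wᴴ * Z) * (G.toBlocks₂₁ * Z + G.toBlocks₂₂)⁻¹ := by
  have hX := isUnit_iff_ne_zero.2 (hG.det_ne hW)
  have hY := isUnit_iff_ne_zero.2 (hG.det_ne hZ)
  obtain ⟨h11, h12, h21, h22⟩ := C1b_rels hG
  have hk := C1b_key h11 h12 h21 h22 W Z
  unfold mob
  rw [conjTranspose_mul]
  generalize G.toBlocks₂₁ * W + G.toBlocks₂₂ = X at *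
  generalize G.toBlocks₂₁ * Z + G.toBlocks₂₂ = Y at *
  generalize G.toBlocks₁₁ * W + G.toBlocks₁₂ = U at *
  generalize G.toBlocks₁₁ * Z + G.toBlocks₁₂ = V at *
  have e1 : (X⁻¹)ᴴ * Xᴴ = 1 := by
    rw [← conjTranspose_mul, Matrix.mul_nonsing_inv X hX, conjTranspose_one]
  have e2 : Y * Y⁻¹ = 1 := Matrix.mul_nonsing_inv Y hY
  have e3 : 1 - Wᴴ * Z = Xᴴ * Y - Uᴴ * V := by
    rw [hk]
    abel
  rw [e3, Matrix.mul_sub, Matrix.sub_mul, ← Matrix.mul_assoc (X⁻¹)ᴴ Xᴴ Y, e1, Matrix.one_mul, e2]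
  simp only [Matrix.mul_assoc]

theorem ball_mob (hG : IsU G) (hW : Ball W) : Ball (mob G W) := by
  have hX := isUnit_iff_ne_zero.2 (hG.det_ne hW)
  unfold Ball
  rw [one_sub_mob hG hW hW]
  apply Matrix.PosDef.conjTranspose_mul_mul_same hW
  apply Matrix.mulVec_injective_iff_isUnit.2
  rw [Matrix.isUnit_iff_isUnit_det]
  exact Matrix.isUnit_nonsing_inv_det _ hX

theorem mob_mul (hG : IsU G) (hH : IsU H) (hW : Ball W) : mob (G * H) W = mob G (mob H W) := by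
  have hX := isUnit_iff_ne_zero.2 (hH.det_ne hW)
  have hb : G * H = fromBlocks (G.toBlocks₁₁ * H.toBlocks₁₁ + G.toBlocks₁₂ * H.toBlocks₂₁)
      (G.toBlocks₁₁ * H.toBlocks₁₂ + G.toBlocks₁₂ * H.toBlocks₂₂)
      (G.toBlocks₂₁ * H.toBlocks₁₁ + G.toBlocks₂₂ * H.toBlocks₂₁)
      (G.toBlocks₂₁ * H.toBlocks₁₂ + G.toBlocks₂₂ * H.toBlocks₂₂) := by
    conv_lhs => rw [← fromBlocks_toBlocks G, ← fromBlocks_toBlocks H, fromBlocks_multiply]
  have hZ : mob H W * (H.toBlocks₂₁ * W + H.toBlocks₂₂) = H.toBlocks₁₁ * W + H.toBlocks₁₂ := by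
    unfold mob
    rw [Matrix.mul_assoc, Matrix.nonsing_inv_mul _ hX, Matrix.mul_one]
  have e1 : (G * H).toBlocks₁₁ * W + (G * H).toBlocks₁₂ =
      (G.toBlocks₁₁ * mob H W + G.toBlocks₁₂) * (H.toBlocks₂₁ * W + H.toBlocks₂₂) := by
    rw [Matrix.add_mul, Matrix.mul_assoc, hZ, hb, toBlocks_fromBlocks₁₁, toBlocks_fromBlocks₁₂]
    simp only [Matrix.add_mul, Matrix.mul_add, Matrix.mul_assoc]
    abel
  have e2 : (G * H).toBlocks₂₁ * W + (G * H).toBlocks₂₂ =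
      (G.toBlocks₂₁ * mob H W + G.toBlocks₂₂) * (H.toBlocks₂₁ * W + H.toBlocks₂₂) := by
    rw [Matrix.add_mul, Matrix.mul_assoc, hZ, hb, toBlocks_fromBlocks₂₁, toBlocks_fromBlocks₂₂]
    simp only [Matrix.add_mul, Matrix.mul_add, Matrix.mul_assoc]
    abel
  have hd : mob (G * H) W = ((G * H).toBlocks₁₁ * W + (G * H).toBlocks₁₂) *
      ((G * H).toBlocks₂₁ * W + (G * H).toBlocks₂₂)⁻¹ := rfl
  have hd' : mob G (mob H W) = (G.toBlocks₁₁ * mob H W + G.toBlocks₁₂) *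
      (G.toBlocks₂₁ * mob H W + G.toBlocks₂₂)⁻¹ := rfl
  rw [hd, e1, e2, Matrix.mul_inv_rev, hd']
  generalize G.toBlocks₁₁ * mob H W + G.toBlocks₁₂ = U
  generalize (G.toBlocks₂₁ * mob H W + G.toBlocks₂₂)⁻¹ = V
  rw [Matrix.mul_assoc, ← Matrix.mul_assoc _ _ V, Matrix.mul_nonsing_inv _ hX, Matrix.one_mul]

theorem mob_key (hG : IsU G) (hW : Ball W) :
    G.toBlocks₁₁ - mob G W * G.toBlocks₂₁ = (G.toBlocks₁₁ᴴ + W * G.toBlocks₁₂ᴴ)⁻¹ := by
  have hX := isUnit_iff_ne_zero.2 (hG.det_ne hW)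
  have hZ : mob G W * (G.toBlocks₂₁ * W + G.toBlocks₂₂) = G.toBlocks₁₁ * W + G.toBlocks₁₂ := by
    unfold mob
    rw [Matrix.mul_assoc, Matrix.nonsing_inv_mul _ hX, Matrix.mul_one]
  have hc11 : G.toBlocks₁₁ * G.toBlocks₁₁ᴴ = 1 + G.toBlocks₁₂ * G.toBlocks₁₂ᴴ :=
    sub_eq_iff_eq_add.1 hG.c11
  have hc21 := hG.c21
  symm
  apply Matrix.inv_eq_left_inv
  generalize mob G W = Z at *
  have e1 : Z * (G.toBlocks₂₁ * G.toBlocks₁₁ᴴ) + Z * (G.toBlocks₂₁ * (W * G.toBlocks₁₂ᴴ)) =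
      G.toBlocks₁₁ * (W * G.toBlocks₁₂ᴴ) + G.toBlocks₁₂ * G.toBlocks₁₂ᴴ := by
    have h := congrArg (fun M => M * G.toBlocks₁₂ᴴ) hZ
    simp only [Matrix.add_mul, Matrix.mul_add, Matrix.mul_assoc] at h
    rw [hc21, ← h]
    abel
  have e2 : (G.toBlocks₁₁ - Z * G.toBlocks₂₁) * (G.toBlocks₁₁ᴴ + W * G.toBlocks₁₂ᴴ) =
      G.toBlocks₁₁ * G.toBlocks₁₁ᴴ + G.toBlocks₁₁ * (W * G.toBlocks₁₂ᴴ) -
        (Z * (G.toBlocks₂₁ * G.toBlocks₁₁ᴴ) + Z * (G.toBlocks₂₁ * (W * G.toBlocks₁₂ᴴ))) := by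
    simp only [Matrix.sub_mul, Matrix.mul_add, Matrix.mul_assoc]
    abel
  rw [e2, e1, hc11]
  abel

theorem one_sub_mob' (hG : IsU G) (hW : Ball W) :
    1 - mob G W * (mob G W)ᴴ =
      (G.toBlocks₁₁ᴴ + W * G.toBlocks₁₂ᴴ)⁻¹ * (1 - W * Wᴴ) * ((G.toBlocks₁₁ᴴ + W * G.toBlocks₁₂ᴴ)⁻¹)ᴴ := by
  have hX := isUnit_iff_ne_zero.2 (hG.det_ne hW)
  have hY := isUnit_iff_ne_zero.2 (hG.det_ne' hW)
  obtain ⟨h11, h12, h21, h22⟩ := C1b_rels hG
  have hYZ : (G.toBlocks₁₁ᴴ + W * G.toBlocks₁₂ᴴ) * mob G W =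
      W * G.toBlocks₂₂ᴴ + G.toBlocks₂₁ᴴ := by
    have e : (G.toBlocks₁₁ᴴ + W * G.toBlocks₁₂ᴴ) * (G.toBlocks₁₁ * W + G.toBlocks₁₂) =
        (W * G.toBlocks₂₂ᴴ + G.toBlocks₂₁ᴴ) * (G.toBlocks₂₁ * W + G.toBlocks₂₂) := by
      have e11 : G.toBlocks₁₁ᴴ * (G.toBlocks₁₁ * W) = W + G.toBlocks₂₁ᴴ * (G.toBlocks₂₁ * W) := by
        rw [← Matrix.mul_assoc, h11, Matrix.add_mul, Matrix.one_mul, Matrix.mul_assoc]
      have e21 : G.toBlocks₁₂ᴴ * (G.toBlocks₁₁ * W) = G.toBlocks₂₂ᴴ * (G.toBlocks₂₁ * W) := by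
        rw [← Matrix.mul_assoc, h21, Matrix.mul_assoc]
      simp only [Matrix.add_mul, Matrix.mul_add, Matrix.mul_assoc, e11, e21, h12, h22,
        Matrix.mul_one]
      abel
    unfold mob
    rw [← Matrix.mul_assoc, e, Matrix.mul_assoc, Matrix.mul_nonsing_inv _ hX, Matrix.mul_one]
  have hYY : (G.toBlocks₁₁ᴴ + W * G.toBlocks₁₂ᴴ) * (G.toBlocks₁₁ᴴ + W * G.toBlocks₁₂ᴴ)ᴴ =
      (W * G.toBlocks₂₂ᴴ + G.toBlocks₂₁ᴴ) * (W * G.toBlocks₂₂ᴴ + G.toBlocks₂₁ᴴ)ᴴ +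
        (1 - W * Wᴴ) := by
    have e1 : G.toBlocks₁₁ᴴ * (G.toBlocks₁₂ * Wᴴ) = G.toBlocks₂₁ᴴ * (G.toBlocks₂₂ * Wᴴ) := by
      rw [← Matrix.mul_assoc, h12, Matrix.mul_assoc]
    have e2 : G.toBlocks₂₂ᴴ * (G.toBlocks₂₂ * Wᴴ) = Wᴴ + G.toBlocks₁₂ᴴ * (G.toBlocks₁₂ * Wᴴ) := by
      rw [← Matrix.mul_assoc, h22, Matrix.add_mul, Matrix.one_mul, Matrix.mul_assoc]
    simp only [conjTranspose_add, conjTranspose_mul, conjTranspose_conjTranspose, Matrix.add_mul,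
      Matrix.mul_add, Matrix.mul_assoc, e1, e2, h11, h21]
    abel
  generalize G.toBlocks₁₁ᴴ + W * G.toBlocks₁₂ᴴ = Y at *
  generalize W * G.toBlocks₂₂ᴴ + G.toBlocks₂₁ᴴ = T at *
  generalize mob G W = Z at *
  have e3 : 1 - W * Wᴴ = Y * (1 - Z * Zᴴ) * Yᴴ := by
    have e4 : Y * (1 - Z * Zᴴ) * Yᴴ = Y * Yᴴ - (Y * Z) * (Y * Z)ᴴ := by
      simp only [Matrix.mul_sub, Matrix.sub_mul, Matrix.mul_one, Matrix.mul_assoc,
        conjTranspose_mul]
    rw [e4, hYZ, hYY]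
    abel
  have e5 : Y⁻¹ * Y = 1 := Matrix.nonsing_inv_mul Y hY
  have e6 : Yᴴ * (Y⁻¹)ᴴ = 1 := by
    rw [← conjTranspose_mul, e5, conjTranspose_one]
  rw [e3, Matrix.mul_assoc, Matrix.mul_assoc, Matrix.mul_assoc, e6, Matrix.mul_one,
    ← Matrix.mul_assoc, e5, Matrix.one_mul]

theorem mob_inv_mob (hG : IsU G) (hW : Ball W) : mob G⁻¹ (mob G W) = W := by
  rw [← mob_mul hG.inv hG hW, Matrix.nonsing_inv_mul G hG.isUnit_det, mob_one]

theorem mob_mob_inv (hG : IsU G) (hW : Ball W) : mob G (mob G⁻¹ W) = W := by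
  rw [← mob_mul hG hG.inv hW, Matrix.mul_nonsing_inv G hG.isUnit_det, mob_one]

end Pool.Agent.MP_a98e84_gt.TG
end

section

/-!
# TASK TG C2: transvections

(`exists_tv`) Let `Λ` be the finite set of the eigenvalues of `B Bᴴ` and of `Bᴴ B`; they are in `[0, 1)` (`Ball.flip`). `exists_poly`: a real polynomial `f` with `f x = (1 - x)^(-1/2)` on `Λ`. `a = aeval (B Bᴴ) f`,
`d = aeval (Bᴴ B) f`: positive definite (`aeval_posDef`), `a * a * (1 - B Bᴴ) = aeval (B Bᴴ) (f * f * (1 - X)) = 1` (`aeval_eq_zero` for `f f (1 - X) - 1`), `aeval_intertwine`.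
(`tva`, `tvd`) chosen. (`isU_tv`) with `a B = B d`, `Bᴴ a = d Bᴴ`, `a a (1 - B Bᴴ) = 1`, `(1 - Bᴴ B) d d = 1`: blocks. (`tv_herm`) `(a B)ᴴ = Bᴴ a = d Bᴴ`. (`mob_tv_zero`) `(a B) d⁻¹ = B`. (`mob_tv_eq`) the definition:
`mob (tv B) Z = (a Z + a B)(d Bᴴ Z + d)⁻¹ = a (Z + B) (1 + Bᴴ Z)⁻¹ d⁻¹`; `det (1 + Bᴴ Z) ≠ 0` because `det (d Bᴴ Z + d) ≠ 0` (`IsU.det_ne`). (`mob_tv`) `a (Z + B) = a⁻¹ Z + a B (1 + Bᴴ Z)`: since `a a (1 - B Bᴴ) = 1`,
`a⁻¹ = a (1 - B Bᴴ)`, `a⁻¹ Z = a Z - a B Bᴴ Z`. (`mob_tv_inv`) `IsU.inv_blocks`: `(tv B)⁻¹ = fromBlocks a (-(a B)) (-(d Bᴴ)) d`, so `mob (tv B)⁻¹ Z = a (Z - B)(1 - Bᴴ Z)⁻¹ d⁻¹ = - mob (tv B) (-Z)`.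
(`tv_comm`) `k1` commutes with `B Bᴴ` and `k2` with `Bᴴ B` (`k2 Bᴴ = Bᴴ k1` by unitarity), so with `a * a = (1 - B Bᴴ)⁻¹` and `d * d`, so `k1 a = a k1`, `k2 d = d k2` (`commute_of_sq`); then the blocks.
-/

set_option autoImplicit false

namespace Pool.Agent.MP_a98e84_gt.TG

open Matrix
open scoped ComplexOrder

variable {m n : Type*} [Fintype m] [Fintype n] [DecidableEq m] [DecidableEq n]


private theorem C2_eig_lt {A : Matrix m m ℂ} (hA : A.IsHermitian) (h : (1 - A).PosDef) (i : m) :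
    hA.eigenvalues i < 1 := by
  have hv : (hA.eigenvectorBasis i).ofLp ≠ 0 := by
    intro h0
    have h1 := hA.eigenvectorBasis.orthonormal.1 i
    have h2 : hA.eigenvectorBasis i = 0 := by
      ext j
      exact congrFun h0 j
    rw [h2, norm_zero] at h1
    exact zero_ne_one h1
  have h1 := h.dotProduct_mulVec_pos hv
  rw [sub_mulVec, one_mulVec, hA.mulVec_eigenvectorBasis, dotProduct_sub] at h1
  have h2 : star (hA.eigenvectorBasis i).ofLp ⬝ᵥ hA.eigenvalues i • (hA.eigenvectorBasis i).ofLp =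
      (hA.eigenvalues i : ℂ) * (star (hA.eigenvectorBasis i).ofLp ⬝ᵥ (hA.eigenvectorBasis i).ofLp) := by
    rw [dotProduct_smul]
    exact Complex.real_smul
  have h3 : 0 < star (hA.eigenvectorBasis i).ofLp ⬝ᵥ (hA.eigenvectorBasis i).ofLp :=
    dotProduct_star_self_pos_iff.2 hv
  rw [h2] at h1
  have h4 : (star (hA.eigenvectorBasis i).ofLp ⬝ᵥ (hA.eigenvectorBasis i).ofLp) -
      (hA.eigenvalues i : ℂ) * (star (hA.eigenvectorBasis i).ofLp ⬝ᵥ (hA.eigenvectorBasis i).ofLp) =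
      ((1 - hA.eigenvalues i : ℝ) : ℂ) * (star (hA.eigenvectorBasis i).ofLp ⬝ᵥ (hA.eigenvectorBasis i).ofLp) := by
    push_cast
    ring
  rw [h4] at h1
  rw [Complex.pos_iff] at h1 h3
  have h5 := h1.1
  rw [Complex.re_ofReal_mul] at h5
  have h6 := (pos_iff_pos_of_mul_pos h5).2 h3.1
  linarith

theorem exists_tv {B : Matrix m n ℂ} (hB : Ball B) : ∃ ad : Matrix m m ℂ × Matrix n n ℂ, ad.1.PosDef ∧ ad.2.PosDef ∧
    ad.1 * ad.1 * (1 - B * Bᴴ) = 1 ∧ ad.2 * ad.2 * (1 - Bᴴ * B) = 1 ∧ ad.1 * B = B * ad.2 := by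
  have hA1 : (B * Bᴴ).IsHermitian := isHermitian_mul_conjTranspose_self B
  have hA2 : (Bᴴ * B).IsHermitian := isHermitian_conjTranspose_mul_self B
  obtain ⟨f, hf⟩ := exists_poly (fun x => (√(1 - x))⁻¹)
    (Finset.univ.image hA1.eigenvalues ∪ Finset.univ.image hA2.eigenvalues)
  have hf1 : ∀ i, f.eval (hA1.eigenvalues i) = (√(1 - hA1.eigenvalues i))⁻¹ := fun i =>
    hf _ (Finset.mem_union_left _ (Finset.mem_image_of_mem _ (Finset.mem_univ i)))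
  have hf2 : ∀ i, f.eval (hA2.eigenvalues i) = (√(1 - hA2.eigenvalues i))⁻¹ := fun i =>
    hf _ (Finset.mem_union_right _ (Finset.mem_image_of_mem _ (Finset.mem_univ i)))
  have hl1 := C2_eig_lt hA1 hB.flip
  have hl2 := C2_eig_lt hA2 hB
  have key : ∀ x : ℝ, x < 1 → (√(1 - x))⁻¹ * (√(1 - x))⁻¹ * (1 - x) - 1 = 0 := by
    intro x hx
    have h1 : 0 < 1 - x := by linarith
    have h2 : √(1 - x) * √(1 - x) = 1 - x := Real.mul_self_sqrt h1.le
    rw [← mul_inv, h2, inv_mul_cancel₀ h1.ne', sub_self]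
  refine ⟨(Polynomial.aeval (B * Bᴴ) f, Polynomial.aeval (Bᴴ * B) f), ?_, ?_, ?_, ?_, ?_⟩
  · refine aeval_posDef hA1 f fun i => ?_
    rw [hf1]
    have := hl1 i
    exact inv_pos.2 (Real.sqrt_pos.2 (by linarith))
  · refine aeval_posDef hA2 f fun i => ?_
    rw [hf2]
    have := hl2 i
    exact inv_pos.2 (Real.sqrt_pos.2 (by linarith))
  · have h := aeval_eq_zero hA1 (f * f * (1 - Polynomial.X) - 1) (by
      intro i
      simp only [Polynomial.eval_sub, Polynomial.eval_mul, Polynomial.eval_one, Polynomial.eval_X, hf1]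
      exact key _ (hl1 i))
    simp only [map_sub, map_mul, map_one, Polynomial.aeval_X] at h
    exact sub_eq_zero.1 h
  · have h := aeval_eq_zero hA2 (f * f * (1 - Polynomial.X) - 1) (by
      intro i
      simp only [Polynomial.eval_sub, Polynomial.eval_mul, Polynomial.eval_one, Polynomial.eval_X, hf2]
      exact key _ (hl2 i))
    simp only [map_sub, map_mul, map_one, Polynomial.aeval_X] at h
    exact sub_eq_zero.1 h
  · exact aeval_intertwine B f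

open Classical in
/-- the positive root of `(1 - B Bᴴ)⁻¹` -/
noncomputable def tva (B : Matrix m n ℂ) : Matrix m m ℂ := if h : Ball B then (exists_tv h).choose.1 else 1

open Classical in
/-- the positive root of `(1 - Bᴴ B)⁻¹` -/
noncomputable def tvd (B : Matrix m n ℂ) : Matrix n n ℂ := if h : Ball B then (exists_tv h).choose.2 else 1

/-- the transvection which maps `0` to `B` -/
noncomputable def tv (B : Matrix m n ℂ) : Matrix (m ⊕ n) (m ⊕ n) ℂ := fromBlocks (tva B) (tva B * B) (tvd B * Bᴴ) (tvd B)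

variable {B Z : Matrix m n ℂ}

theorem tva_posDef (hB : Ball B) : (tva B).PosDef := by
  unfold tva
  rw [dif_pos hB]
  exact (exists_tv hB).choose_spec.1

theorem tvd_posDef (hB : Ball B) : (tvd B).PosDef := by
  unfold tvd
  rw [dif_pos hB]
  exact (exists_tv hB).choose_spec.2.1

theorem tva_sq (hB : Ball B) : tva B * tva B * (1 - B * Bᴴ) = 1 := by
  unfold tva
  rw [dif_pos hB]
  exact (exists_tv hB).choose_spec.2.2.1

theorem tvd_sq (hB : Ball B) : tvd B * tvd B * (1 - Bᴴ * B) = 1 := by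
  unfold tvd
  rw [dif_pos hB]
  exact (exists_tv hB).choose_spec.2.2.2.1

theorem tva_mul (hB : Ball B) : tva B * B = B * tvd B := by
  unfold tva tvd
  rw [dif_pos hB, dif_pos hB]
  exact (exists_tv hB).choose_spec.2.2.2.2

private theorem C2_star (hB : Ball B) : Bᴴ * tva B = tvd B * Bᴴ := by
  have h := congrArg conjTranspose (tva_mul hB)
  rw [conjTranspose_mul, conjTranspose_mul] at h
  rwa [(tva_posDef hB).isHermitian.eq, (tvd_posDef hB).isHermitian.eq] at h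

theorem tv_herm (hB : Ball B) : (tv B)ᴴ = tv B := by
  unfold tv
  rw [fromBlocks_conjTranspose, conjTranspose_mul, conjTranspose_mul, conjTranspose_conjTranspose,
    (tva_posDef hB).isHermitian.eq, (tvd_posDef hB).isHermitian.eq, C2_star hB, ← tva_mul hB]

theorem isU_tv (hB : Ball B) : IsU (tv B) := by
  unfold IsU
  rw [tv_herm hB]
  unfold tv JJ
  have h1 : tva B * tva B - tva B * tva B * (B * Bᴴ) = 1 := by
    have := tva_sq hB
    rwa [mul_sub, mul_one] at this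
  have h2 : tvd B * tvd B - tvd B * tvd B * (Bᴴ * B) = 1 := by
    have := tvd_sq hB
    rwa [mul_sub, mul_one] at this
  have h3 := tva_mul hB
  have h4 := C2_star hB
  rw [fromBlocks_multiply, fromBlocks_multiply]
  simp only [Matrix.mul_zero, Matrix.mul_one, add_zero, zero_add, Matrix.mul_neg, Matrix.neg_mul]
  congr 1
  · have e : tva B * B * (tvd B * Bᴴ) = tva B * tva B * (B * Bᴴ) := by
      rw [Matrix.mul_assoc (tva B) B, ← Matrix.mul_assoc B (tvd B), ← h3, Matrix.mul_assoc (tva B) B,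
        ← Matrix.mul_assoc (tva B) (tva B)]
    rw [e, ← h1]
    abel
  · have e : tva B * (tva B * B) = tva B * B * tvd B := by rw [Matrix.mul_assoc (tva B) B, ← h3]
    rw [e]
    abel
  · have e : tvd B * Bᴴ * tva B = tvd B * (tvd B * Bᴴ) := by rw [Matrix.mul_assoc, h4]
    rw [e]
    abel
  · have e : tvd B * Bᴴ * (tva B * B) = tvd B * tvd B * (Bᴴ * B) := by
      rw [Matrix.mul_assoc (tvd B) Bᴴ, ← Matrix.mul_assoc Bᴴ (tva B), h4, Matrix.mul_assoc (tvd B) Bᴴ,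
        ← Matrix.mul_assoc (tvd B) (tvd B)]
    rw [e]
    have : -(1 : Matrix n n ℂ) = -(tvd B * tvd B - tvd B * tvd B * (Bᴴ * B)) := by rw [h2]
    rw [this]
    abel

private theorem C2_a (hB : Ball B) : IsUnit (tva B).det := (isUnit_iff_isUnit_det _).1 (tva_posDef hB).isUnit

private theorem C2_d (hB : Ball B) : IsUnit (tvd B).det := (isUnit_iff_isUnit_det _).1 (tvd_posDef hB).isUnit

private theorem C2_mob (B Z : Matrix m n ℂ) : mob (tv B) Z =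
    (tva B * Z + tva B * B) * (tvd B * Bᴴ * Z + tvd B)⁻¹ := by
  unfold mob tv
  simp only [toBlocks_fromBlocks₁₁, toBlocks_fromBlocks₁₂, toBlocks_fromBlocks₂₁, toBlocks_fromBlocks₂₂]

private theorem C2_den (B Z : Matrix m n ℂ) : tvd B * Bᴴ * Z + tvd B = tvd B * (1 + Bᴴ * Z) := by
  rw [Matrix.mul_add, Matrix.mul_one, Matrix.mul_assoc, add_comm]

theorem mob_tv_zero (hB : Ball B) : mob (tv B) 0 = B := by
  rw [C2_mob, Matrix.mul_zero, Matrix.mul_zero, zero_add, zero_add, tva_mul hB, Matrix.mul_assoc,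
    Matrix.mul_nonsing_inv _ (C2_d hB), Matrix.mul_one]

theorem det_one_add_ne (hB : Ball B) (hZ : Ball Z) : (1 + Bᴴ * Z).det ≠ 0 := by
  have h := (isU_tv hB).det_ne hZ
  unfold tv at h
  simp only [toBlocks_fromBlocks₂₁, toBlocks_fromBlocks₂₂] at h
  rw [C2_den, det_mul] at h
  exact right_ne_zero_of_mul h

theorem mob_tv_eq (hB : Ball B) (hZ : Ball Z) : mob (tv B) Z = tva B * (Z + B) * (1 + Bᴴ * Z)⁻¹ * (tvd B)⁻¹ := by
  rw [C2_mob, C2_den, Matrix.mul_inv_rev, ← Matrix.mul_add, Matrix.mul_assoc (tva B * (Z + B))]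

theorem mob_tv (hB : Ball B) (hZ : Ball Z) : mob (tv B) Z = B + (tva B)⁻¹ * Z * (1 + Bᴴ * Z)⁻¹ * (tvd B)⁻¹ := by
  have h1 : (tva B)⁻¹ = tva B * (1 - B * Bᴴ) := by
    refine inv_eq_right_inv ?_
    rw [← Matrix.mul_assoc]
    exact tva_sq hB
  have h2 : tva B * (Z + B) = (tva B)⁻¹ * Z + tva B * B * (1 + Bᴴ * Z) := by
    rw [h1]
    simp only [Matrix.mul_add, Matrix.mul_sub, Matrix.sub_mul, Matrix.mul_one, Matrix.mul_assoc]
    abel
  have h3 : IsUnit (1 + Bᴴ * Z).det := isUnit_iff_ne_zero.2 (det_one_add_ne hB hZ)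
  rw [mob_tv_eq hB hZ, h2, Matrix.add_mul, Matrix.add_mul, Matrix.mul_assoc (tva B * B),
    Matrix.mul_nonsing_inv _ h3, Matrix.mul_one, tva_mul hB, Matrix.mul_assoc B (tvd B),
    Matrix.mul_nonsing_inv _ (C2_d hB), Matrix.mul_one, add_comm]

theorem mob_tv_inv (hB : Ball B) (hZ : Ball Z) : mob (tv B)⁻¹ Z = - mob (tv B) (-Z) := by
  rw [C2_mob, (isU_tv hB).inv_blocks]
  unfold mob tv
  simp only [toBlocks_fromBlocks₁₁, toBlocks_fromBlocks₁₂, toBlocks_fromBlocks₂₁, toBlocks_fromBlocks₂₂]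
  rw [conjTranspose_mul, conjTranspose_mul, conjTranspose_conjTranspose,
    (tva_posDef hB).isHermitian.eq, (tvd_posDef hB).isHermitian.eq, C2_star hB, ← tva_mul hB,
    Matrix.neg_mul, Matrix.mul_neg, Matrix.mul_neg, ← Matrix.neg_mul (-(tva B * Z) + tva B * B), neg_add, neg_neg]

private theorem C2_comm {k a x : Matrix m m ℂ} (h : a * x = 1) (hk : k * x = x * k) : k * a = a * k := by
  have h' : x * a = 1 := mul_eq_one_comm.1 h
  calc k * a = a * x * (k * a) := by rw [h, one_mul]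
    _ = a * (k * x) * a := by rw [hk]; simp only [mul_assoc]
    _ = a * k * (x * a) := by simp only [mul_assoc]
    _ = a * k := by rw [h', mul_one]

theorem tv_comm (hB : Ball B) {k1 : Matrix m m ℂ} {k2 : Matrix n n ℂ} (h1 : k1ᴴ * k1 = 1) (h2 : k2ᴴ * k2 = 1)
    (h : k1 * B = B * k2) : fromBlocks k1 0 0 k2 * tv B = tv B * fromBlocks k1 0 0 k2 := by
  have h2' : k2 * k2ᴴ = 1 := mul_eq_one_comm.1 h2
  have hs : Bᴴ * k1ᴴ = k2ᴴ * Bᴴ := by
    have := congrArg conjTranspose h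
    rwa [conjTranspose_mul, conjTranspose_mul] at this
  have h3 : k2 * Bᴴ = Bᴴ * k1 := by
    calc k2 * Bᴴ = k2 * Bᴴ * (k1ᴴ * k1) := by rw [h1, Matrix.mul_one]
      _ = k2 * (Bᴴ * k1ᴴ) * k1 := by simp only [Matrix.mul_assoc]
      _ = k2 * k2ᴴ * Bᴴ * k1 := by rw [hs]; simp only [Matrix.mul_assoc]
      _ = Bᴴ * k1 := by rw [h2', Matrix.one_mul]
  have c1 : k1 * (1 - B * Bᴴ) = (1 - B * Bᴴ) * k1 := by
    rw [mul_sub, sub_mul, mul_one, one_mul, ← Matrix.mul_assoc k1, h, Matrix.mul_assoc B k2, h3,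
      ← Matrix.mul_assoc]
  have c2 : k2 * (1 - Bᴴ * B) = (1 - Bᴴ * B) * k2 := by
    rw [mul_sub, sub_mul, mul_one, one_mul, ← Matrix.mul_assoc k2, h3, Matrix.mul_assoc Bᴴ k1, h,
      ← Matrix.mul_assoc]
  have d1 : k1 * tva B = tva B * k1 := commute_of_sq (tva_posDef hB) (C2_comm (tva_sq hB) c1)
  have d2 : k2 * tvd B = tvd B * k2 := commute_of_sq (tvd_posDef hB) (C2_comm (tvd_sq hB) c2)
  unfold tv
  rw [fromBlocks_multiply, fromBlocks_multiply]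
  simp only [Matrix.mul_zero, Matrix.zero_mul, add_zero, zero_add]
  congr 1
  · rw [← Matrix.mul_assoc, d1, Matrix.mul_assoc, h, ← Matrix.mul_assoc]
  · rw [← Matrix.mul_assoc, d2, Matrix.mul_assoc, h3, ← Matrix.mul_assoc]

end Pool.Agent.MP_a98e84_gt.TG
end

section

/-!
# TASK TG B1b: operators which preserve a `J*`-algebra

(`JStar.quasi`) Let `L` be the span of the `Z (Bᴴ Z)ᵏ`, `L ≤ V` by `JStar.zpow`. Right multiplication by `1 + Bᴴ Z` maps `L` to `L` (`Z (Bᴴ Z)ᵏ (1 + Bᴴ Z) = Z (Bᴴ Z)ᵏ + Z (Bᴴ Z)ᵏ⁺¹`) and is injective (the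
determinant is not `0`), so it is surjective on `L` (finite dimension: `LinearMap.injective_iff_surjective`); so `Z = y (1 + Bᴴ Z)` with `y ∈ L`, `y = Z (1 + Bᴴ Z)⁻¹`.
(`JStar.wq`) `quasi` with `Z = W`, `B = -W`. (`JStar.sand`) `(1 - W Wᴴ) y (1 - Wᴴ W) = y - (W Wᴴ y + y Wᴴ W) + W (W yᴴ W)ᴴ W`; `triple`, `aba`.
(`JStar.sandinv`) the map `y ↦ (1 - W Wᴴ) y (1 - Wᴴ W)` of `V` to `V` is linear and injective, so surjective.
(`JStar.sandroot_inv`) Let `a, d` be the positive roots of the inverses. The eigenvalues: `1 - W Wᴴ` and `1 - Wᴴ W` are positive definite (`Ball.flip`); diagonalise `1 - W Wᴴ = R diag(α) Rᴴ`,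
`1 - Wᴴ W = S diag(δ) Sᴴ`. By uniqueness of positive roots (`root_apply` for the columns of `R`, or `commute_of_sq`) `a⁻¹ = R diag(√α) Rᴴ`, `d⁻¹ = S diag(√δ) Sᴴ`. `exists_poly` gives a real polynomial `g` with
`g (α i δ j) = √(α i δ j)` for all `i, j`. The operator `T y = (1 - W Wᴴ) y (1 - Wᴴ W)` satisfies `g (T) y = R ((g (α i δ j)) (Rᴴ y S) i j) Sᴴ = a⁻¹ y d⁻¹`, and `g (T)` preserves `V` since `T` does
(`JStar.sand`). (Another way: on `V` the operator `T` is diagonalisable because it is selfadjoint for `tr (Yᴴ X)`; if `T y = c² y`, `c > 0`, then `a⁻¹ y d⁻¹ = c y`.)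
(`JStar.sandroot`) `y ↦ a⁻¹ y d⁻¹` maps `V` to `V` and is injective, so surjective: `y = a⁻¹ z d⁻¹`, `z = a y d`.
-/

set_option autoImplicit false

namespace Pool.Agent.MP_a98e84_gt.TG

open Matrix
open scoped ComplexOrder

variable {m n : Type*} [Fintype m] [Fintype n] [DecidableEq m] [DecidableEq n]


variable {V : Submodule ℂ (Matrix m n ℂ)} {B W Z y : Matrix m n ℂ}

omit [DecidableEq m] [DecidableEq n] in
private theorem B1b_surj (L : Submodule ℂ (Matrix m n ℂ)) (R : Matrix m n ℂ →ₗ[ℂ] Matrix m n ℂ)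
    (hinj : Function.Injective R) (hL : ∀ y ∈ L, R y ∈ L) {z : Matrix m n ℂ} (hz : z ∈ L) : ∃ y ∈ L, R y = z := by
  have h1 : Function.Injective (R.restrict hL) := by
    intro a b h
    apply Subtype.ext
    apply hinj
    exact congrArg Subtype.val h
  obtain ⟨y, hy⟩ := (LinearMap.injective_iff_surjective.1 h1) ⟨z, hz⟩
  exact ⟨y, y.2, congrArg Subtype.val hy⟩

private def B1b_T (a : Matrix m m ℂ) (d : Matrix n n ℂ) : Matrix m n ℂ →ₗ[ℂ] Matrix m n ℂ where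
  toFun y := a * y * d
  map_add' x y := by rw [Matrix.mul_add, Matrix.add_mul]
  map_smul' c x := by rw [Matrix.mul_smul, Matrix.smul_mul, RingHom.id_apply]

omit [DecidableEq m] [DecidableEq n] in
private theorem B1b_T_apply (a : Matrix m m ℂ) (d : Matrix n n ℂ) (y : Matrix m n ℂ) : B1b_T a d y = a * y * d := rfl

private theorem B1b_cancel {a : Matrix m m ℂ} {d : Matrix n n ℂ} (ha : a.det ≠ 0) (hd : d.det ≠ 0)
    (y : Matrix m n ℂ) : a⁻¹ * (a * y * d) * d⁻¹ = y := by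
  rw [Matrix.mul_assoc a y d, Matrix.nonsing_inv_mul_cancel_left _ _ (isUnit_iff_ne_zero.2 ha),
    Matrix.mul_nonsing_inv_cancel_right _ _ (isUnit_iff_ne_zero.2 hd)]

private theorem B1b_inj {a : Matrix m m ℂ} {d : Matrix n n ℂ} (ha : a.det ≠ 0) (hd : d.det ≠ 0) :
    Function.Injective (B1b_T a d) := by
  intro x y h
  rw [B1b_T_apply, B1b_T_apply] at h
  rw [← B1b_cancel ha hd x, h, B1b_cancel ha hd y]

/-- If `y ↦ a y d` preserves `V` then so does its inverse. -/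
private theorem B1b_back {a : Matrix m m ℂ} {d : Matrix n n ℂ} (ha : a.det ≠ 0) (hd : d.det ≠ 0)
    (h : ∀ y ∈ V, a * y * d ∈ V) (hy : y ∈ V) : a⁻¹ * y * d⁻¹ ∈ V := by
  obtain ⟨z, hz, h1⟩ := B1b_surj V (B1b_T a d) (B1b_inj ha hd) h hy
  rw [B1b_T_apply] at h1
  rw [← h1, B1b_cancel ha hd z]
  exact hz

private theorem B1b_conj_pow {u x : Matrix m m ℂ} (hu : uᴴ * u = 1) (k : ℕ) (hu' : u * uᴴ = 1) :
    (u * x * uᴴ) ^ k = u * x ^ k * uᴴ := by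
  induction k with
  | zero => rw [pow_zero, pow_zero, Matrix.mul_one, hu']
  | succ k ih =>
    rw [pow_succ, ih, pow_succ]
    calc u * x ^ k * uᴴ * (u * x * uᴴ) = u * x ^ k * (uᴴ * u) * x * uᴴ := by simp only [Matrix.mul_assoc]
      _ = u * (x ^ k * x) * uᴴ := by rw [hu, Matrix.mul_one, Matrix.mul_assoc u]

private theorem B1b_diag {a : Matrix m m ℂ} (ha : a.PosDef) : ∃ (u : Matrix m m ℂ) (l : m → ℝ),
    uᴴ * u = 1 ∧ u * uᴴ = 1 ∧ (∀ i, 0 < l i) ∧ a = u * diagonal (fun i => (l i : ℂ)) * uᴴ := by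
  refine ⟨ha.1.eigenvectorUnitary, ha.1.eigenvalues, ?_, ?_, ha.eigenvalues_pos, ?_⟩
  · exact Unitary.coe_star_mul_self ha.1.eigenvectorUnitary
  · exact Unitary.coe_mul_star_self ha.1.eigenvectorUnitary
  · have h := ha.1.spectral_theorem
    rw [Unitary.conjStarAlgAut_apply] at h
    exact h

private theorem B1b_poly {a : Matrix m m ℂ} {d : Matrix n n ℂ} (ha : a.PosDef) (hd : d.PosDef) :
    ∃ g : Polynomial ℝ, ∀ y : Matrix m n ℂ,
      a * y * d = ∑ k ∈ Finset.range (g.natDegree + 1), ((g.coeff k : ℝ) : ℂ) • ((a * a) ^ k * y * (d * d) ^ k) := by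
  classical
  obtain ⟨u, l, hu, hu', hl, rfl⟩ := B1b_diag ha
  obtain ⟨v, r, hv, hv', hr, rfl⟩ := B1b_diag hd
  obtain ⟨g, hg⟩ := exists_poly (fun x => √x) (Finset.univ.image (fun ij : m × n => (l ij.1) ^ 2 * (r ij.2) ^ 2))
  have hg' : ∀ i j, g.eval ((l i) ^ 2 * (r j) ^ 2) = l i * r j := by
    intro i j
    rw [hg _ (Finset.mem_image.2 ⟨(i, j), Finset.mem_univ _, rfl⟩), ← mul_pow, Real.sqrt_sq (mul_pos (hl i) (hr j)).le]
  refine ⟨g, fun y => ?_⟩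
  have e1 : ∀ (w : Matrix m m ℂ) (t : m → ℝ), wᴴ * w = 1 → (w * diagonal (fun i => (t i : ℂ)) * wᴴ) * (w * diagonal (fun i => (t i : ℂ)) * wᴴ) =
      w * diagonal (fun i => ((t i ^ 2 : ℝ) : ℂ)) * wᴴ := by
    intro w t hw
    calc (w * diagonal (fun i => (t i : ℂ)) * wᴴ) * (w * diagonal (fun i => (t i : ℂ)) * wᴴ)
        = w * (diagonal (fun i => (t i : ℂ)) * (wᴴ * w) * diagonal (fun i => (t i : ℂ))) * wᴴ := by simp only [Matrix.mul_assoc]
      _ = w * diagonal (fun i => ((t i ^ 2 : ℝ) : ℂ)) * wᴴ := by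
          rw [hw, Matrix.mul_one, diagonal_mul_diagonal]
          congr 3
          funext i
          push_cast
          ring
  have e2 : ∀ (w : Matrix n n ℂ) (t : n → ℝ), wᴴ * w = 1 → (w * diagonal (fun i => (t i : ℂ)) * wᴴ) * (w * diagonal (fun i => (t i : ℂ)) * wᴴ) =
      w * diagonal (fun i => ((t i ^ 2 : ℝ) : ℂ)) * wᴴ := by
    intro w t hw
    calc (w * diagonal (fun i => (t i : ℂ)) * wᴴ) * (w * diagonal (fun i => (t i : ℂ)) * wᴴ)
        = w * (diagonal (fun i => (t i : ℂ)) * (wᴴ * w) * diagonal (fun i => (t i : ℂ))) * wᴴ := by simp only [Matrix.mul_assoc]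
      _ = w * diagonal (fun i => ((t i ^ 2 : ℝ) : ℂ)) * wᴴ := by
          rw [hw, Matrix.mul_one, diagonal_mul_diagonal]
          congr 3
          funext i
          push_cast
          ring
  rw [e1 u l hu, e2 v r hv]
  have key : ∀ k : ℕ, ((g.coeff k : ℝ) : ℂ) • ((u * diagonal (fun i => ((l i ^ 2 : ℝ) : ℂ)) * uᴴ) ^ k * y * (v * diagonal (fun i => ((r i ^ 2 : ℝ) : ℂ)) * vᴴ) ^ k) =
      u * (((g.coeff k : ℝ) : ℂ) • (diagonal (fun i => ((l i ^ 2 : ℝ) : ℂ)) ^ k * (uᴴ * y * v) * diagonal (fun i => ((r i ^ 2 : ℝ) : ℂ)) ^ k)) * vᴴ := by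
    intro k
    rw [B1b_conj_pow hu k hu', B1b_conj_pow hv k hv', Matrix.mul_smul, Matrix.smul_mul]
    congr 1
    simp only [Matrix.mul_assoc]
  rw [Finset.sum_congr rfl (fun k _ => key k), ← Matrix.sum_mul, ← Matrix.mul_sum]
  have e3 : (∑ k ∈ Finset.range (g.natDegree + 1), ((g.coeff k : ℝ) : ℂ) • (diagonal (fun i => ((l i ^ 2 : ℝ) : ℂ)) ^ k * (uᴴ * y * v) * diagonal (fun i => ((r i ^ 2 : ℝ) : ℂ)) ^ k)) =
      diagonal (fun i => (l i : ℂ)) * (uᴴ * y * v) * diagonal (fun i => (r i : ℂ)) := by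
    ext i j
    rw [Matrix.sum_apply, mul_diagonal, diagonal_mul]
    have h1 := hg' i j
    rw [Polynomial.eval_eq_sum_range] at h1
    have h2 := congrArg (fun x : ℝ => (x : ℂ)) h1
    simp only [Complex.ofReal_sum, Complex.ofReal_mul, Complex.ofReal_pow] at h2
    rw [show (l i : ℂ) * (uᴴ * y * v) i j * (r j : ℂ) = ((l i : ℂ) * (r j : ℂ)) * (uᴴ * y * v) i j by ring, ← h2, Finset.sum_mul]
    refine Finset.sum_congr rfl fun k _ => ?_
    rw [Matrix.smul_apply, diagonal_pow, diagonal_pow, mul_diagonal, diagonal_mul, Pi.pow_apply, Pi.pow_apply, smul_eq_mul, mul_pow]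
    push_cast
    ring
  rw [e3]
  simp only [Matrix.mul_assoc]

theorem JStar.quasi (hV : JStar V) (hZ : Z ∈ V) (hB : B ∈ V) (h : (1 + Bᴴ * Z).det ≠ 0) : Z * (1 + Bᴴ * Z)⁻¹ ∈ V := by
  have hL : Submodule.span ℂ (Set.range fun k : ℕ => Z * (Bᴴ * Z) ^ k) ≤ V := by
    rw [Submodule.span_le]
    rintro _ ⟨k, rfl⟩
    exact hV.zpow hZ hB k
  have h1 : ∀ y ∈ Submodule.span ℂ (Set.range fun k : ℕ => Z * (Bᴴ * Z) ^ k),
      B1b_T (1 : Matrix m m ℂ) (1 + Bᴴ * Z) y ∈ Submodule.span ℂ (Set.range fun k : ℕ => Z * (Bᴴ * Z) ^ k) := by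
    intro y hy
    induction hy using Submodule.span_induction with
    | mem x hx =>
      obtain ⟨k, rfl⟩ := hx
      have e : B1b_T (1 : Matrix m m ℂ) (1 + Bᴴ * Z) (Z * (Bᴴ * Z) ^ k) = Z * (Bᴴ * Z) ^ k + Z * (Bᴴ * Z) ^ (k + 1) := by
        rw [B1b_T_apply, Matrix.one_mul, Matrix.mul_add, Matrix.mul_one, pow_succ, ← Matrix.mul_assoc Z]
      change B1b_T (1 : Matrix m m ℂ) (1 + Bᴴ * Z) (Z * (Bᴴ * Z) ^ k) ∈ _
      rw [e]
      exact Submodule.add_mem _ (Submodule.subset_span ⟨k, rfl⟩) (Submodule.subset_span ⟨k + 1, rfl⟩)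
    | zero => rw [map_zero]; exact Submodule.zero_mem _
    | add x y _ _ hx hy => rw [map_add]; exact Submodule.add_mem _ hx hy
    | smul c x _ hx => rw [map_smul]; exact Submodule.smul_mem _ _ hx
  obtain ⟨y, hy, h2⟩ := B1b_surj _ (B1b_T (1 : Matrix m m ℂ) (1 + Bᴴ * Z))
    (B1b_inj (by rw [det_one]; exact one_ne_zero) h) h1
    (z := Z) (Submodule.subset_span ⟨0, by simp only [pow_zero, Matrix.mul_one]⟩)
  rw [B1b_T_apply, Matrix.one_mul] at h2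
  have h3 : Z * (1 + Bᴴ * Z)⁻¹ = y := by
    conv_lhs => rw [← h2]
    rw [h2]
    nth_rewrite 1 [← h2]
    exact Matrix.mul_nonsing_inv_cancel_right _ _ (isUnit_iff_ne_zero.2 h)
  rw [h3]
  exact hL hy

theorem JStar.wq (hV : JStar V) (hW : W ∈ V) (hb : Ball W) : W * (1 - Wᴴ * W)⁻¹ ∈ V := by
  have h1 : (1 : Matrix n n ℂ) + (-W)ᴴ * W = 1 - Wᴴ * W := by
    rw [conjTranspose_neg, Matrix.neg_mul, sub_eq_add_neg]
  have h2 := hV.quasi hW (V.neg_mem hW) (by rw [h1]; exact hb.det_ne)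
  rw [h1] at h2
  exact h2

theorem JStar.sand (hV : JStar V) (hW : W ∈ V) (hy : y ∈ V) : (1 - W * Wᴴ) * y * (1 - Wᴴ * W) ∈ V := by
  have h1 := hV.triple hW hW hy
  have h2 := hV.aba hW (hV.aba hW hy)
  have e : (1 - W * Wᴴ) * y * (1 - Wᴴ * W) = y - (W * Wᴴ * y + y * Wᴴ * W) + W * (W * yᴴ * W)ᴴ * W := by
    rw [conjTranspose_mul, conjTranspose_mul, conjTranspose_conjTranspose, Matrix.sub_mul, Matrix.one_mul, Matrix.mul_sub,
      Matrix.mul_one, Matrix.sub_mul]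
    simp only [Matrix.mul_assoc]
    abel
  rw [e]
  exact V.add_mem (V.sub_mem hy h1) h2

theorem JStar.sandinv (hV : JStar V) (hW : W ∈ V) (hb : Ball W) (hy : y ∈ V) :
    (1 - W * Wᴴ)⁻¹ * y * (1 - Wᴴ * W)⁻¹ ∈ V := by
  exact B1b_back hb.det_ne' hb.det_ne (fun z hz => hV.sand hW hz) hy

private theorem B1b_root (hV : JStar V) (hW : W ∈ V) (hb : Ball W) {a : Matrix m m ℂ} {d : Matrix n n ℂ} (ha : a.PosDef)
    (hd : d.PosDef) (haa : a * a * (1 - W * Wᴴ) = 1) (hdd : d * d * (1 - Wᴴ * W) = 1) (hy : y ∈ V) :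
    a * y * d ∈ V := by
  have h1 : (1 - W * Wᴴ)⁻¹ = a * a := Matrix.inv_eq_left_inv haa
  have h2 : (1 - Wᴴ * W)⁻¹ = d * d := Matrix.inv_eq_left_inv hdd
  have h3 : ∀ k : ℕ, (a * a) ^ k * y * (d * d) ^ k ∈ V := by
    intro k
    induction k with
    | zero => rw [pow_zero, pow_zero, Matrix.one_mul, Matrix.mul_one]; exact hy
    | succ k ih =>
      have h4 := hV.sandinv hW hb ih
      rw [h1, h2] at h4
      have e : a * a * ((a * a) ^ k * y * (d * d) ^ k) * (d * d) = (a * a) ^ (k + 1) * y * (d * d) ^ (k + 1) := by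
        rw [pow_succ' (a * a), pow_succ (d * d)]
        simp only [Matrix.mul_assoc]
      rw [← e]
      exact h4
  obtain ⟨g, hg⟩ := B1b_poly ha hd
  rw [hg y]
  exact V.sum_mem fun k _ => V.smul_mem _ (h3 k)

theorem JStar.sandroot_inv (hV : JStar V) (hW : W ∈ V) (hb : Ball W) {a : Matrix m m ℂ} {d : Matrix n n ℂ} (ha : a.PosDef)
    (hd : d.PosDef) (haa : a * a * (1 - W * Wᴴ) = 1) (hdd : d * d * (1 - Wᴴ * W) = 1) (hy : y ∈ V) :
    a⁻¹ * y * d⁻¹ ∈ V := by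
  have hda : a.det ≠ 0 := by
    intro h0
    have h1 := congrArg det haa
    rw [det_mul, det_mul, h0, zero_mul, zero_mul, det_one] at h1
    exact zero_ne_one h1
  have hdd' : d.det ≠ 0 := by
    intro h0
    have h1 := congrArg det hdd
    rw [det_mul, det_mul, h0, zero_mul, zero_mul, det_one] at h1
    exact zero_ne_one h1
  exact B1b_back hda hdd' (fun z hz => B1b_root hV hW hb ha hd haa hdd hz) hy

theorem JStar.sandroot (hV : JStar V) (hW : W ∈ V) (hb : Ball W) {a : Matrix m m ℂ} {d : Matrix n n ℂ} (ha : a.PosDef)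
    (hd : d.PosDef) (haa : a * a * (1 - W * Wᴴ) = 1) (hdd : d * d * (1 - Wᴴ * W) = 1) (hy : y ∈ V) :
    a * y * d ∈ V := by
  exact B1b_root hV hW hb ha hd haa hdd hy

end Pool.Agent.MP_a98e84_gt.TG
end
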