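import Pool.Agent.Lib.MP_a98e84_gt.TG.Defs

section

/-!
# TASK TG B4a: elliptic solutions in the unit disc

Let `r = √((|κ| - ω) / (|κ| + ω))`, `0 < r < 1`, `σ = ω` if `κ > 0` and `σ = -ω` if `κ < 0` (`κ ≠ 0`), `w t = r exp (i σ t)`, `w' t = i σ w t`. `w'' = -σ² w`; the equation is
`-σ² = i κ i σ - 2 r² (i σ)² / (1 - r²)`, that is `-ω² = -|κ| ω + 2 ω² r² / (1 - r²)`, that is `|κ| = ω (1 + r²) / (1 - r²)`, which holds for this `r`. (`conj w * w' ^ 2 = r² (i σ)² w`.)
Speed: `ω² r² / (1 - r²)² = ω² ((|κ| - ω) / (|κ| + ω)) ((|κ| + ω) / (2 ω))² = (κ² - ω²) / 4`. Period `2 π / ω` (`Complex.exp_periodic`, or `Complex.exp_two_pi_mul_I`).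
-/

set_option autoImplicit false

namespace Pool.Agent.MP_a98e84_gt.TG

open Matrix
open scoped ComplexOrder

private theorem B4a_deriv (r : ℝ) (c : ℂ) (t : ℝ) :
    HasDerivAt (fun t : ℝ => (r : ℂ) * Complex.exp (c * t)) (c * ((r : ℂ) * Complex.exp (c * t))) t := by
  have h1 : HasDerivAt (fun z : ℂ => Complex.exp (c * z)) (Complex.exp (c * t) * (c * 1)) (t : ℂ) :=
    ((hasDerivAt_id (t : ℂ)).const_mul c).cexp
  have h2 := (h1.comp_ofReal).const_mul (r : ℂ)
  refine h2.congr_deriv ?_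
  ring

private theorem B4a_norm (r σ : ℝ) (hr : 0 ≤ r) (t : ℝ) :
    ‖(r : ℂ) * Complex.exp (Complex.I * σ * t)‖ = r := by
  rw [norm_mul, Complex.norm_exp, Complex.norm_real, Real.norm_of_nonneg hr]
  have h1 : (Complex.I * σ * t).re = 0 := by simp
  rw [h1, Real.exp_zero, mul_one]

theorem disc_ell {κ ω : ℝ} (hω : 0 < ω) (h : ω < |κ|) :
    ∃ w w' : ℝ → ℂ, DiscOde κ w w' ∧ (∀ t, w (t + 2 * Real.pi / ω) = w t) ∧
      ∀ t, ‖w' t‖ ^ 2 / (1 - ‖w t‖ ^ 2) ^ 2 = (κ ^ 2 - ω ^ 2) / 4 := by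
  obtain ⟨ε, hε, hκ⟩ : ∃ ε : ℝ, (ε = 1 ∨ ε = -1) ∧ κ = ε * |κ| := by
    rcases le_total 0 κ with h0 | h0
    · exact ⟨1, Or.inl rfl, by rw [abs_of_nonneg h0, one_mul]⟩
    · exact ⟨-1, Or.inr rfl, by rw [abs_of_nonpos h0]; ring⟩
  have hε2 : ε ^ 2 = 1 := by rcases hε with rfl | rfl <;> norm_num
  set K : ℝ := |κ| with hK
  have hK0 : 0 < K := hω.trans h
  have hKκ : K ^ 2 = κ ^ 2 := by rw [hK, sq_abs]
  have hpos : 0 < K + ω := by linarith
  set r : ℝ := Real.sqrt ((K - ω) / (K + ω)) with hr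
  have hr0 : 0 ≤ r := Real.sqrt_nonneg _
  have hr2 : r ^ 2 = (K - ω) / (K + ω) :=
    Real.sq_sqrt (div_nonneg (by linarith) hpos.le)
  have h1r : 1 - r ^ 2 = 2 * ω / (K + ω) := by
    rw [hr2]
    field_simp
    ring
  have h1rp : 0 < 1 - r ^ 2 := by rw [h1r]; positivity
  have hr1 : r < 1 := by nlinarith
  have hrel : K * (1 - r ^ 2) = ω * (1 + r ^ 2) := by
    rw [hr2]
    field_simp
    ring
  set σ : ℝ := ε * ω with hσ
  have hσ2 : σ ^ 2 = ω ^ 2 := by rw [hσ, mul_pow, hε2, one_mul]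
  have hκσ : κ * σ = K * ω := by
    have h2 : κ * σ = ε ^ 2 * (K * ω) := by rw [hσ, hκ]; ring
    rw [h2, hε2, one_mul]
  set c : ℂ := Complex.I * σ with hc
  have hcc : c ^ 2 = -((ω ^ 2 : ℝ) : ℂ) := by
    rw [hc, mul_pow, Complex.I_sq, ← hσ2]
    push_cast
    ring
  have hcn : ‖c‖ = ω := by
    rw [hc, norm_mul, Complex.norm_I, one_mul, Complex.norm_real, Real.norm_eq_abs, hσ, abs_mul,
      abs_of_pos hω]
    rcases hε with h3 | h3 <;> rw [h3] <;> simp
  have hn : ∀ t : ℝ, ‖(r : ℂ) * Complex.exp (c * t)‖ = r := fun t => B4a_norm r σ hr0 t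
  refine ⟨fun t => (r : ℂ) * Complex.exp (c * t), fun t => c * ((r : ℂ) * Complex.exp (c * t)),
    ⟨fun t => ?_, fun t => B4a_deriv r c t, fun t => ?_⟩, fun t => ?_, fun t => ?_⟩
  · show ‖(r : ℂ) * Complex.exp (c * t)‖ < 1
    rw [hn]
    exact hr1
  · refine ((B4a_deriv r c t).const_mul c).congr_deriv ?_
    rw [hn]
    set z : ℂ := (r : ℂ) * Complex.exp (c * t) with hz
    have hzz : (starRingEnd ℂ) z * z = ((r ^ 2 : ℝ) : ℂ) := by
      rw [mul_comm, Complex.mul_conj, Complex.normSq_eq_norm_sq, hn t]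
    have hne : ((1 - r ^ 2 : ℝ) : ℂ) ≠ 0 := by
      exact_mod_cast h1rp.ne'
    have h4 : 2 * (starRingEnd ℂ) z * (c * z) ^ 2 = 2 * c ^ 2 * ((r ^ 2 : ℝ) : ℂ) * z := by
      rw [← hzz]
      ring
    rw [h4]
    have h5 : (κ : ℂ) * Complex.I * (c * z) = -((K * ω : ℝ) : ℂ) * z := by
      have h6 : (κ : ℂ) * Complex.I * c = -((κ * σ : ℝ) : ℂ) := by
        rw [hc]
        push_cast
        linear_combination (κ : ℂ) * σ * Complex.I_sq
      rw [← mul_assoc, h6, hκσ]
    rw [h5]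
    have h7 : c ^ 2 * z = -((K * ω : ℝ) : ℂ) * z -
        2 * c ^ 2 * ((r ^ 2 : ℝ) : ℂ) * z / ((1 - r ^ 2 : ℝ) : ℂ) := by
      rw [eq_sub_iff_add_eq, ← eq_sub_iff_add_eq', div_eq_iff hne]
      have h8 : (K : ℂ) * (1 - (r : ℂ) ^ 2) = ω * (1 + (r : ℂ) ^ 2) := by exact_mod_cast hrel
      rw [hcc]
      push_cast
      linear_combination (ω : ℂ) * z * h8
    calc c * (c * z) = c ^ 2 * z := by ring
      _ = _ := h7
  · show (r : ℂ) * Complex.exp (c * ((t + 2 * Real.pi / ω : ℝ) : ℂ)) = (r : ℂ) * Complex.exp (c * t)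
    have hω' : (ω : ℂ) ≠ 0 := by exact_mod_cast hω.ne'
    have h9 : c * ((t + 2 * Real.pi / ω : ℝ) : ℂ) = c * t + (ε : ℂ) * (2 * Real.pi * Complex.I) := by
      rw [hc, hσ]
      push_cast
      field_simp
    rw [h9]
    rcases hε with h3 | h3
    · rw [h3]
      push_cast
      rw [one_mul, Complex.exp_periodic (c * t)]
    · rw [h3]
      push_cast
      have h10 : c * (t : ℂ) + -1 * (2 * Real.pi * Complex.I) = c * t - 2 * Real.pi * Complex.I := by
        ring
      rw [h10, Complex.exp_periodic.sub_eq (c * t)]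
  · show ‖c * ((r : ℂ) * Complex.exp (c * t))‖ ^ 2 / (1 - ‖(r : ℂ) * Complex.exp (c * t)‖ ^ 2) ^ 2 = _
    rw [norm_mul, hn, hcn, h1r, mul_pow, hr2, ← hKκ]
    field_simp
    ring

end Pool.Agent.MP_a98e84_gt.TG
end

section

/-!
# TASK TG F0: one-parameter groups of matrices

`E t = NormedSpace.exp (t • ξ)` (use a local normed algebra structure on matrices: `open scoped Matrix.Norms.Operator` or `attribute [local instance] Matrix.linftyOpNormedRing Matrix.linftyOpNormedAlgebra`). `zero`: `NormedSpace.exp_zero`; `add`: `NormedSpace.exp_add_of_commute`;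
`der`: `hasDerivAt_exp_smul_const` and the entries of a matrix are continuous linear functions; `comm`: `Commute.exp_right`. (`eig`) both sides solve `y' = c y`; or: `exp (t ξ) v` is the sum of the series `∑ tᵏ ξᵏ v / k! = ∑ (t c)ᵏ / k! v`; or:
the derivative of `exp (-t c) • (E t *ᵥ v)` is `0` (it is `-c exp(-tc) E v + exp (-tc) E ξ v`), so it is constant (`is_const_of_deriv_eq_zero`), equal to `v`. (`nil`) the derivative of `E t *ᵥ v` is `E t *ᵥ (ξ v)`, and the derivative of `E t *ᵥ (ξ v)` is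
`E t *ᵥ (ξ (ξ v)) = 0`, so `E t *ᵥ (ξ v) = ξ v`, and `E t *ᵥ v - t • ξ v` is constant.
-/

set_option autoImplicit false

namespace Pool.Agent.MP_a98e84_gt.TG

open Matrix
open scoped ComplexOrder

attribute [local instance] Matrix.linftyOpNormedRing Matrix.linftyOpNormedAlgebra

theorem exists_flow {ν : Type*} [Fintype ν] [DecidableEq ν] (ξ : Matrix ν ν ℂ) : ∃ E : ℝ → Matrix ν ν ℂ, IsFlow ξ E := by
  have hder : ∀ t : ℝ, HasDerivAt (fun u : ℝ => NormedSpace.exp (u • ξ)) (NormedSpace.exp (t • ξ) * ξ) t :=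
    fun t => hasDerivAt_exp_smul_const ξ t
  have h0 : NormedSpace.exp ((0 : ℝ) • ξ) = (1 : Matrix ν ν ℂ) := by
    rw [zero_smul, NormedSpace.exp_zero]
  have hL : ∀ (v : ν → ℂ) (t : ℝ), HasDerivAt (fun u : ℝ => NormedSpace.exp (u • ξ) *ᵥ v)
      (NormedSpace.exp (t • ξ) *ᵥ (ξ *ᵥ v)) t := by
    intro v t
    have := ((LinearMap.toContinuousLinearMap
      ({ toFun := fun M => M *ᵥ v
         map_add' := fun M N => add_mulVec M N v
         map_smul' := fun r M => smul_mulVec r M v } :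
        Matrix ν ν ℂ →ₗ[ℝ] (ν → ℂ))).hasFDerivAt.comp_hasDerivAt t (hder t))
    rw [mulVec_mulVec]
    exact this
  refine ⟨fun t => NormedSpace.exp (t • ξ), h0, ?_, ?_, ?_, ?_, ?_⟩
  · intro s t
    have hc : Commute (s • ξ) (t • ξ) := (Commute.refl ξ).smul_left s |>.smul_right t
    show NormedSpace.exp ((s + t) • ξ) = _
    rw [add_smul]
    exact NormedSpace.exp_add_of_commute hc
  · intro t i j
    exact ((LinearMap.toContinuousLinearMap (Matrix.entryLinearMap ℝ ℂ i j)).hasFDerivAt.comp_hasDerivAt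
      t (hder t))
  · intro k hk t
    have hc : Commute k (t • ξ) := Commute.smul_right hk t
    exact hc.exp_right
  · intro v c hv t
    have hd : ∀ t : ℝ, HasDerivAt (fun u : ℝ => Complex.exp (-((u : ℂ) * c)) •
        (NormedSpace.exp (u • ξ) *ᵥ v)) 0 t := by
      intro t
      have h1 : HasDerivAt (fun u : ℝ => Complex.exp (-((u : ℂ) * c)))
          (Complex.exp (-((t : ℂ) * c)) * (-(1 * c))) t := by
        have := ((Complex.ofRealCLM.hasDerivAt (x := t)).mul_const c).neg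
        exact this.cexp
      have h2 := h1.smul (hL v t)
      refine h2.congr_deriv ?_
      rw [hv, mulVec_smul, smul_smul, ← add_smul]
      rw [show Complex.exp (-(↑t * c)) * c + Complex.exp (-(↑t * c)) * -(1 * c) = 0 by ring,
        zero_smul]
    have hcst := is_const_of_deriv_eq_zero (fun t => (hd t).differentiableAt)
      (fun t => (hd t).deriv) t 0
    simp only [h0, one_mulVec, Complex.ofReal_zero, zero_mul, neg_zero, Complex.exp_zero,
      one_smul] at hcst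
    have e2 := congrArg (fun w => Complex.exp ((t : ℂ) * c) • w) hcst
    simp only [smul_smul, ← Complex.exp_add, add_neg_cancel, Complex.exp_zero, one_smul] at e2
    exact e2
  · intro v hv t
    have e1 : ∀ t : ℝ, NormedSpace.exp (t • ξ) *ᵥ (ξ *ᵥ v) = ξ *ᵥ v := by
      intro t
      have hd : ∀ t : ℝ, HasDerivAt (fun u : ℝ => NormedSpace.exp (u • ξ) *ᵥ (ξ *ᵥ v)) 0 t := by
        intro t
        have := hL (ξ *ᵥ v) t
        rwa [hv, mulVec_zero] at this
      have hcst := is_const_of_deriv_eq_zero (fun t => (hd t).differentiableAt)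
        (fun t => (hd t).deriv) t 0
      simp only [h0, one_mulVec] at hcst
      exact hcst
    have hd : ∀ t : ℝ, HasDerivAt (fun u : ℝ => NormedSpace.exp (u • ξ) *ᵥ v -
        (u : ℂ) • (ξ *ᵥ v)) 0 t := by
      intro t
      have h1 := (Complex.ofRealCLM.hasDerivAt (x := t)).smul_const (ξ *ᵥ v)
      have h2 := (hL v t).sub h1
      refine h2.congr_deriv ?_
      rw [e1, Complex.ofRealCLM_apply, Complex.ofReal_one, one_smul, sub_self]
    have hcst := is_const_of_deriv_eq_zero (fun t => (hd t).differentiableAt)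
      (fun t => (hd t).deriv) t 0
    simp only [Complex.ofReal_zero, zero_smul, sub_zero, NormedSpace.exp_zero, one_mulVec] at hcst
    exact sub_eq_iff_eq_add.1 hcst

end Pool.Agent.MP_a98e84_gt.TG
end
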