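import Pool.Agent.Lib.MP_a98e84_gt.Mg.G001
import Pool.Agent.Lib.MP_a98e84_gt.TG.B5
import Pool.Agent.Lib.MP_a98e84_gt.TG.A3
import Pool.Agent.Lib.MP_a98e84_gt.TG.B3b
import Pool.Agent.Lib.MP_a98e84_gt.Mg.G006
import Pool.Agent.Lib.MP_a98e84_gt.TG.A0

section

/-!
# TASK TG T1: topology of the ball

The topology of matrices is the product topology. (`isOpen_ball`) By `ball_iff` and homogeneity `Ball W` iff `∑ ‖(W *ᵥ v) i‖ ^ 2 < 1` for all `v` of the (compact) unit sphere `∑ ‖v j‖ ^ 2 = 1`; the function of `(W, v)` is continuous, so the set of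
the `W` is open (`IsCompact.eventually_forall_of_forall_eventually`, or `generalized_tube_lemma`). (If `n` is empty every `W` is in the ball.) Another way: the entries of `W` and Hermitian matrices: the set of the positive definite matrices is open in the
Hermitian ones.
(`isCompact_cball`) closed (`PosSemidef` is `IsHermitian` and `0 ≤ re (vᴴ A v)`: closed conditions; the equality of the imaginary part to `0` is automatic) and bounded (`v = e_j`: `∑ i, ‖W i j‖ ^ 2 ≤ 1`), in the finite dimensional space of matrices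
(`m → n → ℂ` is a proper space). (`ball_of_det`) a positive semidefinite matrix with nonzero determinant is positive definite (`Matrix.PosSemidef.posDef_iff_isUnit`, or the eigenvalues). (`det_cross_ne`) if
`v = Wᴴ Z v`, `v ≠ 0`, then `|v|² = ⟨W v, Z v⟩ ≤ |W v| |Z v| < |v| |v|`. (`continuousOn_mob`) entries of the inverse: `A⁻¹ = (det A)⁻¹ • adjugate A`, `IsU.det_ne`. (`continuousOn_dd`) the same.
-/

set_option autoImplicit false

namespace Pool.Agent.MP_a98e84_gt.TG

open Matrix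
open scoped ComplexOrder

variable {m n : Type*} [Fintype m] [Fintype n] [DecidableEq m] [DecidableEq n]


omit [DecidableEq m] [DecidableEq n] in
private theorem T1_dot_self {k : Type*} [Fintype k] (w : k → ℂ) : star w ⬝ᵥ w = ((∑ i, ‖w i‖ ^ 2 : ℝ) : ℂ) := by
  simp only [dotProduct, Pi.star_apply, Complex.ofReal_sum]
  refine Finset.sum_congr rfl fun i _ => ?_
  have := Complex.conj_mul' (w i)
  rw [Complex.ofReal_pow]
  exact this

omit [DecidableEq m] in
private theorem T1_form (W : Matrix m n ℂ) (v : n → ℂ) :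
    star v ⬝ᵥ (1 - Wᴴ * W) *ᵥ v = ((∑ j, ‖v j‖ ^ 2 - ∑ i, ‖(W *ᵥ v) i‖ ^ 2 : ℝ) : ℂ) := by
  have h2 : star v ⬝ᵥ (Wᴴ * W) *ᵥ v = star (W *ᵥ v) ⬝ᵥ (W *ᵥ v) := by
    rw [← mulVec_mulVec, dotProduct_mulVec, star_mulVec]
  rw [sub_mulVec, one_mulVec, dotProduct_sub, h2, T1_dot_self, T1_dot_self, Complex.ofReal_sub]

omit [DecidableEq m] [Fintype n] in
private theorem T1_herm (W : Matrix m n ℂ) : (1 - Wᴴ * W).IsHermitian :=
  isHermitian_one.sub (isHermitian_conjTranspose_mul_self W)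

omit [DecidableEq m] in
private theorem T1_semi_iff (W : Matrix m n ℂ) :
    (1 - Wᴴ * W).PosSemidef ↔ ∀ v : n → ℂ, ∑ i, ‖(W *ᵥ v) i‖ ^ 2 ≤ ∑ j, ‖v j‖ ^ 2 := by
  rw [posSemidef_iff_dotProduct_mulVec]
  constructor
  · rintro ⟨-, h⟩ v
    have := h v
    rw [T1_form, Complex.zero_le_real] at this
    linarith
  · intro h
    refine ⟨T1_herm W, fun v => ?_⟩
    rw [T1_form, Complex.zero_le_real]
    linarith [h v]

omit [DecidableEq m] [DecidableEq n] in
private theorem T1_cont : Continuous fun z : Matrix m n ℂ × (n → ℂ) => ∑ i, ‖(z.1 *ᵥ z.2) i‖ ^ 2 := by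
  refine continuous_finsetSum _ fun i _ => ?_
  refine Continuous.pow (Continuous.norm ?_) 2
  exact (continuous_apply i).comp (continuous_fst.matrix_mulVec continuous_snd)

omit [DecidableEq m] [DecidableEq n] in
private theorem T1_nsq_pos {k : Type*} [Fintype k] {v : k → ℂ} (hv : v ≠ 0) : 0 < ∑ j, ‖v j‖ ^ 2 := by
  obtain ⟨j, hj⟩ := Function.ne_iff.mp hv
  refine Finset.sum_pos' (fun i _ => by positivity) ⟨j, Finset.mem_univ j, ?_⟩
  have : ‖v j‖ ≠ 0 := norm_ne_zero_iff.mpr hj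
  positivity

omit [DecidableEq m] [DecidableEq n] in
private theorem T1_smul {k : Type*} [Fintype k] (c : ℂ) (v : k → ℂ) :
    ∑ j, ‖(c • v) j‖ ^ 2 = ‖c‖ ^ 2 * ∑ j, ‖v j‖ ^ 2 := by
  rw [Finset.mul_sum]
  refine Finset.sum_congr rfl fun j _ => ?_
  rw [Pi.smul_apply, smul_eq_mul, norm_mul, mul_pow]

omit [DecidableEq n] in
private theorem T1_sphere : IsCompact {v : n → ℂ | ∑ j, ‖v j‖ ^ 2 = 1} := by
  refine IsCompact.of_isClosed_subset (isCompact_closedBall (0 : n → ℂ) 1) ?_ ?_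
  · refine isClosed_eq (continuous_finsetSum _ fun j _ => ?_) continuous_const
    exact (continuous_apply j).norm.pow 2
  · intro v hv
    rw [mem_closedBall_zero_iff, pi_norm_le_iff_of_nonneg zero_le_one]
    intro j
    have h1 : ‖v j‖ ^ 2 ≤ 1 := by
      have h2 : ∑ j, ‖v j‖ ^ 2 = 1 := hv
      rw [← h2]
      exact Finset.single_le_sum (f := fun j => ‖v j‖ ^ 2) (fun i _ => by positivity) (Finset.mem_univ j)
    exact (sq_le_one_iff₀ (norm_nonneg _)).mp h1

private theorem T1_ball_iff (W : Matrix m n ℂ) :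
    Ball W ↔ ∀ v ∈ {v : n → ℂ | ∑ j, ‖v j‖ ^ 2 = 1}, ∑ i, ‖(W *ᵥ v) i‖ ^ 2 < 1 := by
  rw [ball_iff]
  constructor
  · intro h v hv
    have hv' : ∑ j, ‖v j‖ ^ 2 = 1 := hv
    have hv0 : v ≠ 0 := by
      rintro rfl
      simp at hv'
    have := h v hv0
    rwa [hv'] at this
  · intro h v hv
    have hN := T1_nsq_pos hv
    set N := ∑ j, ‖v j‖ ^ 2 with hNdef
    set c : ℂ := (((Real.sqrt N)⁻¹ : ℝ) : ℂ) with hc
    have hs : 0 < Real.sqrt N := Real.sqrt_pos.mpr hN
    have hcn : ‖c‖ ^ 2 = N⁻¹ := by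
      rw [hc, Complex.norm_real, Real.norm_eq_abs, sq_abs, inv_pow, Real.sq_sqrt hN.le]
    have h1 : ∑ j, ‖(c • v) j‖ ^ 2 = 1 := by
      rw [T1_smul, hcn, ← hNdef]
      exact inv_mul_cancel₀ hN.ne'
    have h2 := h (c • v) h1
    rw [mulVec_smul, T1_smul, hcn] at h2
    rw [inv_mul_lt_iff₀ hN, mul_one] at h2
    exact h2

private theorem T1_cauchy {k : Type*} [Fintype k] (x y : k → ℂ) :
    ‖star x ⬝ᵥ y‖ ^ 2 ≤ (∑ i, ‖x i‖ ^ 2) * ∑ i, ‖y i‖ ^ 2 := by
  have h1 : ‖star x ⬝ᵥ y‖ ≤ ∑ i, ‖x i‖ * ‖y i‖ := by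
    refine (norm_sum_le _ _).trans (Finset.sum_le_sum fun i _ => ?_)
    rw [norm_mul, Pi.star_apply, norm_star]
  calc ‖star x ⬝ᵥ y‖ ^ 2 ≤ (∑ i, ‖x i‖ * ‖y i‖) ^ 2 := pow_le_pow_left₀ (norm_nonneg _) h1 2
    _ ≤ _ := Finset.sum_mul_sq_le_sq_mul_sq _ _ _

omit [Fintype m] [Fintype n] [DecidableEq m] in
private theorem T1_inv {X : Type*} [TopologicalSpace X] [Fintype n] {F : X → Matrix n n ℂ} {S : Set X}
    (hF : Continuous F) (hd : ∀ x ∈ S, (F x).det ≠ 0) : ContinuousOn (fun x => (F x)⁻¹) S := by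
  have h1 : (fun x => (F x)⁻¹) = fun x => ((F x).det)⁻¹ • (F x).adjugate := by
    funext x
    rw [Matrix.inv_def, Ring.inverse_eq_inv']
  rw [h1]
  exact (hF.matrix_det.continuousOn.inv₀ hd).smul hF.matrix_adjugate.continuousOn

omit [Fintype m] [DecidableEq m] [DecidableEq n] in
private theorem T1_mulOn {X : Type*} [TopologicalSpace X] {F : X → Matrix m n ℂ} {K : X → Matrix n n ℂ} {S : Set X}
    (hF : ContinuousOn F S) (hK : ContinuousOn K S) : ContinuousOn (fun x => F x * K x) S := by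
  rw [continuousOn_iff_continuous_domRestrict] at hF hK ⊢
  exact hF.matrix_mul hK

theorem isOpen_ball : IsOpen {W : Matrix m n ℂ | Ball W} := by
  rw [isOpen_iff_mem_nhds]
  intro W0 hW0
  have h0 := (T1_ball_iff W0).mp hW0
  have h1 := T1_sphere (n := n) |>.eventually_forall_of_forall_eventually
    (P := fun (W : Matrix m n ℂ) (v : n → ℂ) => ∑ i, ‖(W *ᵥ v) i‖ ^ 2 < 1) (x₀ := W0) (by
      intro v hv
      exact (T1_cont (m := m) (n := n)).continuousAt.eventually_lt continuousAt_const (h0 v hv))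
  filter_upwards [h1] with W hW
  exact (T1_ball_iff W).mpr hW

theorem isCompact_cball : IsCompact {W : Matrix m n ℂ | (1 - Wᴴ * W).PosSemidef} := by
  have hK : IsCompact (Set.pi Set.univ fun _ : m => Set.pi Set.univ fun _ : n => Metric.closedBall (0 : ℂ) 1) :=
    isCompact_univ_pi fun _ => isCompact_univ_pi fun _ => isCompact_closedBall _ _
  refine IsCompact.of_isClosed_subset (X := Matrix m n ℂ) hK ?_ ?_
  · have h1 : {W : Matrix m n ℂ | (1 - Wᴴ * W).PosSemidef} =
        ⋂ v : n → ℂ, {W : Matrix m n ℂ | ∑ i, ‖(W *ᵥ v) i‖ ^ 2 ≤ ∑ j, ‖v j‖ ^ 2} := by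
      ext W
      rw [Set.mem_iInter]
      exact T1_semi_iff W
    rw [h1]
    refine isClosed_iInter fun v => isClosed_le ?_ continuous_const
    refine continuous_finsetSum _ fun i _ => Continuous.pow (Continuous.norm ?_) 2
    exact (continuous_apply i).comp (continuous_id.matrix_mulVec continuous_const)
  · intro W hW
    have hW' := (T1_semi_iff W).mp hW
    intro i _ j _
    rw [mem_closedBall_zero_iff]
    have h1 := hW' (Pi.single j 1)
    have h2 : ∑ l, ‖(Pi.single j 1 : n → ℂ) l‖ ^ 2 = 1 := by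
      rw [Finset.sum_eq_single j]
      · simp
      · intro l _ hl
        simp [hl]
      · intro h
        exact absurd (Finset.mem_univ j) h
    rw [h2, mulVec_single_one] at h1
    have h3 : ‖W i j‖ ^ 2 ≤ 1 :=
      (Finset.single_le_sum (f := fun i => ‖W.col j i‖ ^ 2) (fun i _ => by positivity) (Finset.mem_univ i)).trans h1
    exact (sq_le_one_iff₀ (norm_nonneg _)).mp h3

theorem ball_of_det {W : Matrix m n ℂ} (h : (1 - Wᴴ * W).PosSemidef) (hd : (1 - Wᴴ * W).det ≠ 0) : Ball W :=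
  h.posDef_iff_isUnit.mpr ((Matrix.isUnit_iff_isUnit_det _).mpr (isUnit_iff_ne_zero.mpr hd))

theorem det_cross_ne {W Z : Matrix m n ℂ} (hW : Ball W) (hZ : (1 - Zᴴ * Z).PosSemidef) : (1 - Wᴴ * Z).det ≠ 0 := by
  intro hdet
  obtain ⟨v, hv, hv0⟩ := Matrix.exists_mulVec_eq_zero_iff.mpr hdet
  have hN := T1_nsq_pos hv
  have h1 : v = Wᴴ *ᵥ (Z *ᵥ v) := by
    rw [sub_mulVec, one_mulVec, sub_eq_zero, ← mulVec_mulVec] at hv0
    exact hv0
  have h2 : star v ⬝ᵥ v = star (W *ᵥ v) ⬝ᵥ (Z *ᵥ v) := by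
    rw [star_mulVec, ← dotProduct_mulVec, ← h1]
  have h3 := T1_cauchy (W *ᵥ v) (Z *ᵥ v)
  rw [← h2, T1_dot_self, Complex.norm_real, Real.norm_eq_abs, sq_abs] at h3
  have h4 := ball_iff.mp hW v hv
  have h5 := (T1_semi_iff Z).mp hZ v
  have h6 : 0 ≤ ∑ i, ‖(W *ᵥ v) i‖ ^ 2 := Finset.sum_nonneg fun i _ => by positivity
  nlinarith

theorem continuousOn_mob {G : Matrix (m ⊕ n) (m ⊕ n) ℂ} (hG : IsU G) : ContinuousOn (mob G) {W | Ball W} := by
  have h1 : Continuous fun W : Matrix m n ℂ => G.toBlocks₁₁ * W + G.toBlocks₁₂ :=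
    (continuous_const.matrix_mul continuous_id).add continuous_const
  have h2 : Continuous fun W : Matrix m n ℂ => G.toBlocks₂₁ * W + G.toBlocks₂₂ :=
    (continuous_const.matrix_mul continuous_id).add continuous_const
  have h3 : ContinuousOn (fun W : Matrix m n ℂ => (G.toBlocks₂₁ * W + G.toBlocks₂₂)⁻¹) {W | Ball W} :=
    T1_inv h2 fun W hW => hG.det_ne hW
  exact T1_mulOn h1.continuousOn h3

theorem continuousOn_dd :
    ContinuousOn (fun z : Matrix m n ℂ × Matrix m n ℂ => dd z.1 z.2) ({W | Ball W} ×ˢ {W | Ball W}) := by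
  have hc : ∀ f g : Matrix m n ℂ × Matrix m n ℂ → Matrix m n ℂ, Continuous f → Continuous g →
      Continuous fun z => ‖(1 - (f z)ᴴ * g z).det‖ := by
    intro f g hf hg
    exact (continuous_const.sub (hf.matrix_conjTranspose.matrix_mul hg)).matrix_det.norm
  refine ContinuousOn.div ((hc _ _ continuous_fst continuous_snd).pow 2).continuousOn
    ((hc _ _ continuous_fst continuous_fst).mul (hc _ _ continuous_snd continuous_snd)).continuousOn ?_
  rintro ⟨W, Z⟩ ⟨hW, hZ⟩
  have hW' : Ball W := hW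
  have hZ' : Ball Z := hZ
  exact mul_ne_zero (norm_ne_zero_iff.mpr hW'.det_ne) (norm_ne_zero_iff.mpr hZ'.det_ne)

end Pool.Agent.MP_a98e84_gt.TG
end

section

/-!
# TASK TG D3: a compact set which meets all orbits

(`continuous_smul_dom`) `continuousOn_mob` in each coordinate (`Continuous.subtype_mk`, `continuous_pi`). (`locallyCompact_dom`) `dom V` is the intersection of the closed set `{W | ∀ i, W i ∈ V i}` (a finite dimensional subspace is closed:
`Submodule.closed_of_finiteDimensional`) and an open set (`isOpen_ball`, finite intersection), so it is locally closed in a locally compact space (`IsLocallyClosed.locallyCompactSpace`).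
(`exists_compact_dom`) The quotient map `dom V → Quotient (MulAction.orbitRel Γ (dom V))` is open (`isOpenMap_quotient_mk'_mul`, needs `ContinuousConstSMul Γ (dom V)`: use `have : ContinuousConstSMul .. := ⟨..⟩`); every point has a compact
neighbourhood, the images of the interiors cover the compact quotient; take a finite subcover; `K` is the finite union of the compact neighbourhoods. Two points with the same image are in the same orbit (`Quotient.exact`, `MulAction.orbitRel_apply`).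
-/

set_option autoImplicit false

namespace Pool.Agent.MP_a98e84_gt.TG

open Matrix
open scoped ComplexOrder

variable {ι : Type} [Fintype ι] {p q : ι → ℕ}


theorem continuous_smul_dom (V : ∀ i, Submodule ℂ (Matrix (Fin (p i)) (Fin (q i)) ℂ)) {Γ : Type} [Group Γ]
    [MulAction Γ (dom V)] (hact : ∀ γ : Γ, ∃ G, Lifts V γ G) (γ : Γ) : Continuous fun W : dom V => γ • W := by
  obtain ⟨G, hG, hG'⟩ := hact γ
  refine continuous_induced_rng.2 ?_
  refine continuous_pi fun i => ?_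
  have h1 : (fun W : dom V => ((Subtype.val ∘ fun W : dom V => γ • W) W) i) =
      fun W : dom V => mob (G i) ((W : EE p q) i) := by
    funext W
    exact hG' W i
  rw [h1]
  exact (continuousOn_mob (hG i)).comp_continuous
    ((continuous_apply i).comp continuous_subtype_val) fun W => (W.2 i).2

theorem locallyCompact_dom (V : ∀ i, Submodule ℂ (Matrix (Fin (p i)) (Fin (q i)) ℂ)) : LocallyCompactSpace (dom V) := by
  have h0 : LocallyCompactSpace (EE p q) :=
    inferInstanceAs (LocallyCompactSpace (∀ i, Fin (p i) → Fin (q i) → ℂ))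
  have h1 : dom V = (⋂ i, {W : EE p q | W i ∈ V i}) ∩ ⋂ i, {W : EE p q | Ball (W i)} := by
    ext W
    simp only [dom, Set.mem_ofPred_eq, Set.mem_inter_iff, Set.mem_iInter]
    exact forall_and
  have h2 : IsClosed (⋂ i, {W : EE p q | W i ∈ V i}) := by
    refine isClosed_iInter fun i => ?_
    exact (Submodule.closed_of_finiteDimensional (V i)).preimage (continuous_apply i)
  have h3 : IsOpen (⋂ i, {W : EE p q | Ball (W i)}) := by
    refine isOpen_iInter_of_finite fun i => ?_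
    have h5 : Continuous fun W : EE p q => W i := continuous_apply i
    have h6 : IsOpen {W : Matrix (Fin (p i)) (Fin (q i)) ℂ | Ball W} := isOpen_ball
    exact h6.preimage h5
  have h4 : IsLocallyClosed (dom V) := by
    rw [h1]
    exact h2.isLocallyClosed.inter h3.isLocallyClosed
  exact h4.locallyCompactSpace

theorem exists_compact_dom (V : ∀ i, Submodule ℂ (Matrix (Fin (p i)) (Fin (q i)) ℂ)) (Γ : Type) [Group Γ]
    [MulAction Γ (dom V)] (hact : ∀ γ : Γ, ∃ G, Lifts V γ G) [CompactSpace (Quotient (MulAction.orbitRel Γ (dom V)))] :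
    ∃ K : Set (dom V), IsCompact K ∧ ∀ W : dom V, ∃ γ : Γ, γ • W ∈ K := by
  have hc : ContinuousConstSMul Γ (dom V) := ⟨fun γ => continuous_smul_dom V hact γ⟩
  have hl : LocallyCompactSpace (dom V) := locallyCompact_dom V
  have ho : IsOpenMap (Quotient.mk (MulAction.orbitRel Γ (dom V))) := isOpenMap_quotient_mk'_mul
  choose C hC hC' using fun x : dom V => exists_compact_mem_nhds x
  have hcov : (Set.univ : Set (Quotient (MulAction.orbitRel Γ (dom V)))) ⊆
      ⋃ x : dom V, Quotient.mk (MulAction.orbitRel Γ (dom V)) '' interior (C x) := by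
    intro y _
    obtain ⟨x, rfl⟩ := Quotient.exists_rep y
    exact Set.mem_iUnion.2 ⟨x, x, mem_interior_iff_mem_nhds.2 (hC' x), rfl⟩
  obtain ⟨t, ht⟩ := isCompact_univ.elim_finite_subcover _
    (fun x => ho _ isOpen_interior) hcov
  refine ⟨⋃ x ∈ t, C x, t.isCompact_biUnion fun x _ => hC x, fun W => ?_⟩
  obtain ⟨x, hx, W', hW', hWW⟩ : ∃ x ∈ t, ∃ W' ∈ interior (C x),
      Quotient.mk (MulAction.orbitRel Γ (dom V)) W' = Quotient.mk (MulAction.orbitRel Γ (dom V)) W := by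
    have := ht (Set.mem_univ (Quotient.mk (MulAction.orbitRel Γ (dom V)) W))
    simpa only [Set.mem_iUnion, Set.mem_image, exists_prop] using this
  have h5 := Quotient.exact hWW
  have h6 : W' ∈ MulAction.orbit Γ W := MulAction.orbitRel_apply.1 h5
  obtain ⟨γ, hγ⟩ := h6
  refine ⟨γ, Set.mem_iUnion₂.2 ⟨x, hx, ?_⟩⟩
  have hγ' : γ • W = W' := hγ
  rw [hγ']
  exact interior_subset hW'

end Pool.Agent.MP_a98e84_gt.TG
end

section

/-!
# TASK TG D6: the group is not trivial

If all elements of `Γ` are `1`, the compact set `K` of `exists_compact_dom` is all of `dom V`, so `dom V` is compact, so its image in `EE p q` is closed. Choose `i`; `exists_max` gives `e ∈ V i` with `e eᴴ e = e`, `rank e = maxRank (V i) > 0`, so `e ≠ 0`.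
The points `Function.update 0 i ((s : ℂ) • e)`, `0 ≤ s < 1`, are in `dom V` (`1 - s² eᴴ e` is positive definite: `eᴴ e` is a Hermitian projection; or `Trip.ball` for `k = 1`), and they converge to `Function.update 0 i e` for `s → 1`. So `Ball e`; but with
`v` such that `u = eᴴ e v ≠ 0` (`e ≠ 0`) we have `eᴴ e u = u`, `|e u| = |u|`, against `ball_iff`.
-/

set_option autoImplicit false

namespace Pool.Agent.MP_a98e84_gt.TG

open Matrix
open scoped ComplexOrder

variable {ι : Type} [Fintype ι] {p q : ι → ℕ}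


private theorem D6_sq {n : Type*} [Fintype n] (x : n → ℂ) :
    ((∑ j, ‖x j‖ ^ 2 : ℝ) : ℂ) = star x ⬝ᵥ x := by
  rw [dotProduct, Complex.ofReal_sum]
  refine Finset.sum_congr rfl fun j _ => ?_
  rw [Pi.star_apply, Complex.ofReal_pow]
  exact (Complex.conj_mul' (x j)).symm

private theorem D6_not_ball {m n : Type*} [Fintype m] [Fintype n] [DecidableEq m] [DecidableEq n] {e : Matrix m n ℂ}
    (he : e * eᴴ * e = e) (h0 : e ≠ 0) : ¬ Ball e := by
  intro hb
  have hv : ∃ v : n → ℂ, e *ᵥ v ≠ 0 := by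
    by_contra hcon
    push Not at hcon
    apply h0
    ext a b
    have := congrFun (hcon (Pi.single b 1)) a
    rw [Matrix.mulVec_single_one] at this
    exact this
  obtain ⟨v, hv⟩ := hv
  have hu1 : e *ᵥ (eᴴ *ᵥ (e *ᵥ v)) = e *ᵥ v := by
    rw [Matrix.mulVec_mulVec, Matrix.mulVec_mulVec, he]
  have hu0 : eᴴ *ᵥ (e *ᵥ v) ≠ 0 := by
    intro h
    apply hv
    rw [← hu1, h, Matrix.mulVec_zero]
  have hlt := ball_iff.mp hb _ hu0
  rw [hu1] at hlt
  have heq : ∑ i, ‖(e *ᵥ v) i‖ ^ 2 = ∑ j, ‖(eᴴ *ᵥ (e *ᵥ v)) j‖ ^ 2 := by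
    have : ((∑ i, ‖(e *ᵥ v) i‖ ^ 2 : ℝ) : ℂ) = ((∑ j, ‖(eᴴ *ᵥ (e *ᵥ v)) j‖ ^ 2 : ℝ) : ℂ) := by
      rw [D6_sq, D6_sq, Matrix.star_mulVec eᴴ, Matrix.conjTranspose_conjTranspose, ← Matrix.dotProduct_mulVec, hu1]
    exact_mod_cast this
  linarith

theorem exists_ne_one [Nonempty ι] (V : ∀ i, Submodule ℂ (Matrix (Fin (p i)) (Fin (q i)) ℂ)) (hV : ∀ i, JStar (V i))
    (hV0 : ∀ i, V i ≠ ⊥) (Γ : Type) [Group Γ]
    [MulAction Γ (dom V)] (hact : ∀ γ : Γ, ∃ G, Lifts V γ G) [CompactSpace (Quotient (MulAction.orbitRel Γ (dom V)))] :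
    ∃ γ : Γ, γ ≠ 1 := by
  classical
  by_contra hcon
  push Not at hcon
  obtain ⟨K, hK, hKall⟩ := exists_compact_dom V Γ hact
  have hK1 : ∀ W : dom V, W ∈ K := by
    intro W
    obtain ⟨γ, hγ⟩ := hKall W
    rw [hcon γ, one_smul] at hγ
    exact hγ
  have hcl : IsClosed (dom V) := by
    have h1 : (Subtype.val '' K : Set (EE p q)) = dom V := by
      ext W
      constructor
      · rintro ⟨W', _, rfl⟩
        exact W'.2
      · intro hW
        exact ⟨⟨W, hW⟩, hK1 _, rfl⟩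
    rw [← h1]
    exact (hK.image continuous_subtype_val).isClosed
  obtain ⟨i⟩ := ‹Nonempty ι›
  obtain ⟨e, heV, he, hrk⟩ := exists_max (hV i)
  have he0 : e ≠ 0 := by
    intro h
    have hp := maxRank_pos (hV0 i)
    rw [← hrk, h, Matrix.rank_zero] at hp
    exact lt_irrefl _ hp
  let f : ℝ → EE p q := fun s => Function.update (0 : EE p q) i ((s : ℂ) • e)
  have hf : Continuous f := by
    refine Continuous.update continuous_const i ?_
    exact Complex.continuous_ofReal.smul continuous_const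
  have htr : Trip (fun _ : Fin 1 => e) := by
    refine ⟨fun _ => he, ?_, ?_⟩
    · intro j l hjl
      exact absurd (Subsingleton.elim j l) hjl
    · intro j l hjl
      exact absurd (Subsingleton.elim j l) hjl
  have hmem : ∀ s ∈ Set.Ioo (0:ℝ) 1, f s ∈ dom V := by
    intro s hs j
    by_cases hj : j = i
    · subst hj
      have hfj : f s j = (s : ℂ) • e := by
        simp only [f, Function.update_self]
      rw [hfj]
      refine ⟨(V j).smul_mem _ heV, ?_⟩
      have hb := htr.ball (w := fun _ => (s : ℂ)) (fun _ => by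
        rw [Complex.norm_real, Real.norm_eq_abs, abs_of_pos hs.1]
        exact hs.2)
      have hpl : pl (fun _ : Fin 1 => e) (fun _ => (s : ℂ)) = (s : ℂ) • e := by
        unfold pl
        rw [Fin.sum_univ_one]
      rw [hpl] at hb
      exact hb
    · have hfj : f s j = 0 := by
        simp only [f]
        rw [Function.update_of_ne hj]
        rfl
      rw [hfj]
      exact ⟨(V j).zero_mem, ball_zero⟩
  have h1 : f 1 ∈ dom V := by
    refine hcl.mem_of_tendsto (b := nhdsWithin (1:ℝ) (Set.Iio 1)) (f := f)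
      ((hf.tendsto 1).mono_left nhdsWithin_le_nhds) ?_
    filter_upwards [Ioo_mem_nhdsLT (zero_lt_one' ℝ)] with s hs
    exact hmem s hs
  have hb := (h1 i).2
  have hfi : f 1 i = e := by
    simp only [f, Function.update_self, Complex.ofReal_one, one_smul]
  rw [hfi] at hb
  exact D6_not_ball he he0 hb

end Pool.Agent.MP_a98e84_gt.TG
end

section

/-!
# TASK TG C6: transvections on a polydisc

Let `B = pl E β`, `a = tva B`, `d = tvd B`, `c j = (1 - β j ^ 2)^(-1/2)`. `a * a * (1 - B Bᴴ) = 1` and `(1 - B Bᴴ) E j = (1 - β j ^ 2) E j` give `a * a * E j = c j ^ 2 E j`, so `a * E j = c j E j` (`root_apply`); the same for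
`E j * d = c j E j` (`root_apply'`; `d * d` commutes with `1 - Bᴴ B`). (`tva_pl`) sums. (`mob_tv_pl`) Let `y j = (w j + β j) / (1 + β j w j)`. `pl E y * (1 + Bᴴ pl E w) = pl E (w + β) = pl E w + B` (`pl_star_mul`, `pl_mul_proj`:
`Bᴴ pl E w = ∑ β j w j (E j)ᴴ E j`), so `(Z + B)(1 + Bᴴ Z)⁻¹ = pl E y` for `Z = pl E w`, and `a * pl E y * d⁻¹ = pl E (c y) * d⁻¹ = pl E y` since `pl E y * d = pl E (c y)`. `mob_tv_eq`.
`|y j|` is not needed. `1 + β j w j ≠ 0` as `|β j w j| < 1`.
-/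

set_option autoImplicit false

namespace Pool.Agent.MP_a98e84_gt.TG

open Matrix
open scoped ComplexOrder

variable {m n : Type*} [Fintype m] [Fintype n] [DecidableEq m] [DecidableEq n]


variable {k : ℕ} {E : Fin k → Matrix m n ℂ}

omit [Fintype m] [Fintype n] [DecidableEq m] [DecidableEq n] in
private theorem C6_single (E : Fin k → Matrix m n ℂ) (j : Fin k) (f : Fin k → ℂ) :
    pl E (fun i => f i * (Pi.single j 1 : Fin k → ℂ) i) = f j • E j := by
  unfold pl
  beta_reduce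
  rw [Finset.sum_eq_single j]
  · rw [Pi.single_eq_same, mul_one]
  · intro i _ hi
    rw [Pi.single_eq_of_ne hi, mul_zero, zero_smul]
  · intro h
    exact absurd (Finset.mem_univ j) h

omit [Fintype m] [Fintype n] [DecidableEq m] [DecidableEq n] in
private theorem C6_single' (E : Fin k → Matrix m n ℂ) (j : Fin k) (f : Fin k → ℂ) :
    pl E (fun i => (Pi.single j 1 : Fin k → ℂ) i * f i) = f j • E j := by
  rw [← C6_single E j f]
  congr 1
  funext i
  rw [mul_comm]

omit [Fintype m] [Fintype n] [DecidableEq m] [DecidableEq n] in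
private theorem C6_single1 (E : Fin k → Matrix m n ℂ) (j : Fin k) :
    pl E (Pi.single j 1 : Fin k → ℂ) = E j := by
  have h := C6_single E j (fun _ => 1)
  simp only [one_mul, one_smul] at h
  exact h

omit [Fintype m] [Fintype n] [DecidableEq m] [DecidableEq n] in
private theorem C6_sum {a b : Type*} (F : Fin k → Matrix a b ℂ) (j : Fin k) (f : Fin k → ℂ) :
    ∑ i, (f i * (Pi.single j 1 : Fin k → ℂ) i) • F i = f j • F j := by
  rw [Finset.sum_eq_single j]
  · rw [Pi.single_eq_same, mul_one]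
  · intro i _ hi
    rw [Pi.single_eq_of_ne hi, mul_zero, zero_smul]
  · intro h
    exact absurd (Finset.mem_univ j) h

private theorem C6_norm {β : Fin k → ℝ} (hβ : ∀ j, |β j| < 1) (j : Fin k) : ‖((β j : ℝ) : ℂ)‖ < 1 := by
  rw [Complex.norm_real, Real.norm_eq_abs]
  exact hβ j

private theorem C6_pos {b : ℝ} (hb : |b| < 1) : 0 < 1 - b ^ 2 := by
  have h := abs_lt.1 hb
  nlinarith [h.1, h.2]

private theorem C6_csq {b : ℝ} (hb : |b| < 1) : ((1 - b ^ 2) ^ (-(1 / 2) : ℝ)) ^ 2 = (1 - b ^ 2)⁻¹ := by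
  have h := C6_pos hb
  rw [← Real.rpow_natCast, ← Real.rpow_mul h.le, ← Real.rpow_neg_one]
  norm_num

/-- `(1 - B Bᴴ) E j = (1 - β j ^ 2) E j` -/
private theorem C6_left (hE : Trip E) (β : Fin k → ℝ) (j : Fin k) :
    (1 - pl E (fun j => (β j : ℂ)) * (pl E (fun j => (β j : ℂ)))ᴴ) * E j = ((1 - β j ^ 2 : ℝ) : ℂ) • E j := by
  have a5 : (pl E (fun j => (β j : ℂ)))ᴴ * E j = (β j : ℂ) • ((E j)ᴴ * E j) := by
    have h := pl_star_mul hE (fun j => (β j : ℂ)) (Pi.single j 1)
    rw [C6_single1] at h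
    rw [h, C6_sum (fun j => (E j)ᴴ * E j) j (fun i => (starRingEnd ℂ) (β i : ℂ)), Complex.conj_ofReal]
  have a4 : pl E (fun j => (β j : ℂ)) * ((E j)ᴴ * E j) = (β j : ℂ) • E j := by
    have h := pl_mul_proj hE (fun j => (β j : ℂ)) (Pi.single j 1)
    rw [C6_single] at h
    rw [← h]
    congr 1
    have h2 := C6_sum (fun j => (E j)ᴴ * E j) j (fun _ => 1)
    simp only [one_mul, one_smul] at h2
    exact h2.symm
  rw [Matrix.sub_mul, Matrix.one_mul, Matrix.mul_assoc, a5, Matrix.mul_smul, a4, smul_smul]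
  push_cast
  rw [sub_smul, one_smul, pow_two]

/-- `E j (1 - Bᴴ B) = (1 - β j ^ 2) E j` -/
private theorem C6_right (hE : Trip E) (β : Fin k → ℝ) (j : Fin k) :
    E j * (1 - (pl E (fun j => (β j : ℂ)))ᴴ * pl E (fun j => (β j : ℂ))) = ((1 - β j ^ 2 : ℝ) : ℂ) • E j := by
  have a5 : E j * (pl E (fun j => (β j : ℂ)))ᴴ = (β j : ℂ) • (E j * (E j)ᴴ) := by
    have h := pl_mul_star hE (Pi.single j 1) (fun j => (β j : ℂ))
    rw [C6_single1] at h
    rw [h]
    have h2 := C6_sum (fun j => E j * (E j)ᴴ) j (fun i => (starRingEnd ℂ) (β i : ℂ))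
    rw [Complex.conj_ofReal] at h2
    rw [← h2]
    refine Finset.sum_congr rfl fun i _ => ?_
    rw [mul_comm]
  have a4 : E j * (E j)ᴴ * pl E (fun j => (β j : ℂ)) = (β j : ℂ) • E j := by
    have h := proj_mul_pl hE (fun j => (β j : ℂ)) (Pi.single j 1)
    rw [C6_single'] at h
    rw [← h]
    congr 1
    have h2 := C6_sum (fun j => E j * (E j)ᴴ) j (fun _ => 1)
    simp only [one_mul, one_smul] at h2
    exact h2.symm
  rw [Matrix.mul_sub, Matrix.mul_one, ← Matrix.mul_assoc, a5, Matrix.smul_mul, a4, smul_smul]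
  push_cast
  rw [sub_smul, one_smul, pow_two]

theorem tva_pl (hE : Trip E) {β : Fin k → ℝ} (hβ : ∀ j, |β j| < 1) (y : Fin k → ℂ) :
    tva (pl E (fun j => (β j : ℂ))) * pl E y = pl E (fun j => (((1 - β j ^ 2) ^ (-(1 / 2) : ℝ) : ℝ) : ℂ) * y j) := by
  have hB : Ball (pl E (fun j => (β j : ℂ))) := Trip.ball hE (C6_norm hβ)
  have key : ∀ j, tva (pl E (fun j => (β j : ℂ))) * E j = (((1 - β j ^ 2) ^ (-(1 / 2) : ℝ) : ℝ) : ℂ) • E j := by
    intro j
    have hp := C6_pos (hβ j)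
    refine root_apply (tva_posDef hB) (Real.rpow_pos_of_pos hp _) ?_
    rw [C6_csq (hβ j)]
    have h1 := congrArg (fun M => M * E j) (tva_sq hB)
    simp only [Matrix.one_mul] at h1
    rw [Matrix.mul_assoc, C6_left hE β j, Matrix.mul_smul] at h1
    have hne : ((1 - β j ^ 2 : ℝ) : ℂ) ≠ 0 := by exact_mod_cast hp.ne'
    calc tva (pl E (fun j => (β j : ℂ))) * tva (pl E (fun j => (β j : ℂ))) * E j
        = ((1 - β j ^ 2 : ℝ) : ℂ)⁻¹ • (((1 - β j ^ 2 : ℝ) : ℂ) •
          (tva (pl E (fun j => (β j : ℂ))) * tva (pl E (fun j => (β j : ℂ))) * E j)) := by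
          rw [smul_smul, inv_mul_cancel₀ hne, one_smul]
      _ = (((1 - β j ^ 2)⁻¹ : ℝ) : ℂ) • E j := by rw [h1, Complex.ofReal_inv]
  unfold pl at key ⊢
  rw [Matrix.mul_sum]
  refine Finset.sum_congr rfl fun j _ => ?_
  rw [Matrix.mul_smul, key, smul_smul, mul_comm]

theorem tvd_pl (hE : Trip E) {β : Fin k → ℝ} (hβ : ∀ j, |β j| < 1) (y : Fin k → ℂ) :
    pl E y * tvd (pl E (fun j => (β j : ℂ))) = pl E (fun j => (((1 - β j ^ 2) ^ (-(1 / 2) : ℝ) : ℝ) : ℂ) * y j) := by
  have hB : Ball (pl E (fun j => (β j : ℂ))) := Trip.ball hE (C6_norm hβ)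
  have key : ∀ j, E j * tvd (pl E (fun j => (β j : ℂ))) = (((1 - β j ^ 2) ^ (-(1 / 2) : ℝ) : ℝ) : ℂ) • E j := by
    intro j
    have hp := C6_pos (hβ j)
    refine root_apply' (tvd_posDef hB) (Real.rpow_pos_of_pos hp _) ?_
    rw [C6_csq (hβ j)]
    have h0 := mul_eq_one_comm.1 (tvd_sq hB)
    have h1 := congrArg (fun M => E j * M) h0
    simp only [Matrix.mul_one] at h1
    rw [← Matrix.mul_assoc, C6_right hE β j, Matrix.smul_mul] at h1
    have hne : ((1 - β j ^ 2 : ℝ) : ℂ) ≠ 0 := by exact_mod_cast hp.ne'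
    calc E j * (tvd (pl E (fun j => (β j : ℂ))) * tvd (pl E (fun j => (β j : ℂ))))
        = ((1 - β j ^ 2 : ℝ) : ℂ)⁻¹ • (((1 - β j ^ 2 : ℝ) : ℂ) •
          (E j * (tvd (pl E (fun j => (β j : ℂ))) * tvd (pl E (fun j => (β j : ℂ)))))) := by
          rw [smul_smul, inv_mul_cancel₀ hne, one_smul]
      _ = (((1 - β j ^ 2)⁻¹ : ℝ) : ℂ) • E j := by rw [h1, Complex.ofReal_inv]
  unfold pl at key ⊢
  rw [Matrix.sum_mul]
  refine Finset.sum_congr rfl fun j _ => ?_
  rw [Matrix.smul_mul, key, smul_smul, mul_comm]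

theorem mob_tv_pl (hE : Trip E) {β : Fin k → ℝ} (hβ : ∀ j, |β j| < 1) {w : Fin k → ℂ} (hw : ∀ j, ‖w j‖ < 1) :
    mob (tv (pl E (fun j => (β j : ℂ)))) (pl E w) = pl E (fun j => (w j + (β j : ℂ)) / (1 + (β j : ℂ) * w j)) := by
  have hB : Ball (pl E (fun j => (β j : ℂ))) := Trip.ball hE (C6_norm hβ)
  have hZ : Ball (pl E w) := Trip.ball hE hw
  have hne : ∀ j, 1 + (β j : ℂ) * w j ≠ 0 := by
    intro j h0
    have h1 : (β j : ℂ) * w j = -1 := by
      linear_combination h0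
    have h2 : ‖(β j : ℂ) * w j‖ = 1 := by rw [h1, norm_neg, norm_one]
    rw [norm_mul] at h2
    have h3 := C6_norm hβ j
    nlinarith [norm_nonneg (β j : ℂ), norm_nonneg (w j), hw j]
  set y : Fin k → ℂ := fun j => (w j + (β j : ℂ)) / (1 + (β j : ℂ) * w j) with hy
  have e1 : pl E y * (1 + (pl E (fun j => (β j : ℂ)))ᴴ * pl E w) = pl E w + pl E (fun j => (β j : ℂ)) := by
    rw [Matrix.mul_add, Matrix.mul_one, pl_star_mul hE, pl_mul_proj hE]
    unfold pl
    rw [← Finset.sum_add_distrib, ← Finset.sum_add_distrib]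
    refine Finset.sum_congr rfl fun j _ => ?_
    rw [← add_smul, ← add_smul]
    beta_reduce
    rw [Complex.conj_ofReal]
    congr 1
    have h1 := hne j
    show y j + y j * ((β j : ℂ) * w j) = w j + (β j : ℂ)
    have h2 : y j = (w j + (β j : ℂ)) / (1 + (β j : ℂ) * w j) := rfl
    have h3 : y j + y j * ((β j : ℂ) * w j) = y j * (1 + (β j : ℂ) * w j) := by ring
    rw [h3, h2, div_mul_cancel₀ _ h1]
  have hdet := det_one_add_ne hB hZ
  have hdu : IsUnit (tvd (pl E (fun j => (β j : ℂ)))).det := (Matrix.isUnit_iff_isUnit_det _).1 (tvd_posDef hB).isUnit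
  rw [mob_tv_eq hB hZ, ← e1, ← Matrix.mul_assoc, Matrix.mul_assoc _ (1 + _), Matrix.mul_nonsing_inv _ (isUnit_iff_ne_zero.2 hdet),
    Matrix.mul_one, tva_pl hE hβ, ← tvd_pl hE hβ, Matrix.mul_assoc, Matrix.mul_nonsing_inv _ hdu, Matrix.mul_one]

end Pool.Agent.MP_a98e84_gt.TG
end

section

/-!
# TASK TG A4: the product of the factors

(`sol_of_ode`) membership is clear. `HasDerivAt.fun_sum` and `el_of_ode` for each factor (multiplied by the constant `a i`): the function `r ↦ met a (x r) (x' r) v` has the derivative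
`∑ i, a i * ((trace ((v i)ᴴ * gr ..)).re + (b i / a i) * (hm (x t i) (I • x' t i) (v i)).re)`; and by `hasDerivAt_hm` the derivative at `0` of `h ↦ met a (x t + h • v) (x' t) (x' t)` is
`∑ i, a i * (2 * (trace ((v i)ᴴ * gr ..)).re)`, so `deriv .. / 2` is the first part (`HasDerivAt.deriv`).
(`ode_of_sol`) Fix `i` and `Y ∈ V i` and take `v = Pi.single i Y` (`Function.update 0 i Y`); all other terms of the sums vanish (`hm .. 0 = 0`); the same formula for `deriv` holds by `hasDerivAt_hm`; divide by `a i > 0`;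
`ode_of_el`.
-/

set_option autoImplicit false

namespace Pool.Agent.MP_a98e84_gt.TG

open Matrix
open scoped ComplexOrder

variable {ι : Type} [Fintype ι] [DecidableEq ι] {p q : ι → ℕ}

/-- the derivative of the metric term -/
private theorem A4_der {a : ι → ℝ} {x x' : EE p q} (hb : ∀ i, Ball (x i)) (v : EE p q) :
    deriv (fun h : ℝ => met a (x + h • v) x' x') 0 / 2 =
      ∑ i, a i * (trace ((v i)ᴴ * gr (x i) (x' i))).re := by
  have h1 : HasDerivAt (fun h : ℝ => met a (x + h • v) x' x')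
      (∑ i, a i * (2 * (trace ((v i)ᴴ * gr (x i) (x' i))).re)) 0 := by
    unfold met
    exact HasDerivAt.fun_sum fun i _ => (hasDerivAt_hm (hb i) (x' i) (v i)).const_mul (a i)
  rw [h1.deriv, Finset.sum_div]
  exact Finset.sum_congr rfl fun i _ => by ring

theorem sol_of_ode (V : ∀ i, Submodule ℂ (Matrix (Fin (p i)) (Fin (q i)) ℂ)) {a b : ι → ℝ} (ha : ∀ i, 0 < a i)
    {x x' : ℝ → EE p q} (hmem : ∀ t i, x t i ∈ V i)
    (h : ∀ i, Ode (b i / a i) (fun t => x t i) (fun t => x' t i)) :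
    Sol (dom V) {v | ∀ i, v i ∈ V i} (met a) (frm b) x x' := by
  refine ⟨fun t i => ⟨hmem t i, (h i).mem t⟩, fun t i j k => (h i).vel t j k, fun t v _ => ?_⟩
  rw [A4_der (fun i => (h i).mem t) v]
  have h1 : HasDerivAt (fun r => met a (x r) (x' r) v)
      (∑ i, a i * ((trace ((v i)ᴴ * gr (x t i) (x' t i))).re +
        b i / a i * (hm (x t i) (Complex.I • x' t i) (v i)).re)) t := by
    unfold met
    exact HasDerivAt.fun_sum fun i _ => (el_of_ode (h i) t (v i)).const_mul (a i)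
  refine h1.congr_deriv ?_
  unfold frm
  rw [← Finset.sum_add_distrib]
  refine Finset.sum_congr rfl fun i _ => ?_
  have hi := (ha i).ne'
  field_simp

theorem ode_of_sol (V : ∀ i, Submodule ℂ (Matrix (Fin (p i)) (Fin (q i)) ℂ)) (hV : ∀ i, JStar (V i)) {a b : ι → ℝ}
    (ha : ∀ i, 0 < a i) {x x' : ℝ → EE p q}
    (h : Sol (dom V) {v | ∀ i, v i ∈ V i} (met a) (frm b) x x') (i : ι) :
    Ode (b i / a i) (fun t => x t i) (fun t => x' t i) := by
  refine ode_of_el (hV i) (fun t => h.mem t i) (fun t j k => h.vel t i j k) fun t Y hY => ?_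
  have hi := (ha i).ne'
  have hm0 : ∀ (j : ι) (W U : Matrix (Fin (p j)) (Fin (q j)) ℂ), hm W U 0 = 0 := by
    intro j W U
    unfold hm
    simp
  have hv : (Function.update (0 : EE p q) i Y) ∈ {v : EE p q | ∀ i, v i ∈ V i} := by
    intro j
    by_cases hj : j = i
    · subst hj
      rw [Function.update_self]
      exact hY
    · rw [Function.update_of_ne hj]
      exact (V j).zero_mem
  have h1 := h.el t _ hv
  rw [A4_der (fun j => (h.mem t j).2)] at h1
  have h2 : ∀ r, met a (x r) (x' r) (Function.update (0 : EE p q) i Y) =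
      a i * (hm (x r i) (x' r i) Y).re := by
    intro r
    unfold met
    rw [Finset.sum_eq_single i]
    · rw [Function.update_self]
    · intro j _ hj
      rw [Function.update_of_ne hj]
      change a j * (hm (x r j) (x' r j) 0).re = 0
      rw [hm0]
      simp
    · intro hni
      exact absurd (Finset.mem_univ i) hni
  have h3 : frm b (x t) (x' t) (Function.update (0 : EE p q) i Y) =
      b i * (hm (x t i) (Complex.I • x' t i) Y).re := by
    unfold frm
    rw [Finset.sum_eq_single i]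
    · rw [Function.update_self]
    · intro j _ hj
      rw [Function.update_of_ne hj]
      change b j * (hm (x t j) (Complex.I • x' t j) 0).re = 0
      rw [hm0]
      simp
    · intro hni
      exact absurd (Finset.mem_univ i) hni
  have h4 : ∑ j, a j * (trace (((Function.update (0 : EE p q) i Y) j)ᴴ * gr (x t j) (x' t j))).re =
      a i * (trace (Yᴴ * gr (x t i) (x' t i))).re := by
    rw [Finset.sum_eq_single i]
    · rw [Function.update_self]
    · intro j _ hj
      rw [Function.update_of_ne hj]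
      change a j * (trace ((0 : Matrix (Fin (p j)) (Fin (q j)) ℂ)ᴴ * gr (x t j) (x' t j))).re = 0
      simp
    · intro hni
      exact absurd (Finset.mem_univ i) hni
  simp only [h2] at h1
  rw [h3, h4] at h1
  have h5 := h1.const_mul (a i)⁻¹
  have h6 : ∀ r, (a i)⁻¹ * (a i * (hm (x r i) (x' r i) Y).re) = (hm (x r i) (x' r i) Y).re := by
    intro r
    rw [← mul_assoc, inv_mul_cancel₀ hi, one_mul]
  simp only [h6] at h5
  refine h5.congr_deriv ?_
  field_simp

end Pool.Agent.MP_a98e84_gt.TG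
end

section

/-!
# TASK TG D1: properness of the two point function

On the compact set `K × cball` (`isCompact_cball`) the continuous function `(W, Z) ↦ ‖det (1 - Wᴴ Z)‖` is positive (`det_cross_ne`), so it is `≥ c₀ > 0` (if the set is empty take `K' = ∅`). On `K` the function `‖det (1 - Wᴴ W)‖` is
bounded by some `D > 0`. If `dd W Z ≤ C` (we may enlarge `C` to be positive) then `c₀² ≤ C D ‖det (1 - Zᴴ Z)‖`. So `Z` is in
`K' = {Z | (1 - Zᴴ Z).PosSemidef ∧ c₀² / (C D) ≤ ‖det (1 - Zᴴ Z)‖}`, a closed subset of the compact set `cball`, contained in the ball by `ball_of_det`.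
-/

set_option autoImplicit false

namespace Pool.Agent.MP_a98e84_gt.TG

open Matrix
open scoped ComplexOrder

variable {m n : Type*} [Fintype m] [Fintype n] [DecidableEq m] [DecidableEq n]


theorem dd_proper {K : Set (Matrix m n ℂ)} (hK : IsCompact K) (hKb : ∀ W ∈ K, Ball W) (C : ℝ) :
    ∃ K' : Set (Matrix m n ℂ), IsCompact K' ∧ (∀ Z ∈ K', Ball Z) ∧ ∀ W ∈ K, ∀ Z, Ball Z → dd W Z ≤ C → Z ∈ K' := by
  rcases K.eq_empty_or_nonempty with hKe | hKn
  · refine ⟨∅, isCompact_empty, fun Z hZ => absurd hZ (Set.notMem_empty Z), ?_⟩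
    intro W hW
    rw [hKe] at hW
    exact absurd hW (Set.notMem_empty W)
  have hcb : IsCompact {W : Matrix m n ℂ | (1 - Wᴴ * W).PosSemidef} := isCompact_cball
  have hc0 : (0 : Matrix m n ℂ) ∈ {W : Matrix m n ℂ | (1 - Wᴴ * W).PosSemidef} := by
    have h1 : (1 - (0 : Matrix m n ℂ)ᴴ * (0 : Matrix m n ℂ)) = 1 := by simp
    show (1 - (0 : Matrix m n ℂ)ᴴ * (0 : Matrix m n ℂ)).PosSemidef
    rw [h1]
    exact Matrix.PosSemidef.one
  have hg : Continuous fun p : Matrix m n ℂ × Matrix m n ℂ => ‖(1 - p.1ᴴ * p.2).det‖ := by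
    refine Continuous.norm (Continuous.matrix_det ?_)
    exact continuous_const.sub (Continuous.matrix_mul (Continuous.matrix_conjTranspose continuous_fst) continuous_snd)
  have hf : Continuous fun W : Matrix m n ℂ => ‖(1 - Wᴴ * W).det‖ := by
    refine Continuous.norm (Continuous.matrix_det ?_)
    exact continuous_const.sub (Continuous.matrix_mul (Continuous.matrix_conjTranspose continuous_id) continuous_id)
  obtain ⟨⟨W0, Z0⟩, hp0, hmin⟩ := (hK.prod hcb).exists_isMinOn (hKn.prod ⟨0, hc0⟩) hg.continuousOn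
  obtain ⟨W1, hW1, hmax⟩ := hK.exists_isMaxOn hKn hf.continuousOn
  have hc : 0 < ‖(1 - W0ᴴ * Z0).det‖ := norm_pos_iff.2 (det_cross_ne (hKb W0 hp0.1) hp0.2)
  have hD : 0 < ‖(1 - W1ᴴ * W1).det‖ := norm_pos_iff.2 (hKb W1 hW1).det_ne
  have hmin' : ∀ W ∈ K, ∀ Z : Matrix m n ℂ, (1 - Zᴴ * Z).PosSemidef →
      ‖(1 - W0ᴴ * Z0).det‖ ≤ ‖(1 - Wᴴ * Z).det‖ := by
    intro W hW Z hZ
    exact isMinOn_iff.1 hmin (W, Z) (Set.mk_mem_prod hW hZ)
  have hmax' : ∀ W ∈ K, ‖(1 - Wᴴ * W).det‖ ≤ ‖(1 - W1ᴴ * W1).det‖ :=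
    fun W hW => isMaxOn_iff.1 hmax W hW
  generalize ‖(1 - W0ᴴ * Z0).det‖ = c at hc hmin'
  generalize ‖(1 - W1ᴴ * W1).det‖ = D at hD hmax'
  have hC : 0 < max C 1 := lt_of_lt_of_le one_pos (le_max_right _ _)
  refine ⟨{W : Matrix m n ℂ | (1 - Wᴴ * W).PosSemidef} ∩ {Z | c ^ 2 / (max C 1 * D) ≤ ‖(1 - Zᴴ * Z).det‖},
    hcb.inter_right (isClosed_le continuous_const hf), ?_, ?_⟩
  · rintro Z ⟨hZ1, hZ2⟩
    refine ball_of_det hZ1 ?_
    rw [← norm_pos_iff]
    exact lt_of_lt_of_le (by positivity) hZ2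
  · intro W hW Z hZ hd
    refine ⟨hZ.posSemidef, ?_⟩
    have h1 : 0 < ‖(1 - Wᴴ * W).det‖ := norm_pos_iff.2 (hKb W hW).det_ne
    have h2 : 0 < ‖(1 - Zᴴ * Z).det‖ := norm_pos_iff.2 hZ.det_ne
    have h3 := hmin' W hW Z hZ.posSemidef
    have h4 := hmax' W hW
    have h5 : ‖(1 - Wᴴ * Z).det‖ ^ 2 / (‖(1 - Wᴴ * W).det‖ * ‖(1 - Zᴴ * Z).det‖) ≤ max C 1 :=
      hd.trans (le_max_left _ _)
    rw [div_le_iff₀ (mul_pos h1 h2)] at h5
    show c ^ 2 / (max C 1 * D) ≤ ‖(1 - Zᴴ * Z).det‖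
    rw [div_le_iff₀ (mul_pos hC hD)]
    have h6 : c ^ 2 ≤ ‖(1 - Wᴴ * Z).det‖ ^ 2 := pow_le_pow_left₀ hc.le h3 2
    have h7 : max C 1 * (‖(1 - Wᴴ * W).det‖ * ‖(1 - Zᴴ * Z).det‖) ≤ max C 1 * (D * ‖(1 - Zᴴ * Z).det‖) := by
      gcongr
    calc c ^ 2 ≤ _ := h6
      _ ≤ _ := h5
      _ ≤ _ := h7
      _ = _ := by ring

end Pool.Agent.MP_a98e84_gt.TG
end

section

/-!
# TASK TG E2: contractible closed orbits on the levels below `cs`

`κ i = b i / a i ≠ 0`, `R i = maxRank (V i)`, `e i ∈ V i` with `e eᴴ e = e`, `rank (e i) = R i` (`exists_max`); `Trip (fun _ : Fin 1 => e i)`. The function `f ω = ∑ i, (a i / 8) R i max 0 (κ i ² - ω²)` is continuous, `f 0 = cs V a b`, and `f ω = 0` for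
`ω ≥ ∑ |κ i|`. Intermediate value theorem: `0 < ω` with `f ω = c`. For the `i` with `ω < |κ i|` take `w i`, `w' i` from `disc_ell`, for the others `disc_zero` (`w = w' = 0`). `x t i = pl (fun _ : Fin 1 => e i) (fun _ => w i t)`, `T₀ = 2 π / ω`.
`ode_pl`, `sol_of_ode`; energy by `Trip.hm_pl`: `∑ i, (a i / 2) R i (κ i ² - ω²) / 4` over the `i` with `ω < |κ i|`, which is `f ω = c`.
-/

set_option autoImplicit false

namespace Pool.Agent.MP_a98e84_gt.TG

open Matrix
open scoped ComplexOrder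

variable {ι : Type} [Fintype ι] {p q : ι → ℕ}


private theorem E2_disc {κ ω : ℝ} (hω : 0 < ω) :
    ∃ w w' : ℝ → ℂ, DiscOde κ w w' ∧ (∀ t, w (t + 2 * Real.pi / ω) = w t) ∧
      ∀ t, ‖w' t‖ ^ 2 / (1 - ‖w t‖ ^ 2) ^ 2 = max 0 (κ ^ 2 - ω ^ 2) / 4 := by
  by_cases h : ω < |κ|
  · obtain ⟨w, w', h1, h2, h3⟩ := disc_ell hω h
    refine ⟨w, w', h1, h2, fun t => ?_⟩
    have h4 : 0 ≤ κ ^ 2 - ω ^ 2 := by
      rw [← sq_abs κ]
      nlinarith [abs_nonneg κ]
    rw [h3, max_eq_right h4]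
  · refine ⟨fun _ => 0, fun _ => 0, disc_zero κ, fun _ => rfl, fun t => ?_⟩
    have h4 : κ ^ 2 - ω ^ 2 ≤ 0 := by
      rw [← sq_abs κ]
      nlinarith [abs_nonneg κ, not_lt.1 h]
    rw [max_eq_left h4]
    simp

private theorem E2_trip {m n : Type*} [Fintype m] [Fintype n] {e : Matrix m n ℂ} (he : e * eᴴ * e = e) :
    Trip (fun _ : Fin 1 => e) where
  trip _ := he
  orthL j l h := absurd (Subsingleton.elim j l) h
  orthR j l h := absurd (Subsingleton.elim j l) h

theorem low_orbit (V : ∀ i, Submodule ℂ (Matrix (Fin (p i)) (Fin (q i)) ℂ)) (hV : ∀ i, JStar (V i)) {a b : ι → ℝ}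
    (ha : ∀ i, 0 < a i) (hb : ∀ i, b i ≠ 0) {c : ℝ} (hc0 : 0 < c) (hc : c < cs V a b) :
    ∃ (x x' : ℝ → EE p q) (T₀ : ℝ), Sol (dom V) {v | ∀ i, v i ∈ V i} (met a) (frm b) x x' ∧
      (∀ t, met a (x t) (x' t) (x' t) / 2 = c) ∧ 0 < T₀ ∧ ∀ t, x (t + T₀) = x t := by
  classical
  have h0 : ∀ i, ∃ e ∈ V i, e * eᴴ * e = e ∧ e.rank = maxRank (V i) := fun i => exists_max (hV i)
  choose e heV he her using h0
  have hf : ∃ ω : ℝ, 0 < ω ∧ ∑ i, (a i / 8) * (maxRank (V i) : ℝ) * max 0 ((b i / a i) ^ 2 - ω ^ 2) = c := by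
    have hcont : Continuous (fun ω : ℝ => ∑ i, (a i / 8) * (maxRank (V i) : ℝ) * max 0 ((b i / a i) ^ 2 - ω ^ 2)) := by
      fun_prop
    have hf0 : ∑ i, (a i / 8) * (maxRank (V i) : ℝ) * max 0 ((b i / a i) ^ 2 - (0 : ℝ) ^ 2) = cs V a b := by
      unfold cs
      refine Finset.sum_congr rfl fun i _ => ?_
      have h1 := ha i
      rw [max_eq_right (by have h2 := sq_nonneg (b i / a i); linarith)]
      field_simp
      ring
    have hfΩ : ∑ i, (a i / 8) * (maxRank (V i) : ℝ) * max 0 ((b i / a i) ^ 2 - (∑ i, |b i / a i|) ^ 2) = 0 := by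
      refine Finset.sum_eq_zero fun i _ => ?_
      have h1 : |b i / a i| ≤ ∑ i, |b i / a i| := Finset.single_le_sum (f := fun i => |b i / a i|) (fun j _ => abs_nonneg _) (Finset.mem_univ i)
      have h2 : (b i / a i) ^ 2 - (∑ i, |b i / a i|) ^ 2 ≤ 0 := by
        rw [← sq_abs (b i / a i)]
        have h3 := pow_le_pow_left₀ (abs_nonneg (b i / a i)) h1 2
        linarith
      rw [max_eq_left h2, mul_zero]
    have h1 : (0 : ℝ) ≤ ∑ i, |b i / a i| := Finset.sum_nonneg fun i _ => abs_nonneg _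
    obtain ⟨ω, ⟨h2, h3⟩, h4⟩ := intermediate_value_Icc' h1 hcont.continuousOn
      (show c ∈ Set.Icc (∑ i, (a i / 8) * (maxRank (V i) : ℝ) * max 0 ((b i / a i) ^ 2 - (∑ i, |b i / a i|) ^ 2))
        (∑ i, (a i / 8) * (maxRank (V i) : ℝ) * max 0 ((b i / a i) ^ 2 - (0 : ℝ) ^ 2)) from ⟨by rw [hfΩ]; exact hc0.le, by rw [hf0]; exact hc.le⟩)
    refine ⟨ω, lt_of_le_of_ne h2 ?_, h4⟩
    rintro rfl
    have h5 : ∑ i, (a i / 8) * (maxRank (V i) : ℝ) * max 0 ((b i / a i) ^ 2 - (0 : ℝ) ^ 2) = c := h4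
    rw [hf0] at h5
    exact absurd h5 hc.ne'
  obtain ⟨ω, hω, hωc⟩ := hf
  have h1 : ∀ i, ∃ w w' : ℝ → ℂ, DiscOde (b i / a i) w w' ∧ (∀ t, w (t + 2 * Real.pi / ω) = w t) ∧
      ∀ t, ‖w' t‖ ^ 2 / (1 - ‖w t‖ ^ 2) ^ 2 = max 0 ((b i / a i) ^ 2 - ω ^ 2) / 4 := fun i => E2_disc hω
  choose w w' hw hper hsp using h1
  refine ⟨fun t i => pl (fun _ : Fin 1 => e i) (fun _ => w i t), fun t i => pl (fun _ : Fin 1 => e i) (fun _ => w' i t),
    2 * Real.pi / ω, ?_, ?_, by positivity, ?_⟩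
  · refine sol_of_ode V ha (fun t i => pl_mem (fun _ => heV i) _) (fun i => ?_)
    exact ode_pl (E2_trip (he i)) (fun _ => hw i)
  · intro t
    unfold met
    rw [← hωc, Finset.sum_div]
    refine Finset.sum_congr rfl fun i _ => ?_
    rw [Trip.hm_pl (E2_trip (he i)) (fun _ => (hw i).mem t), Complex.ofReal_re, Fin.sum_univ_one, her i, hsp i t]
    ring
  · intro t
    funext i
    change pl (fun _ : Fin 1 => e i) (fun _ => w i (t + 2 * Real.pi / ω)) = pl (fun _ : Fin 1 => e i) (fun _ => w i t)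
    rw [hper i t]

end Pool.Agent.MP_a98e84_gt.TG
end

section

/-!
# TASK TG F2: uniqueness for the second order equation

Fix `t₀ > 0` (the case `t₀ < 0` by a symmetric argument, or by time reversal: `t ↦ x (-t)` solves the equation for `-κ`). On `[0, t₀]` both curves `(x, x')`, `(y, y')` are continuous (entrywise differentiable), so they stay in a compact set; the compact sets of values of `x` and `y` lie in
`{W | Ball W}`, and there is `r < 1` with `∑ ‖(W v) i‖² ≤ r² ∑ ‖v j‖²` for all these `W` (compactness; or: `Ball ((1/r) W)` by openness), a convex set `C₁`; `x'`, `y'` stay in a convex bounded set `C₂`. The field `F (W, U) = (U, iκ U - 2 U (1 - Wᴴ W)⁻¹ Wᴴ U)` is Lipschitz on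
`C₁ × C₂` (it is continuously differentiable on an open neighbourhood of this compact convex set; or directly: products and inverses of bounded Lipschitz functions, `A⁻¹ - B⁻¹ = A⁻¹ (B - A) B⁻¹`, with `‖(1 - Wᴴ W)⁻¹‖ ≤ 1 / (1 - r²)`). `ODE_solution_unique_of_mem_Icc_right` or
`ODE_solution_unique`. Work with a norm on matrices (`m → n → ℂ` with the sup norm, whose topology is the one of matrices), `HD` is `HasDerivAt` there (`hasDerivAt_pi`).
(Another way, without ODE theory: the first order system for a frame: given a solution `x` let `Q`, ... ; any correct proof is welcome.)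
(Another way: local uniqueness + connectedness: the set of the `t` with `x = y` and `x' = y'` at `t` is closed, and open by local Lipschitz continuity: `F` is `C¹`, `ContDiffAt.exists_lipschitzOnWith`, `ODE_solution_unique_of_eventually`.)
-/

set_option autoImplicit false

namespace Pool.Agent.MP_a98e84_gt.TG

open Matrix
open scoped ComplexOrder

variable {m n : Type*} [Fintype m] [Fintype n] [DecidableEq m] [DecidableEq n]


private def F2_P {E : Type*} [NormedAddCommGroup E] [NormedSpace ℝ E] {a b : Type*} (F : E → Matrix a b ℂ) : Prop :=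
  ∀ i j, ContDiff ℝ 1 (fun z => F z i j)

private theorem F2_mul {E : Type*} [NormedAddCommGroup E] [NormedSpace ℝ E] {a b c : Type*} [Fintype b]
    {F : E → Matrix a b ℂ} {G : E → Matrix b c ℂ} (hF : F2_P F) (hG : F2_P G) : F2_P (fun z => F z * G z) := by
  intro i j
  have h1 : (fun z => (F z * G z) i j) = fun z => ∑ k, F z i k * G z k j := by
    funext z
    exact Matrix.mul_apply
  rw [h1]
  exact ContDiff.sum (fun k _ => (hF i k).mul (hG k j))

private theorem F2_conj {E : Type*} [NormedAddCommGroup E] [NormedSpace ℝ E] {a b : Type*}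
    {F : E → Matrix a b ℂ} (hF : F2_P F) : F2_P (fun z => (F z)ᴴ) := by
  intro i j
  exact Complex.conjCLE.contDiff.comp (hF j i)

private theorem F2_add {E : Type*} [NormedAddCommGroup E] [NormedSpace ℝ E] {a b : Type*}
    {F G : E → Matrix a b ℂ} (hF : F2_P F) (hG : F2_P G) : F2_P (fun z => F z + G z) :=
  fun i j => (hF i j).add (hG i j)

private theorem F2_sub {E : Type*} [NormedAddCommGroup E] [NormedSpace ℝ E] {a b : Type*}
    {F G : E → Matrix a b ℂ} (hF : F2_P F) (hG : F2_P G) : F2_P (fun z => F z - G z) :=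
  fun i j => (hF i j).sub (hG i j)

private theorem F2_smul {E : Type*} [NormedAddCommGroup E] [NormedSpace ℝ E] {a b : Type*} (c : ℂ)
    {F : E → Matrix a b ℂ} (hF : F2_P F) : F2_P (fun z => c • F z) :=
  fun i j => (contDiff_const (c := c)).mul (hF i j)

omit [DecidableEq m] [DecidableEq n] in
private theorem F2_proj1 : F2_P (fun z : (m → n → ℂ) × (m → n → ℂ) × (n → n → ℂ) => (z.1 : Matrix m n ℂ)) := by
  intro i j
  exact contDiff_pi.1 (contDiff_pi.1 contDiff_fst i) j

omit [DecidableEq m] [DecidableEq n] in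
private theorem F2_proj2 : F2_P (fun z : (m → n → ℂ) × (m → n → ℂ) × (n → n → ℂ) => (z.2.1 : Matrix m n ℂ)) := by
  intro i j
  exact contDiff_pi.1 (contDiff_pi.1 (contDiff_fst.comp contDiff_snd) i) j

omit [DecidableEq m] [DecidableEq n] in
private theorem F2_proj3 : F2_P (fun z : (m → n → ℂ) × (m → n → ℂ) × (n → n → ℂ) => (z.2.2 : Matrix n n ℂ)) := by
  intro i j
  exact contDiff_pi.1 (contDiff_pi.1 (contDiff_snd.comp contDiff_snd) i) j

private noncomputable def F2_acc (κ : ℝ) (W U : Matrix m n ℂ) (R : Matrix n n ℂ) : Matrix m n ℂ :=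
  ((κ : ℂ) * Complex.I) • U - (2 : ℂ) • (U * R * Wᴴ * U)

private def F2_res (W U : Matrix m n ℂ) (R : Matrix n n ℂ) : Matrix n n ℂ :=
  R * (Uᴴ * W + Wᴴ * U) * R

private noncomputable def F2_v (κ : ℝ) (z : (m → n → ℂ) × (m → n → ℂ) × (n → n → ℂ)) :
    (m → n → ℂ) × (m → n → ℂ) × (n → n → ℂ) :=
  (z.2.1, fun i j => F2_acc κ z.1 z.2.1 z.2.2 i j, fun i j => F2_res z.1 z.2.1 z.2.2 i j)

omit [DecidableEq m] [DecidableEq n] in
private theorem F2_smooth (κ : ℝ) : ContDiff ℝ 1 (F2_v (m := m) (n := n) κ) := by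
  have h1 : F2_P (fun z : (m → n → ℂ) × (m → n → ℂ) × (n → n → ℂ) => F2_acc κ z.1 z.2.1 z.2.2) :=
    F2_sub (F2_smul _ F2_proj2) (F2_smul _ (F2_mul (F2_mul (F2_mul F2_proj2 F2_proj3) (F2_conj F2_proj1)) F2_proj2))
  have h2 : F2_P (fun z : (m → n → ℂ) × (m → n → ℂ) × (n → n → ℂ) => F2_res z.1 z.2.1 z.2.2) :=
    F2_mul (F2_mul F2_proj3 (F2_add (F2_mul (F2_conj F2_proj2) F2_proj1) (F2_mul (F2_conj F2_proj1) F2_proj2))) F2_proj3
  have h3 : ContDiff ℝ 1 (fun z : (m → n → ℂ) × (m → n → ℂ) × (n → n → ℂ) => fun i j => F2_acc κ z.1 z.2.1 z.2.2 i j) :=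
    contDiff_pi.2 (fun i => contDiff_pi.2 (fun j => h1 i j))
  have h4 : ContDiff ℝ 1 (fun z : (m → n → ℂ) × (m → n → ℂ) × (n → n → ℂ) => fun i j => F2_res z.1 z.2.1 z.2.2 i j) :=
    contDiff_pi.2 (fun i => contDiff_pi.2 (fun j => h2 i j))
  have h5 : ContDiff ℝ 1 (fun z : (m → n → ℂ) × (m → n → ℂ) × (n → n → ℂ) => z.2.1) :=
    contDiff_fst.comp contDiff_snd
  exact h5.prodMk (h3.prodMk h4)

private noncomputable def F2_c (x x' : ℝ → Matrix m n ℂ) (t : ℝ) : (m → n → ℂ) × (m → n → ℂ) × (n → n → ℂ) :=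
  (fun i j => x t i j, fun i j => x' t i j, fun i j => ((1 - (x t)ᴴ * x t)⁻¹ : Matrix n n ℂ) i j)

omit [DecidableEq m] [DecidableEq n] [Fintype m] [Fintype n] in
private theorem F2_hd [Fintype m] [Fintype n] {F : ℝ → Matrix m n ℂ} {F' : Matrix m n ℂ} {t : ℝ} (h : HD F F' t) :
    HasDerivAt (fun s => fun i j => F s i j) (fun i j => F' i j) t :=
  hasDerivAt_pi.2 (fun i => hasDerivAt_pi.2 (fun j => h i j))

private theorem F2_der {κ : ℝ} {x x' : ℝ → Matrix m n ℂ} (hx : Ode κ x x') (t : ℝ) :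
    HasDerivAt (F2_c x x') (F2_v κ (F2_c x x' t)) t := by
  have h1 := hx.vel t
  have h2 := hx.acc t
  have hdet : (1 - (x t)ᴴ * x t).det ≠ 0 := (show (1 - (x t)ᴴ * x t).PosDef from hx.mem t).det_pos.ne'
  have h3 : HD (fun s => 1 - (x s)ᴴ * x s) (0 - ((x' t)ᴴ * x t + (x t)ᴴ * x' t)) t :=
    HD.sub (HD.const 1 t) (HD.mul (HD.conj h1) h1)
  have h4 := HD.inv h3 hdet
  have h5 : HD (fun s => (1 - (x s)ᴴ * x s)⁻¹) (F2_res (x t) (x' t) (1 - (x t)ᴴ * x t)⁻¹) t := by
    refine HD.congr_deriv h4 ?_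
    unfold F2_res
    rw [zero_sub, Matrix.mul_neg, Matrix.neg_mul, neg_neg]
  exact (F2_hd h1).prodMk ((F2_hd h2).prodMk (F2_hd h5))

theorem ode_unique {κ : ℝ} {x x' y y' : ℝ → Matrix m n ℂ} (hx : Ode κ x x') (hy : Ode κ y y') (h0 : x 0 = y 0)
    (h1 : x' 0 = y' 0) : ∀ t, x t = y t := by
  have hloc : ∀ t₀, F2_c x x' t₀ = F2_c y y' t₀ → ∀ᶠ t in nhds t₀, F2_c x x' t = F2_c y y' t := by
    intro t₀ heq
    obtain ⟨K, s, hs, hL⟩ := (F2_smooth (m := m) (n := n) κ).contDiffAt (x := F2_c x x' t₀) |>.exists_lipschitzOnWith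
    have hs' : s ∈ nhds (F2_c y y' t₀) := by rw [← heq]; exact hs
    have e1 : ∀ᶠ t in nhds t₀, F2_c x x' t ∈ s := (F2_der hx t₀).continuousAt.eventually_mem hs
    have e2 : ∀ᶠ t in nhds t₀, F2_c y y' t ∈ s := (F2_der hy t₀).continuousAt.eventually_mem hs'
    exact ODE_solution_unique_of_eventually (v := fun _ => F2_v κ) (s := fun _ => s) (K := K)
      (Filter.Eventually.of_forall (fun _ => hL)) (e1.mono (fun t ht => ⟨F2_der hx t, ht⟩))
      (e2.mono (fun t ht => ⟨F2_der hy t, ht⟩)) heq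
  have hcx : Continuous (F2_c x x') := continuous_iff_continuousAt.2 (fun t => (F2_der hx t).continuousAt)
  have hcy : Continuous (F2_c y y') := continuous_iff_continuousAt.2 (fun t => (F2_der hy t).continuousAt)
  have hclopen : IsClopen {t | F2_c x x' t = F2_c y y' t} :=
    ⟨isClosed_eq hcx hcy, isOpen_iff_mem_nhds.2 (fun t ht => hloc t ht)⟩
  have h0' : (0:ℝ) ∈ {t | F2_c x x' t = F2_c y y' t} := by
    show F2_c x x' 0 = F2_c y y' 0
    unfold F2_c
    rw [h0, h1]
  have huniv := hclopen.eq_univ ⟨0, h0'⟩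
  intro t
  have h2 : t ∈ {t | F2_c x x' t = F2_c y y' t} := by
    rw [huniv]
    exact Set.mem_univ t
  exact congrArg Prod.fst h2

end Pool.Agent.MP_a98e84_gt.TG
end
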