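import Pool.Agent.Lib.MP_a98e84_gt.Mg.G001
import Pool.Agent.Lib.MP_a98e84_gt.TG.A0d
import Pool.Agent.Lib.MP_a98e84_gt.TG.A0
import Pool.Agent.Lib.MP_a98e84_gt.TG.Sp2
import Pool.Agent.Lib.MP_a98e84_gt.Mg.G002
import Pool.Agent.Lib.MP_a98e84_gt.Mg.G006
import Pool.Agent.Lib.MP_a98e84_gt.TG.F1
import Pool.Agent.Lib.MP_a98e84_gt.TG.C5

section

/-!
# TASK TG C3: transvections preserve the ball of a `J*`-algebra

(`mob_tv_mem`) `mob_tv`, `JStar.quasi` (with `det_one_add_ne`), `JStar.sandroot_inv` (with `tva_posDef`, `tvd_posDef`, `tva_sq`, `tvd_sq`). (`mob_tv_inv_mem`) `mob_tv_inv`, `ball_neg`.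
(`tva_mul_mem`) `JStar.sandroot`. (`diag_mem`) If `G = tv B * fromBlocks k1 0 0 k2` maps the ball of `V` to `V`, then `k1 Z k2ᴴ ∈ V` for `Z ∈ V`, `Ball Z`: it is `mob (tv B)⁻¹ (mob G Z)` (`mob_mul`, `mob_inv_mob`; 
`mob (fromBlocks k1 0 0 k2) Z = k1 * Z * k2ᴴ` as `k2⁻¹ = k2ᴴ`; `ball_unitary`, `ball_mob`), and for all `Z ∈ V` by scaling (`exists_smul_ball`).
-/

set_option autoImplicit false

namespace Pool.Agent.MP_a98e84_gt.TG

open Matrix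
open scoped ComplexOrder

variable {m n : Type*} [Fintype m] [Fintype n] [DecidableEq m] [DecidableEq n]


variable {V : Submodule ℂ (Matrix m n ℂ)} {B Z : Matrix m n ℂ}

theorem mob_tv_mem (hV : JStar V) (hB : B ∈ V) (hb : Ball B) (hZ : Z ∈ V) (hz : Ball Z) : mob (tv B) Z ∈ V := by
  rw [mob_tv hb hz]
  refine V.add_mem hB ?_
  have h1 : Z * (1 + Bᴴ * Z)⁻¹ ∈ V := hV.quasi hZ hB (det_one_add_ne hb hz)
  have h2 := hV.sandroot_inv hB hb (tva_posDef hb) (tvd_posDef hb) (tva_sq hb) (tvd_sq hb) h1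
  rwa [← Matrix.mul_assoc] at h2

theorem mob_tv_inv_mem (hV : JStar V) (hB : B ∈ V) (hb : Ball B) (hZ : Z ∈ V) (hz : Ball Z) : mob (tv B)⁻¹ Z ∈ V := by
  rw [mob_tv_inv hb hz]
  exact V.neg_mem (mob_tv_mem hV hB hb (V.neg_mem hZ) (ball_neg hz))

theorem tva_mul_mem (hV : JStar V) (hB : B ∈ V) (hb : Ball B) (hZ : Z ∈ V) : tva B * Z * tvd B ∈ V :=
  hV.sandroot hB hb (tva_posDef hb) (tvd_posDef hb) (tva_sq hb) (tvd_sq hb) hZ

theorem mob_diag {k1 : Matrix m m ℂ} {k2 : Matrix n n ℂ} (h2 : k2ᴴ * k2 = 1) (Z : Matrix m n ℂ) :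
    mob (fromBlocks k1 0 0 k2) Z = k1 * Z * k2ᴴ := by
  unfold mob
  rw [toBlocks_fromBlocks₁₁, toBlocks_fromBlocks₁₂, toBlocks_fromBlocks₂₁, toBlocks_fromBlocks₂₂,
    Matrix.zero_mul, add_zero, zero_add, inv_eq_left_inv h2]

theorem isU_diag {k1 : Matrix m m ℂ} {k2 : Matrix n n ℂ} (h1 : k1ᴴ * k1 = 1) (h2 : k2ᴴ * k2 = 1) :
    IsU (fromBlocks k1 0 0 k2) := by
  unfold IsU JJ
  rw [fromBlocks_conjTranspose, fromBlocks_multiply, fromBlocks_multiply]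
  simp [h1, h2]

theorem diag_mem (hV : JStar V) (hB : B ∈ V) (hb : Ball B) {k1 : Matrix m m ℂ} {k2 : Matrix n n ℂ} (h1 : k1ᴴ * k1 = 1)
    (h2 : k2ᴴ * k2 = 1) (h : ∀ Z ∈ V, Ball Z → mob (tv B * fromBlocks k1 0 0 k2) Z ∈ V) (hZ : Z ∈ V) :
    k1 * Z * k2ᴴ ∈ V := by
  obtain ⟨r, hr, hs⟩ := exists_smul_ball Z
  have hbz : Ball ((r : ℂ) • Z) := hs r (by rw [abs_of_pos hr])
  have hmz : (r : ℂ) • Z ∈ V := V.smul_mem _ hZ
  have hm := h _ hmz hbz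
  have hU1 := isU_tv hb
  have hU2 := isU_diag h1 h2
  rw [mob_mul hU1 hU2 hbz, mob_diag h2] at hm
  have hby : Ball (k1 * ((r : ℂ) • Z) * k2ᴴ) := ball_unitary hbz h1 h2
  have hm2 := mob_tv_inv_mem hV hB hb hm (ball_mob hU1 hby)
  rw [mob_inv_mob hU1 hby] at hm2
  have h3 : k1 * Z * k2ᴴ = (r : ℂ)⁻¹ • (k1 * ((r : ℂ) • Z) * k2ᴴ) := by
    have hr' : (r : ℂ) ≠ 0 := by exact_mod_cast hr.ne'
    rw [Matrix.mul_smul, Matrix.smul_mul, smul_smul, inv_mul_cancel₀ hr', one_smul]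
  rw [h3]
  exact V.smul_mem _ hm2

end Pool.Agent.MP_a98e84_gt.TG
end

section

/-!
# TASK TG C4: the stabiliser of `0`

`mob G 0 = B D⁻¹ = 0` (`D` is invertible by `IsU.det_ne` with `W = 0`), so `B = 0`; `c11`: `A Aᴴ = 1`, `c21`: `C Aᴴ = D Bᴴ = 0`, so `C = 0` (`A` is invertible); `r11`, `r22`.
-/

set_option autoImplicit false

namespace Pool.Agent.MP_a98e84_gt.TG

open Matrix
open scoped ComplexOrder

variable {m n : Type*} [Fintype m] [Fintype n] [DecidableEq m] [DecidableEq n]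


theorem stab_zero {G : Matrix (m ⊕ n) (m ⊕ n) ℂ} (hG : IsU G) (h : mob G 0 = 0) :
    ∃ (k1 : Matrix m m ℂ) (k2 : Matrix n n ℂ), G = fromBlocks k1 0 0 k2 ∧ k1ᴴ * k1 = 1 ∧ k2ᴴ * k2 = 1 := by
  have hdet : (G.toBlocks₂₁ * (0 : Matrix m n ℂ) + G.toBlocks₂₂).det ≠ 0 := hG.det_ne ball_zero
  have hdet2 : IsUnit (G.toBlocks₂₁ * (0 : Matrix m n ℂ) + G.toBlocks₂₂).det := isUnit_iff_ne_zero.mpr hdet
  have hB : G.toBlocks₁₂ = 0 := by
    have h1 : (G.toBlocks₁₁ * (0 : Matrix m n ℂ) + G.toBlocks₁₂) *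
        (G.toBlocks₂₁ * (0 : Matrix m n ℂ) + G.toBlocks₂₂)⁻¹ = 0 := h
    have h2 : (G.toBlocks₁₁ * (0 : Matrix m n ℂ) + G.toBlocks₁₂) *
        (G.toBlocks₂₁ * (0 : Matrix m n ℂ) + G.toBlocks₂₂)⁻¹ *
        (G.toBlocks₂₁ * (0 : Matrix m n ℂ) + G.toBlocks₂₂) = 0 := by
      rw [h1, Matrix.zero_mul]
    rw [Matrix.nonsing_inv_mul_cancel_right _ _ hdet2, Matrix.mul_zero, zero_add] at h2
    exact h2
  have h11 : G.toBlocks₁₁ * G.toBlocks₁₁ᴴ = 1 := by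
    have h1 := hG.c11
    rw [hB, Matrix.zero_mul, sub_zero] at h1
    exact h1
  have h11' : G.toBlocks₁₁ᴴ * G.toBlocks₁₁ = 1 := mul_eq_one_comm.mp h11
  have hC : G.toBlocks₂₁ = 0 := by
    have h1 := hG.c21
    rw [hB, Matrix.conjTranspose_zero, Matrix.mul_zero] at h1
    calc G.toBlocks₂₁ = G.toBlocks₂₁ * (G.toBlocks₁₁ᴴ * G.toBlocks₁₁) := by rw [h11', Matrix.mul_one]
      _ = G.toBlocks₂₁ * G.toBlocks₁₁ᴴ * G.toBlocks₁₁ := by rw [Matrix.mul_assoc]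
      _ = 0 := by rw [h1, Matrix.zero_mul]
  refine ⟨G.toBlocks₁₁, G.toBlocks₂₂, ?_, h11', ?_⟩
  · conv_lhs => rw [← Matrix.fromBlocks_toBlocks G]
    rw [hB, hC]
  · have h1 := hG.r22
    rw [hB, Matrix.conjTranspose_zero, Matrix.zero_mul, sub_zero] at h1
    exact h1

end Pool.Agent.MP_a98e84_gt.TG
end

section

/-!
# TASK TG C1c: the two point function `dd`

(`dd_mob`) `one_sub_mob` for the three pairs: the determinants are multiplied by `conj (det (C W + D)⁻¹) det (C Z + D)⁻¹` etc., the norms cancel. (`dd_self`) clear. (`dd_zero`) clear.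
(`eq_zero_of_dd`) `det (1 - Bᴴ B) = ∏ (1 - λ i)`, `λ i ∈ [0, 1)` the eigenvalues of the Hermitian matrix `Bᴴ B` (`Matrix.IsHermitian.det_eq_prod_eigenvalues` for `1 - Bᴴ B`, whose eigenvalues are in `(0, 1]`); if `1 / ‖det‖ ≤ 1` the product is `≥ 1`, so all
factors are `1`, so `1 - Bᴴ B` has all eigenvalues `1`, `Bᴴ B = 0`, `B = 0` (`Matrix.conjTranspose_mul_self_eq_zero`). (Another way: AM-GM: `det ≤ (tr / n) ^ n`.)
-/

set_option autoImplicit false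

namespace Pool.Agent.MP_a98e84_gt.TG

open Matrix
open scoped ComplexOrder

variable {m n : Type*} [Fintype m] [Fintype n] [DecidableEq m] [DecidableEq n]


variable {G : Matrix (m ⊕ n) (m ⊕ n) ℂ} {W Z B : Matrix m n ℂ}

theorem dd_mob (hG : IsU G) (hW : Ball W) (hZ : Ball Z) : dd (mob G W) (mob G Z) = dd W Z := by
  have hPW : ‖((G.toBlocks₂₁ * W + G.toBlocks₂₂)⁻¹).det‖ ≠ 0 := by
    rw [Matrix.det_nonsing_inv, Ring.inverse_eq_inv', norm_ne_zero_iff]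
    exact inv_ne_zero (hG.det_ne hW)
  have hPZ : ‖((G.toBlocks₂₁ * Z + G.toBlocks₂₂)⁻¹).det‖ ≠ 0 := by
    rw [Matrix.det_nonsing_inv, Ring.inverse_eq_inv', norm_ne_zero_iff]
    exact inv_ne_zero (hG.det_ne hZ)
  have hW1 : ‖(1 - Wᴴ * W).det‖ ≠ 0 := norm_ne_zero_iff.mpr hW.det_ne
  have hZ1 : ‖(1 - Zᴴ * Z).det‖ ≠ 0 := norm_ne_zero_iff.mpr hZ.det_ne
  unfold dd
  rw [one_sub_mob hG hW hZ, one_sub_mob hG hW hW, one_sub_mob hG hZ hZ]
  simp only [Matrix.det_mul, Matrix.det_conjTranspose, norm_mul, norm_star]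
  field_simp

theorem dd_self (hW : Ball W) : dd W W = 1 := by
  have h : ‖(1 - Wᴴ * W).det‖ ≠ 0 := norm_ne_zero_iff.mpr hW.det_ne
  unfold dd
  field_simp

theorem dd_zero (Z : Matrix m n ℂ) : dd 0 Z = 1 / ‖(1 - Zᴴ * Z).det‖ := by
  unfold dd
  simp

theorem eq_zero_of_dd (hB : Ball B) (h : dd 0 B ≤ 1) : B = 0 := by
  have hA : (1 - Bᴴ * B).PosDef := hB
  have hH : (1 - Bᴴ * B).IsHermitian := hA.1
  have hpos : ∀ i, 0 < hH.eigenvalues i := fun i => hA.eigenvalues_pos i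
  have hle : ∀ i, hH.eigenvalues i ≤ 1 := by
    intro i
    have h2 : (0 : ℂ) ≤ star ⇑(hH.eigenvectorBasis i) ⬝ᵥ ((Bᴴ * B) *ᵥ ⇑(hH.eigenvectorBasis i)) :=
      (Matrix.posSemidef_conjTranspose_mul_self B).dotProduct_mulVec_nonneg _
    have h2' := (Complex.le_def.mp h2).1
    have h4 : star ⇑(hH.eigenvectorBasis i) ⬝ᵥ ⇑(hH.eigenvectorBasis i) = (1 : ℂ) := by
      rw [dotProduct_comm, ← EuclideanSpace.inner_eq_star_dotProduct, inner_self_eq_norm_sq_to_K,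
        hH.eigenvectorBasis.orthonormal.1 i]
      simp
    have h3 := hH.eigenvalues_eq i
    rw [Matrix.sub_mulVec, Matrix.one_mulVec, dotProduct_sub, h4] at h3
    rw [h3]
    simp only [map_sub, RCLike.one_re, Complex.zero_re] at h2' ⊢
    have h5 : (0 : ℝ) ≤ RCLike.re (star ⇑(hH.eigenvectorBasis i) ⬝ᵥ ((Bᴴ * B) *ᵥ ⇑(hH.eigenvectorBasis i))) := h2'
    linarith
  have hd : ‖(1 - Bᴴ * B).det‖ = ∏ i, hH.eigenvalues i := by
    rw [hH.det_eq_prod_eigenvalues, norm_prod]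
    refine Finset.prod_congr rfl fun i _ => ?_
    rw [RCLike.norm_ofReal, abs_of_pos (hpos i)]
  have hp : 0 < ∏ i, hH.eigenvalues i := Finset.prod_pos fun i _ => hpos i
  have hge : 1 ≤ ∏ i, hH.eigenvalues i := by
    rw [dd_zero, hd, div_le_one hp] at h
    exact h
  have hone : ∀ i, hH.eigenvalues i = 1 := by
    intro i
    refine le_antisymm (hle i) ?_
    by_contra hlt
    rw [not_le] at hlt
    have h1 : ∏ j, hH.eigenvalues j < ∏ _j : n, (1 : ℝ) :=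
      Finset.prod_lt_prod (fun j _ => hpos j) (fun j _ => hle j) ⟨i, Finset.mem_univ i, hlt⟩
    rw [Finset.prod_const_one] at h1
    linarith
  have htr : (1 - Bᴴ * B).trace = (Fintype.card n : ℂ) := by
    rw [hH.trace_eq_sum_eigenvalues]
    simp [hone]
  rw [Matrix.trace_sub, Matrix.trace_one, sub_eq_self] at htr
  exact Matrix.trace_conjTranspose_mul_self_eq_zero_iff.mp htr

end Pool.Agent.MP_a98e84_gt.TG
end

section

/-!
# TASK TG D2: the first variation of the displacement at `0`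

Let `A, B, C, D` be the blocks of `G`. For `W` in the ball put `N W = C W + D - Wᴴ A W - Wᴴ B`, so that `1 - Wᴴ (mob G W) = N W * (C W + D)⁻¹`; with `one_sub_mob` for `1 - (mob G W)ᴴ (mob G W)`:
`dd W (mob G W) = ‖det (N W)‖² / ‖det (1 - Wᴴ W)‖²`. Let `Y ∈ V` and consider `W = s Y`, `s` real, small (`exists_smul_ball`). `N (s Y) = D + s (C Y - Yᴴ B) - s² Yᴴ A Y`, `HD` at `s = 0` with derivative `C Y - Yᴴ B`;
`HD.det`: `det (N (s Y))` has the derivative `det D * tr (D⁻¹ (C Y - Yᴴ B))` at `0`, and `det (1 - s² Yᴴ Y)` has the derivative `0` and the value `1`. So `s ↦ ‖det N‖² / ‖det (1 - s² Yᴴ Y)‖²` has the derivative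
`2 ‖det D‖² Re tr (D⁻¹ (C Y - Yᴴ B))` at `0` and a local minimum there (`IsLocalMin.hasDerivAt_eq_zero`): `Re tr (D⁻¹ C Y) = Re tr (D⁻¹ Yᴴ B) = Re tr (Yᴴ B D⁻¹)`, and `Re tr (D⁻¹ C Y) = Re tr (Yᴴ (D⁻¹ C)ᴴ)`. So
`Re tr (Yᴴ X) = 0` for `X = (D⁻¹ C)ᴴ - B D⁻¹ = -(mob G⁻¹ 0) - mob G 0`: `mob G 0 = B D⁻¹`, and by `IsU.inv_blocks` `mob G⁻¹ 0 = -Cᴴ (Dᴴ)⁻¹ = -(D⁻¹ C)ᴴ`. `X ∈ V`; take `Y = X`: `X = 0` (`eq_zero_of_trace`).
-/

set_option autoImplicit false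

namespace Pool.Agent.MP_a98e84_gt.TG

open Matrix
open scoped ComplexOrder

variable {m n : Type*} [Fintype m] [Fintype n] [DecidableEq m] [DecidableEq n]


/-- `dd W (mob G W)` in terms of the matrix `N`. -/
private theorem D2_dd {G : Matrix (m ⊕ n) (m ⊕ n) ℂ} (hG : IsU G) {W : Matrix m n ℂ}
    (hW : Ball W) :
    dd W (mob G W) = ‖(G.toBlocks₂₁ * W + G.toBlocks₂₂ -
      Wᴴ * (G.toBlocks₁₁ * W + G.toBlocks₁₂)).det‖ ^ 2 / ‖(1 - Wᴴ * W).det‖ ^ 2 := by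
  have hd := hG.det_ne hW
  have hq := hW.det_ne
  have hu : IsUnit (G.toBlocks₂₁ * W + G.toBlocks₂₂).det := isUnit_iff_ne_zero.2 hd
  have h1 : 1 - Wᴴ * mob G W = (G.toBlocks₂₁ * W + G.toBlocks₂₂ -
      Wᴴ * (G.toBlocks₁₁ * W + G.toBlocks₁₂)) * (G.toBlocks₂₁ * W + G.toBlocks₂₂)⁻¹ := by
    rw [Matrix.sub_mul, Matrix.mul_nonsing_inv _ hu, mob, Matrix.mul_assoc]
  have h2 := one_sub_mob hG hW hW
  rw [dd, h1, h2, Matrix.det_mul, Matrix.det_mul, Matrix.det_mul, Matrix.det_conjTranspose,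
    Matrix.det_nonsing_inv, Ring.inverse_eq_inv', norm_mul, norm_mul, norm_mul, norm_star,
    norm_inv]
  have e1 : ‖(G.toBlocks₂₁ * W + G.toBlocks₂₂).det‖ ≠ 0 := norm_ne_zero_iff.2 hd
  have e2 : ‖(1 - Wᴴ * W).det‖ ≠ 0 := norm_ne_zero_iff.2 hq
  field_simp

private theorem D2_path (A : Matrix m m ℂ) (B : Matrix m n ℂ) (C : Matrix n m ℂ) (D : Matrix n n ℂ)
    (Y : Matrix m n ℂ) (s : ℝ) :
    C * ((s : ℂ) • Y) + D - ((s : ℂ) • Y)ᴴ * (A * ((s : ℂ) • Y) + B) =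
      D + (s : ℂ) • (C * Y - Yᴴ * B) - ((s : ℂ) ^ 2) • (Yᴴ * (A * Y)) := by
  rw [Matrix.conjTranspose_smul]
  have hs : star (s : ℂ) = (s : ℂ) := Complex.conj_ofReal s
  rw [hs]
  simp only [Matrix.mul_smul, Matrix.smul_mul, Matrix.mul_add, smul_add, smul_sub, smul_smul,
    pow_two]
  abel

private theorem D2_path1 (Y : Matrix m n ℂ) (s : ℝ) :
    1 - ((s : ℂ) • Y)ᴴ * ((s : ℂ) • Y) = 1 - ((s : ℂ) ^ 2) • (Yᴴ * Y) := by
  rw [Matrix.conjTranspose_smul]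
  have hs : star (s : ℂ) = (s : ℂ) := Complex.conj_ofReal s
  rw [hs]
  simp only [Matrix.mul_smul, Matrix.smul_mul, smul_smul, pow_two]

private theorem D2_s1 : HasDerivAt (fun s : ℝ => (s : ℂ)) 1 0 := by
  simpa using (hasDerivAt_id (0 : ℝ)).ofReal_comp

private theorem D2_s2 : HasDerivAt (fun s : ℝ => (s : ℂ) ^ 2) 0 0 := by
  have h := D2_s1.pow 2
  refine h.congr_deriv ?_
  simp

private theorem D2_re (Y : Matrix m n ℂ) {G : Matrix (m ⊕ n) (m ⊕ n) ℂ} (hG : IsU G)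
    {V : Submodule ℂ (Matrix m n ℂ)} (hY : Y ∈ V)
    (hmin : ∀ W ∈ V, Ball W → dd 0 (mob G 0) ≤ dd W (mob G W)) :
    (trace (G.toBlocks₂₂⁻¹ * (G.toBlocks₂₁ * Y - Yᴴ * G.toBlocks₁₂))).re = 0 := by
  have hD : G.toBlocks₂₂.det ≠ 0 := by
    have h := hG.det_ne (ball_zero (m := m) (n := n))
    rwa [Matrix.mul_zero, zero_add] at h
  obtain ⟨r, hr, hball⟩ := exists_smul_ball Y
  -- the two curves
  have hN : HD (fun s : ℝ => G.toBlocks₂₂ + (s : ℂ) • (G.toBlocks₂₁ * Y - Yᴴ * G.toBlocks₁₂) -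
      ((s : ℂ) ^ 2) • (Yᴴ * (G.toBlocks₁₁ * Y)))
      (0 + (1 : ℂ) • (G.toBlocks₂₁ * Y - Yᴴ * G.toBlocks₁₂) -
        (0 : ℂ) • (Yᴴ * (G.toBlocks₁₁ * Y))) 0 :=
    HD.sub (HD.add (HD.const _ 0) (HD.smul_fun _ D2_s1)) (HD.smul_fun _ D2_s2)
  have hQ : HD (fun s : ℝ => 1 - ((s : ℂ) ^ 2) • (Yᴴ * Y))
      (0 - (0 : ℂ) • (Yᴴ * Y)) 0 := HD.sub (HD.const _ 0) (HD.smul_fun _ D2_s2)
  have e0 : G.toBlocks₂₂ + (((0 : ℝ) : ℂ)) • (G.toBlocks₂₁ * Y - Yᴴ * G.toBlocks₁₂) -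
      ((((0 : ℝ) : ℂ)) ^ 2) • (Yᴴ * (G.toBlocks₁₁ * Y)) = G.toBlocks₂₂ := by
    simp
  have e1 : (1 : Matrix n n ℂ) - ((((0 : ℝ) : ℂ)) ^ 2) • (Yᴴ * Y) = 1 := by
    simp
  have gN := HD.det hN (by
    rw [e0]
    exact hD)
  have gQ := HD.det hQ (by
    rw [e1, Matrix.det_one]
    exact one_ne_zero)
  rw [e0, one_smul, zero_smul, zero_add, sub_zero] at gN
  rw [e1, zero_smul, sub_zero, Matrix.det_one, Matrix.mul_zero, Matrix.trace_zero, mul_zero] at gQ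
  have kN := gN.norm_sq
  have kQ := gQ.norm_sq
  have hder := kN.sub (kQ.const_mul (‖G.toBlocks₂₂.det‖ ^ 2))
  have hloc : IsLocalMin (fun s : ℝ => ‖(G.toBlocks₂₂ + (s : ℂ) • (G.toBlocks₂₁ * Y -
      Yᴴ * G.toBlocks₁₂) - ((s : ℂ) ^ 2) • (Yᴴ * (G.toBlocks₁₁ * Y))).det‖ ^ 2 -
      ‖G.toBlocks₂₂.det‖ ^ 2 * ‖(1 - ((s : ℂ) ^ 2) • (Yᴴ * Y)).det‖ ^ 2) 0 := by
    have hnhds : ∀ᶠ s : ℝ in nhds 0, |s| ≤ r := by
      have h := (continuous_abs.tendsto (0 : ℝ)).eventually (p := fun z => z ≤ r) (by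
        rw [abs_zero]
        exact Iic_mem_nhds hr)
      exact h
    filter_upwards [hnhds] with s hs
    have hb := hball s hs
    have h1 := hmin _ (V.smul_mem (s : ℂ) hY) hb
    rw [D2_dd hG hb, D2_dd hG ball_zero, D2_path, D2_path1] at h1
    have z1 : G.toBlocks₂₁ * (0 : Matrix m n ℂ) + G.toBlocks₂₂ -
        (0 : Matrix m n ℂ)ᴴ * (G.toBlocks₁₁ * (0 : Matrix m n ℂ) + G.toBlocks₁₂) =
        G.toBlocks₂₂ := by simp
    have z2 : (1 : Matrix n n ℂ) - (0 : Matrix m n ℂ)ᴴ * (0 : Matrix m n ℂ) = 1 := by simp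
    rw [z1, z2, Matrix.det_one, norm_one, one_pow, div_one] at h1
    have hq := hb.det_ne
    rw [D2_path1] at hq
    have hq2 : 0 < ‖(1 - ((s : ℂ) ^ 2) • (Yᴴ * Y)).det‖ ^ 2 := by
      have := norm_pos_iff.2 hq
      positivity
    rw [le_div_iff₀ hq2] at h1
    rw [e0, e1, Matrix.det_one, norm_one]
    linarith
  have h2 := hloc.hasDerivAt_eq_zero hder
  have h3 : (trace (G.toBlocks₂₂⁻¹ * (G.toBlocks₂₁ * Y - Yᴴ * G.toBlocks₁₂))).re *
      ‖G.toBlocks₂₂.det‖ ^ 2 = 0 := by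
    have h4 : inner ℝ G.toBlocks₂₂.det (G.toBlocks₂₂.det *
        trace (G.toBlocks₂₂⁻¹ * (G.toBlocks₂₁ * Y - Yᴴ * G.toBlocks₁₂))) =
        (trace (G.toBlocks₂₂⁻¹ * (G.toBlocks₂₁ * Y - Yᴴ * G.toBlocks₁₂))).re *
      ‖G.toBlocks₂₂.det‖ ^ 2 := by
      generalize trace (G.toBlocks₂₂⁻¹ * (G.toBlocks₂₁ * Y - Yᴴ * G.toBlocks₁₂)) = z
      have h6 : G.toBlocks₂₂.det * z * (starRingEnd ℂ) G.toBlocks₂₂.det =
          (Complex.normSq G.toBlocks₂₂.det : ℂ) * z := by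
        rw [← Complex.mul_conj]
        ring
      rw [Complex.inner, h6, Complex.re_ofReal_mul, Complex.normSq_eq_norm_sq, mul_comm]
    have h5 : inner ℝ (Matrix.det (1 - (((0 : ℝ) : ℂ) ^ 2) • (Yᴴ * Y))) (0 : ℂ) = 0 :=
      inner_zero_right _
    rw [e0, h4, h5] at h2
    linarith
  rcases mul_eq_zero.1 h3 with h | h
  · exact h
  · exfalso
    exact (pow_ne_zero 2 (norm_ne_zero_iff.2 hD)) h

theorem crit {V : Submodule ℂ (Matrix m n ℂ)} {G : Matrix (m ⊕ n) (m ⊕ n) ℂ} (hG : IsU G) (h0 : mob G 0 ∈ V)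
    (h1 : mob G⁻¹ 0 ∈ V) (hmin : ∀ W ∈ V, Ball W → dd 0 (mob G 0) ≤ dd W (mob G W)) : mob G⁻¹ 0 = - mob G 0 := by
  have m0 : mob G 0 = G.toBlocks₁₂ * G.toBlocks₂₂⁻¹ := by
    rw [mob, Matrix.mul_zero, Matrix.mul_zero, zero_add, zero_add]
  have m1 : mob G⁻¹ 0 = -(G.toBlocks₂₂⁻¹ * G.toBlocks₂₁)ᴴ := by
    rw [mob, hG.inv_blocks, Matrix.mul_zero, Matrix.mul_zero, zero_add, zero_add,
      Matrix.toBlocks_fromBlocks₁₂, Matrix.toBlocks_fromBlocks₂₂, Matrix.neg_mul,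
      Matrix.conjTranspose_mul, Matrix.conjTranspose_nonsing_inv]
  have hX : -mob G⁻¹ 0 - mob G 0 ∈ V := V.sub_mem (V.neg_mem h1) h0
  have hre := D2_re (-mob G⁻¹ 0 - mob G 0) hG hX hmin
  have key : (trace ((-mob G⁻¹ 0 - mob G 0)ᴴ * (-mob G⁻¹ 0 - mob G 0))).re = 0 := by
    rw [← hre]
    have hX2 : -mob G⁻¹ 0 - mob G 0 =
        (G.toBlocks₂₂⁻¹ * G.toBlocks₂₁)ᴴ - G.toBlocks₁₂ * G.toBlocks₂₂⁻¹ := by
      rw [m0, m1, neg_neg]
    generalize -mob G⁻¹ 0 - mob G 0 = X at hX2 ⊢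
    have t1 : (trace (Xᴴ * (G.toBlocks₂₂⁻¹ * G.toBlocks₂₁)ᴴ)).re =
        (trace (G.toBlocks₂₂⁻¹ * G.toBlocks₂₁ * X)).re := by
      rw [← Matrix.conjTranspose_mul, Matrix.trace_conjTranspose]
      exact Complex.conj_re _
    have t2 : trace (Xᴴ * (G.toBlocks₁₂ * G.toBlocks₂₂⁻¹)) =
        trace (G.toBlocks₂₂⁻¹ * (Xᴴ * G.toBlocks₁₂)) := by
      rw [← Matrix.mul_assoc, Matrix.trace_mul_comm]
    have t3 : Xᴴ * X = Xᴴ * (G.toBlocks₂₂⁻¹ * G.toBlocks₂₁)ᴴ -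
        Xᴴ * (G.toBlocks₁₂ * G.toBlocks₂₂⁻¹) := by
      rw [← Matrix.mul_sub, ← hX2]
    rw [t3, Matrix.trace_sub, Complex.sub_re, t1, t2, Matrix.mul_sub, Matrix.trace_sub,
      Complex.sub_re, Matrix.mul_assoc]
  have hz := eq_zero_of_trace key
  rw [sub_eq_zero] at hz
  rw [← hz, neg_neg]

end Pool.Agent.MP_a98e84_gt.TG
end

section

/-!
# TASK TG D4: the displacement has a minimum

`FF V γ W = ∑ i, dd (W i) ((γ • W) i)`. (`FF_conj`) `η • W` has the coordinates `mob (H i) (W i)`, `H` a lift of `η`, and `γ • η • W = η • (η⁻¹ γ η) • W`; `dd_mob`. (`continuous_FF`) `continuousOn_dd`, `continuous_smul_dom`.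
(`exists_min`) (If `dom V` is empty... it contains `0`, `ball_zero`.) Let `K` be as in `exists_compact_dom`, `W₁ = 0`, `C = FF V γ W₁`. Let `S` be the set of the conjugates `γ' = η⁻¹ γ η` such that `FF V γ' W' ≤ C` for some `W' ∈ K`. `S` is finite: for such
`γ'`, `W'` all terms of the sum are `≤ C` (they are `≥ 0`), so by `dd_proper` (for the image of `K` in each coordinate) `(γ' • W') i` is in a compact subset `K' i` of the ball, so `γ' • W'` is in a compact subset `L` of `dom V`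
(`{W | ∀ i, W i ∈ V i ∩ K' i}`: closed in a compact product, `Subtype` embedding: `Topology.IsInducing.isCompact_iff` or `isCompact_iff_isCompact_univ`, `Subtype.isCompact_iff`); `ProperlyDiscontinuousSMul.finite_disjoint_inter_image` for `K`, `L`.
`S` is not empty: `W₁ = η • W'` with `W' = η⁻¹ • W₁ ∈ K`, `FF V (η⁻¹ γ η) W' = C`. For each `γ' ∈ S` the continuous function `FF V γ'` has a minimum on the compact nonempty `K`; let `(γ', W')` give the smallest of these finitely many minima,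
`γ' = η⁻¹ γ η`; then `W₀ = η • W'` is a minimum of `FF V γ`: for any `W` with `FF V γ W ≤ C` write `W = ζ • W''`, `W'' ∈ K`, `FF V γ W = FF V (ζ⁻¹ γ ζ) W''`, `ζ⁻¹ γ ζ ∈ S`; and if `FF V γ W > C` use `W₁`.
-/

set_option autoImplicit false

namespace Pool.Agent.MP_a98e84_gt.TG

open Matrix
open scoped ComplexOrder

variable {ι : Type} [Fintype ι] {p q : ι → ℕ}


private theorem D4_dd_nonneg {m n : Type*} [Fintype m] [Fintype n] [DecidableEq m] [DecidableEq n]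
    (W Z : Matrix m n ℂ) : 0 ≤ dd W Z := by
  unfold dd
  positivity

/-- the displacement of `γ` at `W` -/
noncomputable def FF (V : ∀ i, Submodule ℂ (Matrix (Fin (p i)) (Fin (q i)) ℂ)) {Γ : Type} [Group Γ]
    [MulAction Γ (dom V)] (γ : Γ) (W : dom V) : ℝ :=
  ∑ i, dd ((W : EE p q) i) (((γ • W : dom V) : EE p q) i)

theorem FF_conj (V : ∀ i, Submodule ℂ (Matrix (Fin (p i)) (Fin (q i)) ℂ)) {Γ : Type} [Group Γ]
    [MulAction Γ (dom V)] (hact : ∀ γ : Γ, ∃ G, Lifts V γ G) (γ η : Γ) (W : dom V) :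
    FF V γ (η • W) = FF V (η⁻¹ * γ * η) W := by
  obtain ⟨H, hH, hHa⟩ := hact η
  unfold FF
  apply Finset.sum_congr rfl
  intro i _
  have h1 : γ • η • W = η • ((η⁻¹ * γ * η) • W) := by
    rw [smul_smul, smul_smul]
    congr 1
    group
  rw [h1, hHa, hHa]
  exact dd_mob (hH i) (W.2 i).2 (((η⁻¹ * γ * η) • W : dom V).2 i).2

theorem continuous_FF (V : ∀ i, Submodule ℂ (Matrix (Fin (p i)) (Fin (q i)) ℂ)) {Γ : Type} [Group Γ]
    [MulAction Γ (dom V)] (hact : ∀ γ : Γ, ∃ G, Lifts V γ G) (γ : Γ) : Continuous (FF V γ) := by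
  have hterm : ∀ i, Continuous (fun W : dom V => dd ((W : EE p q) i) (((γ • W : dom V) : EE p q) i)) := by
    intro i
    have c1 : Continuous (fun W : dom V => (W : EE p q) i) := (continuous_apply i).comp continuous_subtype_val
    have c2 : Continuous (fun W : dom V => ((γ • W : dom V) : EE p q) i) :=
      c1.comp (continuous_smul_dom V hact γ)
    have h1 := c1.prodMk c2
    have h2 : ∀ W : dom V, (fun W : dom V => (((W : EE p q) i, ((γ • W : dom V) : EE p q) i) :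
        Matrix (Fin (p i)) (Fin (q i)) ℂ × Matrix (Fin (p i)) (Fin (q i)) ℂ)) W ∈
        {W : Matrix (Fin (p i)) (Fin (q i)) ℂ | Ball W} ×ˢ {W : Matrix (Fin (p i)) (Fin (q i)) ℂ | Ball W} := by
      intro W
      refine Set.mk_mem_prod ?_ ?_
      · exact (W.2 i).2
      · exact ((γ • W : dom V).2 i).2
    have h4 := continuousOn_dd (m := Fin (p i)) (n := Fin (q i))
    have h3 := ContinuousOn.comp_continuous h4 h1 h2
    exact h3
  exact continuous_finsetSum _ (fun i _ => hterm i)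

theorem exists_min (V : ∀ i, Submodule ℂ (Matrix (Fin (p i)) (Fin (q i)) ℂ)) {Γ : Type} [Group Γ]
    [MulAction Γ (dom V)] (hact : ∀ γ : Γ, ∃ G, Lifts V γ G) [ProperlyDiscontinuousSMul Γ (dom V)]
    [CompactSpace (Quotient (MulAction.orbitRel Γ (dom V)))] (γ : Γ) : ∃ W₀ : dom V, ∀ W : dom V, FF V γ W₀ ≤ FF V γ W := by
  obtain ⟨K, hK, hcov⟩ := exists_compact_dom V Γ hact
  have h0 : (0 : EE p q) ∈ dom V := fun i => ⟨Submodule.zero_mem _, ball_zero⟩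
  let W₁ : dom V := ⟨0, h0⟩
  let C : ℝ := FF V γ W₁
  have hterm : ∀ (γ' : Γ) (W : dom V) (i : ι),
      dd ((W : EE p q) i) (((γ' • W : dom V) : EE p q) i) ≤ FF V γ' W := by
    intro γ' W i
    exact Finset.single_le_sum (f := fun i => dd ((W : EE p q) i) (((γ' • W : dom V) : EE p q) i))
      (fun j _ => D4_dd_nonneg _ _) (Finset.mem_univ i)
  have hKi : ∀ i, IsCompact ((fun W : dom V => (W : EE p q) i) '' K) := fun i =>
    hK.image ((continuous_apply i).comp continuous_subtype_val)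
  have hKb : ∀ i, ∀ W ∈ (fun W : dom V => (W : EE p q) i) '' K, Ball W := by
    rintro i _ ⟨W, _, rfl⟩
    exact (W.2 i).2
  choose K' hK'c hK'b hK' using fun i => dd_proper (hKi i) (hKb i) C
  have hL : IsCompact {W : dom V | ∀ i, (W : EE p q) i ∈ K' i} := by
    rw [Subtype.isCompact_iff]
    have h1 : (Subtype.val '' {W : dom V | ∀ i, (W : EE p q) i ∈ K' i} : Set (EE p q)) =
        Set.univ.pi (fun i => (V i : Set (Matrix (Fin (p i)) (Fin (q i)) ℂ)) ∩ K' i) := by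
      ext W
      constructor
      · rintro ⟨W', hW', rfl⟩ i _
        exact ⟨(W'.2 i).1, hW' i⟩
      · intro hW
        exact ⟨⟨W, fun i => ⟨(hW i (Set.mem_univ i)).1, hK'b i _ (hW i (Set.mem_univ i)).2⟩⟩,
          fun i => (hW i (Set.mem_univ i)).2, rfl⟩
    rw [h1]
    apply isCompact_univ_pi
    intro i
    exact (hK'c i).inter_left (Submodule.closed_of_finiteDimensional (V i))
  let S : Set Γ := {γ' | (∃ η : Γ, γ' = η⁻¹ * γ * η) ∧ ∃ W' ∈ K, FF V γ' W' ≤ C}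
  have hSfin : S.Finite := by
    refine (ProperlyDiscontinuousSMul.finite_disjoint_inter_image (Γ := Γ) hK hL).subset ?_
    rintro γ' ⟨_, W', hW', hle⟩
    refine ⟨γ' • W', ⟨W', hW', rfl⟩, ?_⟩
    intro i
    exact hK' i _ ⟨W', hW', rfl⟩ _ (((γ' • W' : dom V).2 i).2) ((hterm γ' W' i).trans hle)
  have htrans : ∀ (W : dom V) (ζ : Γ), FF V γ W = FF V ((ζ⁻¹)⁻¹ * γ * ζ⁻¹) (ζ • W) := by
    intro W ζ
    have h1 := FF_conj V hact γ ζ⁻¹ (ζ • W)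
    rw [inv_smul_smul] at h1
    exact h1
  have hSne : S.Nonempty := by
    obtain ⟨ζ, hζ⟩ := hcov W₁
    exact ⟨(ζ⁻¹)⁻¹ * γ * ζ⁻¹, ⟨ζ⁻¹, rfl⟩, ζ • W₁, hζ, (htrans W₁ ζ).ge⟩
  have hKne : K.Nonempty := by
    obtain ⟨ζ, hζ⟩ := hcov W₁
    exact ⟨_, hζ⟩
  have hmin : ∀ γ' : Γ, ∃ W ∈ K, ∀ W' ∈ K, FF V γ' W ≤ FF V γ' W' := by
    intro γ'
    obtain ⟨W, hW, hm⟩ := hK.exists_isMinOn hKne (continuous_FF V hact γ').continuousOn
    exact ⟨W, hW, fun W' hW' => hm hW'⟩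
  choose wm hwm hwmin using hmin
  obtain ⟨γ₀, hγ₀, hγmin⟩ := Set.exists_min_image S (fun γ' => FF V γ' (wm γ')) hSfin hSne
  obtain ⟨⟨η, hη⟩, _⟩ := hγ₀
  have hval : FF V γ (η • wm γ₀) = FF V γ₀ (wm γ₀) := by
    rw [FF_conj V hact, ← hη]
  have hlow : ∀ W : dom V, FF V γ W ≤ C → FF V γ (η • wm γ₀) ≤ FF V γ W := by
    intro W hW
    obtain ⟨ζ, hζ⟩ := hcov W
    rw [hval, htrans W ζ]
    have hmem : (ζ⁻¹)⁻¹ * γ * ζ⁻¹ ∈ S := ⟨⟨ζ⁻¹, rfl⟩, ζ • W, hζ, (htrans W ζ) ▸ hW⟩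
    exact (hγmin _ hmem).trans (hwmin _ _ hζ)
  refine ⟨η • wm γ₀, fun W => ?_⟩
  by_cases hW : FF V γ W ≤ C
  · exact hlow W hW
  · exact (hlow W₁ le_rfl).trans (not_le.mp hW).le

end Pool.Agent.MP_a98e84_gt.TG
end

section

/-!
# TASK TG F3: the structure of a closed orbit

Let `W = x 0`, `a = tva W`, `d = tvd W`, `μ = a * x' 0 * d`, `M = tv W`, `E` from `exists_flow (xi κ μ)`. The blocks: `M₁₁ = a`, `M₂₂ = d`, so `dmob M 0 μ = (aᴴ)⁻¹ μ d⁻¹ = x' 0`, `mob M 0 = W`. `frame_ode` and `ode_unique`: `x t = mob (M * E t) 0`.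
For `t ∈ [0, 1]`: `mob G (mob (M E t) 0) = mob (M E (t + T)) 0 = mob (M * E T * E t) 0`. Let `K = (E T)⁻¹ * M⁻¹ * G * M` (`IsU`); then `mob K (mob (E t) 0) = mob (E t) 0` (`mob_mul`, `mob_inv_mob`). `t = 0`: `mob K 0 = 0`, `stab_zero`: `K = fromBlocks k1 0 0 k2`.
`mob K Z = k1 Z k2ᴴ` (`mob_diag`). So `k1 * mob (E t) 0 * k2ᴴ = mob (E t) 0` on `[0, 1]`; the derivative at `0` (from the right: two functions which agree on `[0, 1]` and are differentiable at `0` have the same derivative, `HasDerivWithinAt` on `Set.Icc 0 1`,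
`UniqueDiffWithinAt`) is `dmob 1 0 μ = μ` (`frame_ode` with `M = 1`), so `k1 μ k2ᴴ = μ`, `k1 μ = μ k2`. `M⁻¹ G M = E T * K`.
(`hm_eq`) `(1 - W Wᴴ)⁻¹ = a * a`, `(1 - Wᴴ W)⁻¹ = d * d`, `a`, `d` Hermitian; cyclicity.
-/

set_option autoImplicit false

namespace Pool.Agent.MP_a98e84_gt.TG

open Matrix
open scoped ComplexOrder

variable {m n : Type*} [Fintype m] [Fintype n] [DecidableEq m] [DecidableEq n]


private theorem F3_a_unit {W : Matrix m n ℂ} (hW : Ball W) : IsUnit (tva W).det := by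
  have h1 := tva_sq hW
  rw [Matrix.mul_assoc] at h1
  exact Matrix.isUnit_det_of_right_inverse h1

private theorem F3_d_unit {W : Matrix m n ℂ} (hW : Ball W) : IsUnit (tvd W).det := by
  have h1 := tvd_sq hW
  rw [Matrix.mul_assoc] at h1
  exact Matrix.isUnit_det_of_right_inverse h1

theorem hm_eq {W : Matrix m n ℂ} (hW : Ball W) (U : Matrix m n ℂ) :
    hm W U U = trace ((tva W * U * tvd W) * (tva W * U * tvd W)ᴴ) := by
  have ha : (tva W)ᴴ = tva W := (tva_posDef hW).isHermitian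
  have hd : (tvd W)ᴴ = tvd W := (tvd_posDef hW).isHermitian
  have h1 : (1 - W * Wᴴ)⁻¹ = tva W * tva W := Matrix.inv_eq_left_inv (tva_sq hW)
  have h2 : (1 - Wᴴ * W)⁻¹ = tvd W * tvd W := Matrix.inv_eq_left_inv (tvd_sq hW)
  unfold hm
  rw [h1, h2]
  simp only [Matrix.conjTranspose_mul, ha, hd]
  have h3 : tva W * tva W * U * (tvd W * tvd W) * Uᴴ = tva W * (tva W * U * tvd W * (tvd W * Uᴴ)) := by
    simp only [Matrix.mul_assoc]
  rw [h3, Matrix.trace_mul_comm]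
  congr 1
  simp only [Matrix.mul_assoc]

private theorem F3_dmob_tv {W : Matrix m n ℂ} (hW : Ball W) (U : Matrix m n ℂ) :
    dmob (tv W) 0 (tva W * U * tvd W) = U := by
  have ha : (tva W)ᴴ = tva W := (tva_posDef hW).isHermitian
  unfold dmob tv
  rw [Matrix.toBlocks_fromBlocks₁₁, Matrix.toBlocks_fromBlocks₁₂, Matrix.toBlocks_fromBlocks₂₁,
    Matrix.toBlocks_fromBlocks₂₂, Matrix.zero_mul, add_zero, Matrix.mul_zero, zero_add, ha]
  have h1 : (tva W)⁻¹ * (tva W * U * tvd W) * (tvd W)⁻¹ =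
      ((tva W)⁻¹ * tva W) * U * (tvd W * (tvd W)⁻¹) := by
    simp only [Matrix.mul_assoc]
  rw [h1, Matrix.nonsing_inv_mul _ (F3_a_unit hW), Matrix.mul_nonsing_inv _ (F3_d_unit hW),
    Matrix.one_mul, Matrix.mul_one]

omit [Fintype m] [Fintype n] in
private theorem F3_blocks_one : (1 : Matrix (m ⊕ n) (m ⊕ n) ℂ).toBlocks₁₁ = 1 ∧
    (1 : Matrix (m ⊕ n) (m ⊕ n) ℂ).toBlocks₁₂ = 0 ∧ (1 : Matrix (m ⊕ n) (m ⊕ n) ℂ).toBlocks₂₁ = 0 ∧
    (1 : Matrix (m ⊕ n) (m ⊕ n) ℂ).toBlocks₂₂ = 1 := by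
  rw [← Matrix.fromBlocks_one]
  exact ⟨Matrix.toBlocks_fromBlocks₁₁ _ _ _ _, Matrix.toBlocks_fromBlocks₁₂ _ _ _ _,
    Matrix.toBlocks_fromBlocks₂₁ _ _ _ _, Matrix.toBlocks_fromBlocks₂₂ _ _ _ _⟩

private theorem F3_dmob_one (U : Matrix m n ℂ) : dmob 1 0 U = U := by
  obtain ⟨h1, h2, h3, h4⟩ := F3_blocks_one (m := m) (n := n)
  unfold dmob
  rw [h1, h2, h3, h4]
  simp

omit [Fintype m] [Fintype n] [DecidableEq m] [DecidableEq n] in
private theorem F3_unique {F : ℝ → Matrix m n ℂ} {A B : Matrix m n ℂ} {H : ℝ → Matrix m n ℂ}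
    (hF : HD F A 0) (hH : HD H B 0) (h : ∀ t ∈ Set.Icc (0 : ℝ) 1, F t = H t) : A = B := by
  ext i j
  have h1 : HasDerivWithinAt (fun s => F s i j) (A i j) (Set.Icc (0 : ℝ) 1) 0 :=
    (hF i j).hasDerivWithinAt
  have h2 : HasDerivWithinAt (fun s => H s i j) (B i j) (Set.Icc (0 : ℝ) 1) 0 :=
    (hH i j).hasDerivWithinAt
  have h0 : (0 : ℝ) ∈ Set.Icc (0 : ℝ) 1 := ⟨le_refl _, zero_le_one⟩
  have h3 : HasDerivWithinAt (fun s => F s i j) (B i j) (Set.Icc (0 : ℝ) 1) 0 :=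
    h2.congr (fun t ht => by rw [h t ht]) (by rw [h 0 h0])
  exact (uniqueDiffOn_Icc zero_lt_one 0 h0).eq_deriv _ h1 h3

theorem closed_frame {κ : ℝ} {x x' : ℝ → Matrix m n ℂ} (h : Ode κ x x') {G : Matrix (m ⊕ n) (m ⊕ n) ℂ} (hG : IsU G) {T : ℝ}
    (hper : ∀ t ∈ Set.Icc (0 : ℝ) 1, mob G (x t) = x (t + T)) :
    ∃ (M : Matrix (m ⊕ n) (m ⊕ n) ℂ) (E : ℝ → Matrix (m ⊕ n) (m ⊕ n) ℂ) (k1 : Matrix m m ℂ) (k2 : Matrix n n ℂ),
      IsU M ∧ IsFlow (xi κ (tva (x 0) * x' 0 * tvd (x 0))) E ∧ k1ᴴ * k1 = 1 ∧ k2ᴴ * k2 = 1 ∧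
      k1 * (tva (x 0) * x' 0 * tvd (x 0)) = (tva (x 0) * x' 0 * tvd (x 0)) * k2 ∧
      M⁻¹ * G * M = E T * fromBlocks k1 0 0 k2 := by
  have hW : Ball (x 0) := h.mem 0
  have hM : IsU (tv (x 0)) := isU_tv hW
  obtain ⟨E, hE⟩ := exists_flow (xi κ (tva (x 0) * x' 0 * tvd (x 0)))
  have hEU : ∀ t, IsU (E t) := fun t => flow_isU hE t
  -- the orbit
  have hx : ∀ t, x t = mob (tv (x 0) * E t) 0 := by
    refine ode_unique h (frame_ode hM hE) ?_ ?_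
    · show x 0 = mob (tv (x 0) * E 0) 0
      rw [hE.zero, Matrix.mul_one, mob_tv_zero hW]
    · show x' 0 = dmob (tv (x 0) * E 0) 0 (tva (x 0) * x' 0 * tvd (x 0))
      rw [hE.zero, Matrix.mul_one, F3_dmob_tv hW]
  have hball : ∀ t, Ball (mob (E t) 0) := fun t => ball_mob (hEU t) ball_zero
  have hx2 : ∀ t, x t = mob (tv (x 0)) (mob (E t) 0) := by
    intro t
    rw [← mob_mul hM (hEU t) ball_zero]
    exact hx t
  have hP : IsU (tv (x 0) * E T) := hM.mul (hEU T)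
  have hK : IsU ((tv (x 0) * E T)⁻¹ * G * tv (x 0)) := (hP.inv.mul hG).mul hM
  have hKZ : ∀ t ∈ Set.Icc (0 : ℝ) 1,
      mob ((tv (x 0) * E T)⁻¹ * G * tv (x 0)) (mob (E t) 0) = mob (E t) 0 := by
    intro t ht
    rw [mob_mul (hP.inv.mul hG) hM (hball t), ← hx2 t, mob_mul hP.inv hG (h.mem t), hper t ht,
      hx (t + T), add_comm t T, hE.add T t, ← Matrix.mul_assoc,
      mob_mul hP (hEU t) ball_zero, mob_inv_mob hP (hball t)]
  have hK0 : mob ((tv (x 0) * E T)⁻¹ * G * tv (x 0)) 0 = 0 := by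
    have h1 := hKZ 0 ⟨le_refl _, zero_le_one⟩
    rw [hE.zero, mob_one] at h1
    exact h1
  obtain ⟨k1, k2, hKeq, hk1, hk2⟩ := stab_zero hK hK0
  refine ⟨tv (x 0), E, k1, k2, hM, hE, hk1, hk2, ?_, ?_⟩
  · -- the derivative at 0
    have hode := frame_ode (M := (1 : Matrix (m ⊕ n) (m ⊕ n) ℂ)) IsU.one hE
    have hd0 : HD (fun t => mob (E t) 0) (tva (x 0) * x' 0 * tvd (x 0)) 0 := by
      have h1 := hode.vel 0
      simp only [Matrix.one_mul, hE.zero, F3_dmob_one] at h1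
      exact h1
    have hd1 : HD (fun t => k1 * mob (E t) 0 * k2ᴴ)
        (k1 * (tva (x 0) * x' 0 * tvd (x 0)) * k2ᴴ) 0 := (HD.const_mul k1 hd0).mul_const k2ᴴ
    have h2 : k1 * (tva (x 0) * x' 0 * tvd (x 0)) * k2ᴴ = tva (x 0) * x' 0 * tvd (x 0) := by
      refine F3_unique hd1 hd0 fun t ht => ?_
      rw [← mob_diag hk2, ← hKeq]
      exact hKZ t ht
    have h3 : k1 * (tva (x 0) * x' 0 * tvd (x 0)) * k2ᴴ * k2 =
        tva (x 0) * x' 0 * tvd (x 0) * k2 := by rw [h2]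
    rw [Matrix.mul_assoc _ k2ᴴ k2, hk2, Matrix.mul_one] at h3
    exact h3
  · rw [← hKeq, Matrix.mul_inv_rev]
    have h4 : E T * ((E T)⁻¹ * (tv (x 0))⁻¹ * G * tv (x 0)) =
        (E T * (E T)⁻¹) * ((tv (x 0))⁻¹ * G * tv (x 0)) := by
      simp only [Matrix.mul_assoc]
    rw [h4, Matrix.mul_nonsing_inv _ (hEU T).isUnit_det, Matrix.one_mul]

end Pool.Agent.MP_a98e84_gt.TG
end

section

/-!
# TASK TG F6: one element of the group for a whole interval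

`K = {x t | t ∈ [0, 1]}` and `L = {x (t + T) | t ∈ [0, 1]}` are compact subsets of `dom V` (continuous images), so only finitely many `γ` satisfy `γ • K ∩ L ≠ ∅` (`ProperlyDiscontinuousSMul.finite_disjoint_inter_image`). For each of them `C γ = {t ∈ [0, 1] | γ • x t = x (t + T)}` is closed
(`continuous_smul_dom`, `dom V` is Hausdorff), the sets cover `[0, 1]`, and they are pairwise disjoint (`γ • W = γ' • W` gives `γ'⁻¹ γ = 1` by freeness). `[0, 1]` is connected, so one of them is all of `[0, 1]` (take `γ` with `0 ∈ C γ`; `C γ` and the finite union of the others are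
closed, disjoint and cover: `IsPreconnected`, `isPreconnected_closed_iff` or `IsClopen`).
-/

set_option autoImplicit false

namespace Pool.Agent.MP_a98e84_gt.TG

open Matrix
open scoped ComplexOrder

variable {ι : Type} [Fintype ι] {p q : ι → ℕ}


theorem single_gamma (V : ∀ i, Submodule ℂ (Matrix (Fin (p i)) (Fin (q i)) ℂ)) {Γ : Type} [Group Γ]
    [MulAction Γ (dom V)] (hact : ∀ γ : Γ, ∃ G, Lifts V γ G) (hfree : ∀ (γ : Γ) (W : dom V), γ • W = W → γ = 1)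
    [ProperlyDiscontinuousSMul Γ (dom V)] {x : ℝ → dom V} (hx : Continuous x) {T : ℝ}
    (h : ∀ t, ∃ γ : Γ, γ • x t = x (t + T)) : ∃ γ : Γ, ∀ t ∈ Set.Icc (0 : ℝ) 1, γ • x t = x (t + T) := by
  have hxT : Continuous fun t => x (t + T) := hx.comp (continuous_add_const T)
  have hK : IsCompact (x '' Set.Icc (0 : ℝ) 1) := isCompact_Icc.image hx
  have hL : IsCompact ((fun t => x (t + T)) '' Set.Icc (0 : ℝ) 1) := isCompact_Icc.image hxT
  have hfin := ProperlyDiscontinuousSMul.finite_disjoint_inter_image (Γ := Γ) hK hL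
  obtain ⟨γ0, h0⟩ := h 0
  refine ⟨γ0, ?_⟩
  have hclosed : ∀ γ : Γ, IsClosed {t : ℝ | γ • x t = x (t + T)} := fun γ =>
    isClosed_eq ((continuous_smul_dom V hact γ).comp hx) hxT
  have hC2 : IsClosed (⋃ γ ∈ {γ : Γ | (((γ • ·) '' (x '' Set.Icc (0 : ℝ) 1)) ∩
      ((fun t => x (t + T)) '' Set.Icc (0 : ℝ) 1)).Nonempty} \ {γ0}, {t : ℝ | γ • x t = x (t + T)}) :=
    (hfin.subset fun _ h => h.1).isClosed_biUnion fun γ _ => hclosed γ
  have hcov : Set.Icc (0 : ℝ) 1 ⊆ {t : ℝ | γ0 • x t = x (t + T)} ∪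
      ⋃ γ ∈ {γ : Γ | (((γ • ·) '' (x '' Set.Icc (0 : ℝ) 1)) ∩
      ((fun t => x (t + T)) '' Set.Icc (0 : ℝ) 1)).Nonempty} \ {γ0}, {t : ℝ | γ • x t = x (t + T)} := by
    intro t ht
    obtain ⟨γ, hγ⟩ := h t
    by_cases hg : γ = γ0
    · left
      rw [← hg]
      exact hγ
    · right
      refine Set.mem_iUnion₂.2 ⟨γ, ⟨?_, hg⟩, hγ⟩
      exact ⟨x (t + T), ⟨x t, ⟨t, ht, rfl⟩, hγ⟩, ⟨t, ht, rfl⟩⟩
  intro t ht
  by_contra hne
  have h1 : (Set.Icc (0 : ℝ) 1 ∩ {t : ℝ | γ0 • x t = x (t + T)}).Nonempty :=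
    ⟨0, Set.left_mem_Icc.2 zero_le_one, h0⟩
  have h2 : (Set.Icc (0 : ℝ) 1 ∩ ⋃ γ ∈ {γ : Γ | (((γ • ·) '' (x '' Set.Icc (0 : ℝ) 1)) ∩
      ((fun t => x (t + T)) '' Set.Icc (0 : ℝ) 1)).Nonempty} \ {γ0}, {t : ℝ | γ • x t = x (t + T)}).Nonempty :=
    ⟨t, ht, (hcov ht).resolve_left hne⟩
  obtain ⟨s, _, hs1, hs2⟩ := isPreconnected_closed_iff.1 isPreconnected_Icc _ _ (hclosed γ0) hC2
    hcov h1 h2
  obtain ⟨γ, hγ, hs3⟩ := Set.mem_iUnion₂.1 hs2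
  apply hγ.2
  have h3 : γ • x s = γ0 • x s := (show γ • x s = x (s + T) from hs3).trans
    (show γ0 • x s = x (s + T) from hs1).symm
  have h4 : (γ0⁻¹ * γ) • x s = x s := by
    rw [mul_smul, h3, inv_smul_smul]
  exact (inv_mul_eq_one.1 (hfree _ _ h4)).symm

end Pool.Agent.MP_a98e84_gt.TG
end
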