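import Pool.Agent.Lib.MP_a98e84_gt.TG.D5
import Pool.Agent.Lib.MP_a98e84_gt.TG.B3b
import Pool.Agent.Lib.MP_a98e84_gt.TG.B4b
import Pool.Agent.Lib.MP_a98e84_gt.TG.C5
import Pool.Agent.Lib.MP_a98e84_gt.Mg.G002
import Pool.Agent.Lib.MP_a98e84_gt.Mg.G001
import Pool.Agent.Lib.MP_a98e84_gt.TG.B5
import Pool.Agent.Lib.MP_a98e84_gt.TG.F1
import Pool.Agent.Lib.MP_a98e84_gt.TG.Sp2
import Pool.Agent.Lib.MP_a98e84_gt.Mg.G004
import Pool.Agent.Lib.MP_a98e84_gt.TG.A3a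

section

/-!
# TASK TG E1: closed orbits in the class of `γ` above the level `∑ rank (B i) b i ² / (8 a i)`

`κ i = b i / a i`. For each `i` let `B i = pl (E i) (β i)` be the decomposition of `trip_decomp`, `0 < β i j < 1` (`Trip.lt_one`), `β i j = tanh (s i j)`, `s i j > 0` (`Real.tanh` is onto `(-1, 1)`: intermediate values, or `Real.artanh`), `m i j = rank (E i j) > 0`,
`∑ j, m i j = rank (B i)` (`Trip.rank_pl`). Let `S = ∑ i, (a i / 2) ∑ j, m i j (s i j)²`; `S > 0` since some `B i ≠ 0` (so `k i > 0`). Let `c₁ = ∑ rank (B i) b i ² / (8 a i) < c` and `T₀ = √(S / (c - c₁))`. `disc_hyp` for `κ i, s i j, T₀` gives `w i j`,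
`w' i j`; `X i t = pl (E i) (w i · t)`. `ode_pl`; `X i t ∈ V i` (`pl_mem`), `Ball`. `mob (tv (B i)) (X i t) = X i (t + T₀)` (`mob_tv_pl`), `k1 i * X i t * (k2 i)ᴴ = X i t` (`k1 E j = E j k2`, unitarity), so
`mob ((T i)⁻¹ * G i * T i) (X i t) = X i (t + T₀)` (`conj`, `mob_mul`, `mob_diag`, `isU_diag`). Let `x t i = mob (T i) (X i t)`, `x' t i = dmob (T i) (X i t) (X' i t)`: `ode_mob`; `x t ∈ dom V` by `maps`; `mob (G i) (x t i) = mob (T i) (X i (t + T₀)) = x (t + T₀) i`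
(`mob_mul`, `mob_mob_inv`). `sol_of_ode`. Energy: `hm_dmob`, `Trip.hm_pl`: `met / 2 = ∑ i, (a i / 2) ∑ j, m i j (s i j ² / T₀² + κ i ² / 4) = S / T₀² + c₁ = c`.
-/

set_option autoImplicit false

namespace Pool.Agent.MP_a98e84_gt.TG

open Matrix
open scoped ComplexOrder

variable {ι : Type} [Fintype ι] {p q : ι → ℕ}


private theorem E1_rank_zero {m n : ℕ} {A : Matrix (Fin m) (Fin n) ℂ} (h : A.rank = 0) : A = 0 := by
  rw [Matrix.rank] at h
  have h1 : LinearMap.range A.mulVecLin = ⊥ := Submodule.finrank_eq_zero.mp h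
  have h2 : A.mulVecLin = 0 := LinearMap.range_eq_bot.mp h1
  ext i j
  have h3 := congrArg (fun f : (Fin n → ℂ) →ₗ[ℂ] (Fin m → ℂ) => f (Pi.single j 1) i) h2
  simpa using h3

theorem high_orbit (V : ∀ i, Submodule ℂ (Matrix (Fin (p i)) (Fin (q i)) ℂ)) (hV : ∀ i, JStar (V i)) {a b : ι → ℝ}
    (ha : ∀ i, 0 < a i) {Γ : Type} [Group Γ] [MulAction Γ (dom V)] {γ : Γ}
    {G T : ∀ i, Matrix (Fin (p i) ⊕ Fin (q i)) (Fin (p i) ⊕ Fin (q i)) ℂ} {B : EE p q}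
    {k1 : ∀ i, Matrix (Fin (p i)) (Fin (p i)) ℂ} {k2 : ∀ i, Matrix (Fin (q i)) (Fin (q i)) ℂ}
    (hG : Lifts V γ G) (hNF : NF V G T B k1 k2) {c : ℝ} (hc : ∑ i, ((B i).rank : ℝ) * b i ^ 2 / (8 * a i) < c) :
    ∃ (x x' : ℝ → EE p q) (T₀ : ℝ), Sol (dom V) {v | ∀ i, v i ∈ V i} (met a) (frm b) x x' ∧
      (∀ t, met a (x t) (x' t) (x' t) / 2 = c) ∧ 0 < T₀ ∧
      ∀ t (h : x t ∈ dom V) (h' : x (t + T₀) ∈ dom V), γ • (⟨x t, h⟩ : dom V) = ⟨x (t + T₀), h'⟩ := by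
  classical
  choose k β E hE hβ0 hne hEV hBE hcomm using fun i => trip_decomp (hV i) (hNF.mem i).1
  have hβ1 : ∀ i j, β i j < 1 := fun i j =>
    (hE i).lt_one (hne i) (hβ0 i) (by rw [← hBE i]; exact (hNF.mem i).2) j
  -- ranks
  have hrk : ∀ i j, 0 < (E i j).rank := by
    intro i j
    rcases Nat.eq_zero_or_pos (E i j).rank with h0 | h0
    · exact absurd (E1_rank_zero h0) (hne i j)
    · exact h0
  have hrB : ∀ i, (B i).rank = ∑ j, (E i j).rank := by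
    intro i
    rw [hBE i]
    exact (hE i).rank_pl (fun j => by
      have := hβ0 i j
      exact_mod_cast this.ne')
  set s : ∀ i, Fin (k i) → ℝ := fun i j => Real.artanh (β i j) with hs_def
  have hs0 : ∀ i j, 0 < s i j := fun i j => Real.artanh_pos ⟨hβ0 i j, hβ1 i j⟩
  have hts : ∀ i j, Real.tanh (s i j) = β i j := fun i j =>
    Real.tanh_artanh ⟨by linarith [hβ0 i j], hβ1 i j⟩
  set S : ℝ := ∑ i, (a i / 2) * ∑ j, ((E i j).rank : ℝ) * (s i j) ^ 2 with hS_def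
  have hterm : ∀ i, 0 ≤ (a i / 2) * ∑ j, ((E i j).rank : ℝ) * (s i j) ^ 2 := by
    intro i
    have := ha i
    have h2 : 0 ≤ ∑ j, ((E i j).rank : ℝ) * (s i j) ^ 2 := Finset.sum_nonneg (fun j _ => by positivity)
    positivity
  have hSpos : 0 < S := by
    obtain ⟨i, hi⟩ := hNF.ne
    have hk : 0 < k i := by
      rcases Nat.eq_zero_or_pos (k i) with h0 | h0
      · exfalso
        apply hi
        rw [hBE i]
        unfold pl
        apply Finset.sum_eq_zero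
        intro j _
        exact absurd j.2 (by omega)
      · exact h0
    apply Finset.sum_pos' (fun i _ => hterm i)
    refine ⟨i, Finset.mem_univ _, ?_⟩
    have := ha i
    apply mul_pos (by linarith)
    apply Finset.sum_pos' (fun j _ => by positivity)
    refine ⟨⟨0, hk⟩, Finset.mem_univ _, ?_⟩
    have h1 := hrk i ⟨0, hk⟩
    have h2 := hs0 i ⟨0, hk⟩
    have h1' : (0 : ℝ) < ((E i ⟨0, hk⟩).rank : ℝ) := by exact_mod_cast h1
    positivity
  set c₁ : ℝ := ∑ i, ((B i).rank : ℝ) * b i ^ 2 / (8 * a i) with hc₁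
  have hcc : 0 < c - c₁ := by linarith
  set T₀ : ℝ := Real.sqrt (S / (c - c₁)) with hT₀
  have hT₀pos : 0 < T₀ := Real.sqrt_pos.mpr (div_pos hSpos hcc)
  have hT₀sq : T₀ ^ 2 = S / (c - c₁) := Real.sq_sqrt (div_pos hSpos hcc).le
  have hST : S / T₀ ^ 2 = c - c₁ := by
    rw [hT₀sq]
    field_simp
  choose w w' hw hwT hwE using fun i j => disc_hyp (b i / a i) (hs0 i j) hT₀pos
  set X : ∀ i, ℝ → Matrix (Fin (p i)) (Fin (q i)) ℂ := fun i t => pl (E i) (fun j => w i j t) with hX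
  set X' : ∀ i, ℝ → Matrix (Fin (p i)) (Fin (q i)) ℂ := fun i t => pl (E i) (fun j => w' i j t) with hX'
  have hOde : ∀ i, Ode (b i / a i) (X i) (X' i) := fun i => ode_pl (hE i) (fun j => hw i j)
  have hXball : ∀ i t, Ball (X i t) := fun i t => (hOde i).mem t
  have hXmem : ∀ i t, X i t ∈ V i := fun i t => pl_mem (hEV i) _
  have hdom : ∀ t, (fun i => mob (T i) (X i t)) ∈ dom V := fun t =>
    hNF.maps (fun i => X i t) (fun i => ⟨hXmem i t, hXball i t⟩)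
  have hOde2 : ∀ i, Ode (b i / a i) (fun t => mob (T i) (X i t)) (fun t => dmob (T i) (X i t) (X' i t)) :=
    fun i => ode_mob (hNF.isU i) (hOde i)
  refine ⟨fun t i => mob (T i) (X i t), fun t i => dmob (T i) (X i t) (X' i t), T₀, ?_, ?_, hT₀pos, ?_⟩
  · exact sol_of_ode V ha (fun t i => (hdom t i).1) hOde2
  · intro t
    have h1 : ∀ i, (hm (mob (T i) (X i t)) (dmob (T i) (X i t) (X' i t)) (dmob (T i) (X i t) (X' i t))).re =
        ∑ j, ((E i j).rank : ℝ) * (s i j ^ 2 / T₀ ^ 2 + (b i / a i) ^ 2 / 4) := by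
      intro i
      rw [hm_dmob (hNF.isU i) (hXball i t)]
      have h2 := (hE i).hm_pl (w := fun j => w i j t) (fun j => (hw i j).mem t) (fun j => w' i j t)
      show (hm (pl (E i) fun j => w i j t) (pl (E i) fun j => w' i j t) (pl (E i) fun j => w' i j t)).re = _
      rw [h2, Complex.ofReal_re]
      refine Finset.sum_congr rfl (fun j _ => ?_)
      rw [hwE i j t]
    show met a (fun i => mob (T i) (X i t)) (fun i => dmob (T i) (X i t) (X' i t))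
      (fun i => dmob (T i) (X i t) (X' i t)) / 2 = c
    unfold met
    have h3 : ∀ i, a i * (hm (mob (T i) (X i t)) (dmob (T i) (X i t) (X' i t)) (dmob (T i) (X i t) (X' i t))).re =
        2 * (((a i / 2) * ∑ j, ((E i j).rank : ℝ) * (s i j) ^ 2) / T₀ ^ 2 +
          ((B i).rank : ℝ) * b i ^ 2 / (8 * a i)) := by
      intro i
      rw [h1 i, hrB i]
      have hai := (ha i).ne'
      have e1 : ∑ j, ((E i j).rank : ℝ) * (s i j ^ 2 / T₀ ^ 2 + (b i / a i) ^ 2 / 4) =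
          (∑ j, ((E i j).rank : ℝ) * (s i j) ^ 2) / T₀ ^ 2 + (∑ j, ((E i j).rank : ℝ)) * ((b i / a i) ^ 2 / 4) := by
        rw [Finset.sum_div, Finset.sum_mul, ← Finset.sum_add_distrib]
        refine Finset.sum_congr rfl (fun j _ => ?_)
        ring
      rw [e1]
      push_cast
      field_simp
      ring
    rw [Finset.sum_congr rfl (fun i _ => h3 i), ← Finset.mul_sum, Finset.sum_add_distrib, ← Finset.sum_div]
    have h4 : (∑ i, (a i / 2) * ∑ j, ((E i j).rank : ℝ) * (s i j) ^ 2) / T₀ ^ 2 = c - c₁ := hST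
    rw [h4]
    ring
  · intro t h h'
    apply Subtype.ext
    funext i
    rw [hG.2 ⟨_, h⟩ i]
    show mob (G i) (mob (T i) (X i t)) = mob (T i) (X i (t + T₀))
    have hTi := hNF.isU i
    have hBi := (hNF.mem i).2
    have hdet : IsUnit (T i).det := hTi.isUnit_det
    have hGT : G i * T i = T i * (tv (B i) * fromBlocks (k1 i) 0 0 (k2 i)) := by
      rw [← hNF.conj i, ← Matrix.mul_assoc, ← Matrix.mul_assoc, Matrix.mul_nonsing_inv _ hdet, Matrix.one_mul]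
    have hU1 : IsU (tv (B i)) := isU_tv hBi
    have hU2 : IsU (fromBlocks (k1 i) 0 0 (k2 i)) := isU_diag (hNF.u1 i) (hNF.u2 i)
    have hfix : k1 i * X i t * (k2 i)ᴴ = X i t := by
      have h5 : k1 i * X i t = X i t * k2 i := by
        show k1 i * (∑ j, w i j t • E i j) = (∑ j, w i j t • E i j) * k2 i
        rw [Matrix.mul_sum, Matrix.sum_mul]
        refine Finset.sum_congr rfl (fun j _ => ?_)
        rw [Matrix.mul_smul, Matrix.smul_mul, hcomm i (k1 i) (k2 i) (hNF.u1 i) (hNF.u2 i) (hNF.comm i) j]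
      rw [h5, Matrix.mul_assoc, mul_eq_one_comm.mp (hNF.u2 i), Matrix.mul_one]
    rw [← mob_mul (hG.1 i) hTi (hXball i t), hGT, mob_mul hTi (hU1.mul hU2) (hXball i t),
      mob_mul hU1 hU2 (hXball i t), mob_diag (hNF.u2 i), hfix]
    congr 1
    have h6 := mob_tv_pl (hE i) (β := β i) (fun j => by rw [abs_of_pos (hβ0 i j)]; exact hβ1 i j)
      (w := fun j => w i j t) (fun j => (hw i j).mem t)
    rw [hBE i]
    show mob (tv (pl (E i) fun j => (β i j : ℂ))) (pl (E i) fun j => w i j t) = pl (E i) fun j => w i j (t + T₀)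
    rw [h6]
    congr 1
    funext j
    rw [hwT i j t, hts i j]

end Pool.Agent.MP_a98e84_gt.TG
end

section

/-!
# TASK TG F4: if `G` has at least `R` eigenvalues of modulus larger than one, then `tr (μ μᴴ) > R κ² / 4`

Let `ξ = xi κ μ`, `K = fromBlocks k1 0 0 k2`: unitary, commutes with `ξ` (blocks; `k2 μᴴ = μᴴ k1`), so with all `E t`. `(E T)⁻¹ = E (-T)`. `H = M⁻¹ G M = E T * K`, `H⁻¹ ^ N = K⁻¹ ^ N * E (-N T)`. `unst G` is the image of `unst H` under `M`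
(`G⁻¹ ^ N = M H⁻¹ ^ N M⁻¹`), so `hyp G = finrank (unst H)`, and `L := unst H = {v | E (-N T) *ᵥ v → 0}` because `K` is unitary (`∑ ‖(K v) i‖² = ∑ ‖v i‖²`). `L` is mapped to itself by `ξ`.
(i) `vᴴ J v = 0` for `v ∈ L` (`E t` preserves `J`, `flow_isU`; let `N → ∞`), so for `v = Sum.elim v₁ v₂ ∈ L`: `|v₁|² = |v₂|²`; `pr₂ : L → ℂ^n` is injective; `L₂ := pr₂ L` has dimension `hyp G ≥ R`.
(ii) `ξ² = fromBlocks (μ μᴴ - κ²/4) 0 0 (μᴴ μ - κ²/4)`; so `S = μᴴ μ` maps `L₂` to itself.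
(iii) If `v₂ ∈ L₂`, `v₂ ≠ 0`, `S v₂ = s v₂` then `s > κ²/4` (`s` is real `≥ 0`, `S` is positive semidefinite): take `v ∈ L` over `v₂`; `ξ² v - (s - κ²/4) v ∈ L` has second component `0`, so it is `0`. If `s < κ²/4`, `ω = √(κ²/4 - s)`: `(ξ - iω)(ξ + iω) v = 0`; one of `(ξ + iω) v`,
`(ξ - iω) v` is not `0` (else `v = 0`), it is in `L` and an eigenvector of `ξ` with eigenvalue `± iω`, so by `IsFlow.eig` `E (-N T)` multiplies it by a number of modulus `1`: not in `L`. If `s = κ²/4`: `ξ (ξ v) = 0`; if `ξ v = 0` then `E t v = v` (`nil`), contradiction to `v ∈ L`; otherwise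
the same for `ξ v ∈ L`.
(iv) Let `λ i` be the eigenvalues of the Hermitian matrix `S` with eigenvector basis `u i`. `L₂` meets the span `L'` of the `u i` with `λ i ≤ κ²/4` only in `0` (otherwise `S` has an eigenvector in the `S`-invariant space `L₂ ⊓ L' ≠ ⊥`, `Module.End.exists_eigenvalue`, with eigenvalue `≤ κ²/4`, against
(iii)). So the number of `i` with `λ i > κ²/4` is `≥ dim L₂ ≥ R ≥ 1`, and `tr (μ μᴴ) = tr S = ∑ λ i > R κ²/4`.
-/

set_option autoImplicit false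

namespace Pool.Agent.MP_a98e84_gt.TG

open Matrix
open scoped ComplexOrder

section F4gen

variable {ν : Type*} [Fintype ν] [DecidableEq ν]

private theorem F4_inv {ξ : Matrix ν ν ℂ} {E : ℝ → Matrix ν ν ℂ} (hE : IsFlow ξ E) (t : ℝ) :
    (E t)⁻¹ = E (-t) := by
  apply Matrix.inv_eq_right_inv
  rw [← hE.add, add_neg_cancel, hE.zero]

private theorem F4_pow {ξ : Matrix ν ν ℂ} {E : ℝ → Matrix ν ν ℂ} (hE : IsFlow ξ E) (t : ℝ) (N : ℕ) :
    (E t) ^ N = E (N * t) := by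
  induction N with
  | zero => simp [hE.zero]
  | succ N ih =>
    rw [pow_succ, ih, ← hE.add]
    congr 1
    push_cast
    ring

private theorem F4_pow' {ξ : Matrix ν ν ℂ} {E : ℝ → Matrix ν ν ℂ} (hE : IsFlow ξ E) (t : ℝ) (N : ℕ) :
    ((E t)⁻¹) ^ N = E (-(N * t)) := by
  rw [F4_inv hE, F4_pow hE]
  congr 1
  ring

private theorem F4_mem {ξ : Matrix ν ν ℂ} {E : ℝ → Matrix ν ν ℂ} (hE : IsFlow ξ E) (T : ℝ) (v : ν → ℂ) :
    v ∈ unst (E T) ↔ Filter.Tendsto (fun N : ℕ => E (-(N * T)) *ᵥ v) Filter.atTop (nhds 0) := by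
  change Filter.Tendsto (fun N : ℕ => ((E T)⁻¹) ^ N *ᵥ v) Filter.atTop (nhds 0) ↔ _
  simp only [F4_pow' hE]

private theorem F4_nn (v : ν → ℂ) : star v ⬝ᵥ v = ((∑ i, ‖v i‖ ^ 2 : ℝ) : ℂ) := by
  simp only [dotProduct, Pi.star_apply, RCLike.star_def]
  push_cast
  refine Finset.sum_congr rfl fun i _ => ?_
  rw [mul_comm, Complex.mul_conj, Complex.normSq_eq_norm_sq]
  push_cast
  rfl

private theorem F4_nn_unitary {U : Matrix ν ν ℂ} (hU : Uᴴ * U = 1) (v : ν → ℂ) :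
    ∑ i, ‖(U *ᵥ v) i‖ ^ 2 = ∑ i, ‖v i‖ ^ 2 := by
  have h : star (U *ᵥ v) ⬝ᵥ (U *ᵥ v) = star v ⬝ᵥ v := by
    rw [star_mulVec, dotProduct_mulVec, vecMul_vecMul, hU, vecMul_one]
  rw [F4_nn, F4_nn] at h
  exact_mod_cast h

private theorem F4_tend {f g : ℕ → ν → ℂ} (h : ∀ N, ∑ i, ‖g N i‖ ^ 2 = ∑ i, ‖f N i‖ ^ 2)
    (hf : Filter.Tendsto f Filter.atTop (nhds 0)) : Filter.Tendsto g Filter.atTop (nhds 0) := by
  have h1 : Filter.Tendsto (fun N => ∑ i, ‖f N i‖ ^ 2) Filter.atTop (nhds 0) := by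
    have h2 : ∀ i, Filter.Tendsto (fun N => ‖f N i‖ ^ 2) Filter.atTop (nhds 0) := by
      intro i
      have h3 := ((tendsto_pi_nhds.1 hf i).norm).pow 2
      simpa using h3
    have h4 := tendsto_finsetSum (Finset.univ : Finset ν) (fun i _ => h2 i)
    simpa using h4
  rw [tendsto_pi_nhds]
  intro i
  rw [Pi.zero_apply, tendsto_zero_iff_norm_tendsto_zero]
  have h5 : Filter.Tendsto (fun N => ‖g N i‖ ^ 2) Filter.atTop (nhds 0) := by
    refine squeeze_zero (fun N => by positivity) (fun N => ?_) h1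
    rw [← h N]
    exact Finset.single_le_sum (f := fun i => ‖g N i‖ ^ 2) (fun j _ => by positivity) (Finset.mem_univ i)
  have h6 := h5.sqrt
  simpa using h6

private theorem F4_mulVec {f : ℕ → ν → ℂ} (M : Matrix ν ν ℂ)
    (hf : Filter.Tendsto f Filter.atTop (nhds 0)) :
    Filter.Tendsto (fun N => M *ᵥ f N) Filter.atTop (nhds 0) := by
  have hc : Continuous fun v : ν → ℂ => M *ᵥ v := by fun_prop
  have h := (hc.tendsto 0).comp hf
  rw [mulVec_zero] at h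
  exact h

private theorem F4_unitary_pow {U : Matrix ν ν ℂ} (hU : Uᴴ * U = 1) (N : ℕ) : (U ^ N)ᴴ * U ^ N = 1 := by
  induction N with
  | zero => simp
  | succ N ih =>
    rw [pow_succ, conjTranspose_mul]
    calc Uᴴ * (U ^ N)ᴴ * (U ^ N * U) = Uᴴ * ((U ^ N)ᴴ * U ^ N) * U := by noncomm_ring
      _ = 1 := by rw [ih, Matrix.mul_one, hU]

private theorem F4_hyp {ξ : Matrix ν ν ℂ} {E : ℝ → Matrix ν ν ℂ} (hE : IsFlow ξ E) (T : ℝ)
    {K : Matrix ν ν ℂ} (hK : Kᴴ * K = 1) (hKE : K * ξ = ξ * K) {M G : Matrix ν ν ℂ}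
    (hM : IsUnit M.det) (h : M⁻¹ * G * M = E T * K) : hyp G = Module.finrank ℂ (unst (E T)) := by
  have hM1 : M * M⁻¹ = 1 := Matrix.mul_nonsing_inv M hM
  have hM2 : M⁻¹ * M = 1 := Matrix.nonsing_inv_mul M hM
  have hK' : K * Kᴴ = 1 := mul_eq_one_comm.1 hK
  have hKi : K⁻¹ = Kᴴ := Matrix.inv_eq_left_inv hK
  have hG : G = M * (E T * K) * M⁻¹ := by
    rw [← h]
    calc G = (M * M⁻¹) * G * (M * M⁻¹) := by rw [hM1]; simp
      _ = M * (M⁻¹ * G * M) * M⁻¹ := by noncomm_ring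
  have hGi : G⁻¹ = M * (Kᴴ * (E T)⁻¹) * M⁻¹ := by
    rw [hG, Matrix.mul_inv_rev, Matrix.mul_inv_rev, Matrix.mul_inv_rev, hKi,
      Matrix.nonsing_inv_nonsing_inv M hM, Matrix.mul_assoc, Matrix.mul_assoc, Matrix.mul_assoc]
  have hcom : Commute Kᴴ ((E T)⁻¹) := by
    rw [F4_inv hE]
    have h1 := hE.comm K hKE (-T)
    change Kᴴ * E (-T) = E (-T) * Kᴴ
    calc Kᴴ * E (-T) = Kᴴ * (E (-T) * K) * Kᴴ := by
          rw [Matrix.mul_assoc, Matrix.mul_assoc, hK', Matrix.mul_one]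
      _ = (Kᴴ * K) * E (-T) * Kᴴ := by rw [← h1]; noncomm_ring
      _ = E (-T) * Kᴴ := by rw [hK, Matrix.one_mul]
  have hpow : ∀ N : ℕ, (G⁻¹) ^ N = M * (Kᴴ ^ N * E (-(N * T))) * M⁻¹ := by
    intro N
    have h1 : (G⁻¹) ^ N = M * (Kᴴ * (E T)⁻¹) ^ N * M⁻¹ := by
      induction N with
      | zero => simp [hM1]
      | succ N ih =>
        rw [pow_succ, ih, hGi, pow_succ]
        calc M * (Kᴴ * (E T)⁻¹) ^ N * M⁻¹ * (M * (Kᴴ * (E T)⁻¹) * M⁻¹)
            = M * (Kᴴ * (E T)⁻¹) ^ N * (M⁻¹ * M) * (Kᴴ * (E T)⁻¹) * M⁻¹ := by noncomm_ring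
          _ = _ := by rw [hM2]; noncomm_ring
    rw [h1, hcom.mul_pow, F4_pow' hE]
  have hUN : ∀ N : ℕ, (Kᴴ ^ N)ᴴ * Kᴴ ^ N = 1 := by
    intro N
    apply F4_unitary_pow
    rw [conjTranspose_conjTranspose]
    exact hK'
  have key : ∀ v, v ∈ unst G ↔ M⁻¹ *ᵥ v ∈ unst (E T) := by
    intro v
    rw [F4_mem hE]
    change Filter.Tendsto (fun N : ℕ => (G⁻¹) ^ N *ᵥ v) Filter.atTop (nhds 0) ↔ _
    simp only [hpow]
    constructor
    · intro hv
      have h1 := F4_mulVec M⁻¹ hv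
      refine F4_tend (fun N => ?_) h1
      have h2 : M⁻¹ *ᵥ ((M * (Kᴴ ^ N * E (-(N * T))) * M⁻¹) *ᵥ v) =
          Kᴴ ^ N *ᵥ (E (-(N * T)) *ᵥ (M⁻¹ *ᵥ v)) := by
        simp only [mulVec_mulVec]
        congr 1
        calc M⁻¹ * (M * (Kᴴ ^ N * E (-(N * T))) * M⁻¹)
            = (M⁻¹ * M) * (Kᴴ ^ N * E (-(N * T))) * M⁻¹ := by noncomm_ring
          _ = _ := by rw [hM2]; noncomm_ring
      rw [h2, F4_nn_unitary (hUN N)]
    · intro hv
      have h1 : Filter.Tendsto (fun N : ℕ => Kᴴ ^ N *ᵥ (E (-(N * T)) *ᵥ (M⁻¹ *ᵥ v))) Filter.atTop (nhds 0) :=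
        F4_tend (fun N => F4_nn_unitary (hUN N) _) hv
      have h2 := F4_mulVec M h1
      refine h2.congr fun N => ?_
      simp only [mulVec_mulVec]
      congr 1
      noncomm_ring
  let e : (ν → ℂ) ≃ₗ[ℂ] (ν → ℂ) :=
    { toFun := fun v => M *ᵥ v
      map_add' := fun v w => mulVec_add _ _ _
      map_smul' := fun c v => mulVec_smul _ _ _
      invFun := fun v => M⁻¹ *ᵥ v
      left_inv := fun v => by simp only [mulVec_mulVec, hM2, one_mulVec]
      right_inv := fun v => by simp only [mulVec_mulVec, hM1, one_mulVec] }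
  have hmap : unst G = (unst (E T)).map e.toLinearMap := by
    ext v
    rw [key, Submodule.mem_map]
    constructor
    · intro hv
      refine ⟨M⁻¹ *ᵥ v, hv, ?_⟩
      change M *ᵥ (M⁻¹ *ᵥ v) = v
      rw [mulVec_mulVec, hM1, one_mulVec]
    · rintro ⟨w, hw, rfl⟩
      change M⁻¹ *ᵥ (M *ᵥ w) ∈ _
      rw [mulVec_mulVec, hM2, one_mulVec]
      exact hw
  rw [hyp, hmap, LinearEquiv.finrank_map_eq]

private theorem F4_inv_mem {ξ : Matrix ν ν ℂ} {E : ℝ → Matrix ν ν ℂ} (hE : IsFlow ξ E) (T : ℝ)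
    {v : ν → ℂ} (hv : v ∈ unst (E T)) : ξ *ᵥ v ∈ unst (E T) := by
  rw [F4_mem hE] at hv ⊢
  have h1 := F4_mulVec ξ hv
  refine h1.congr fun N => ?_
  rw [mulVec_mulVec, mulVec_mulVec, hE.comm ξ rfl]

private theorem F4_noeig {ξ : Matrix ν ν ℂ} {E : ℝ → Matrix ν ν ℂ} (hE : IsFlow ξ E) (T : ℝ)
    {v : ν → ℂ} (hv : v ∈ unst (E T)) (ω : ℝ) (h : ξ *ᵥ v = ((ω : ℂ) * Complex.I) • v) : v = 0 := by
  rw [F4_mem hE] at hv
  funext i
  have h1 := (tendsto_pi_nhds.1 hv i).norm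
  have h2 : ∀ N : ℕ, ‖(E (-(N * T)) *ᵥ v) i‖ = ‖v i‖ := by
    intro N
    rw [hE.eig v _ h, Pi.smul_apply, smul_eq_mul, norm_mul, Complex.norm_exp]
    have : ((((-(N * T) : ℝ) : ℂ)) * ((ω : ℂ) * Complex.I)).re = 0 := by
      rw [← mul_assoc, ← Complex.ofReal_mul, Complex.re_ofReal_mul]
      simp
    rw [this]
    simp
  simp only [h2, Pi.zero_apply, norm_zero] at h1
  have h3 := tendsto_nhds_unique h1 tendsto_const_nhds
  have h4 : ‖v i‖ = 0 := by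
    have := tendsto_nhds_unique tendsto_const_nhds h1
    exact this
  simpa using h4

private theorem F4_noeig2 {ξ : Matrix ν ν ℂ} {E : ℝ → Matrix ν ν ℂ} (hE : IsFlow ξ E) (T : ℝ)
    {v : ν → ℂ} (hv : v ∈ unst (E T)) {s : ℝ} (hs : s ≤ 0) (h : ξ *ᵥ (ξ *ᵥ v) = (s : ℂ) • v) : v = 0 := by
  set ω := Real.sqrt (-s) with hω
  have hω2 : ((ω : ℂ) * Complex.I) * ((ω : ℂ) * Complex.I) = (s : ℂ) := by
    have h1 : ω * ω = -s := Real.mul_self_sqrt (by linarith)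
    calc ((ω : ℂ) * Complex.I) * ((ω : ℂ) * Complex.I) = ((ω * ω : ℝ) : ℂ) * (Complex.I * Complex.I) := by
          push_cast
          ring
      _ = (s : ℂ) := by rw [h1, Complex.I_mul_I]; push_cast; ring
  have hw : ξ *ᵥ v + ((ω : ℂ) * Complex.I) • v = 0 := by
    apply F4_noeig hE T (ω := ω)
    · exact (unst (E T)).add_mem (F4_inv_mem hE T hv) ((unst (E T)).smul_mem _ hv)
    · rw [mulVec_add, mulVec_smul, h, smul_add, smul_smul, hω2, add_comm]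
  apply F4_noeig hE T (ω := -ω) hv
  have := eq_neg_of_add_eq_zero_left hw
  rw [this]
  push_cast
  rw [neg_mul, neg_smul]

end F4gen

section F4main

variable {m n : Type*} [Fintype m] [Fintype n] [DecidableEq m] [DecidableEq n]

private theorem F4_sq (κ : ℝ) (μ : Matrix m n ℂ) (v : m ⊕ n → ℂ) (j : n) :
    (xi κ μ *ᵥ (xi κ μ *ᵥ v)) (Sum.inr j) =
      ((μᴴ * μ) *ᵥ (v ∘ Sum.inr)) j - ((κ ^ 2 / 4 : ℝ) : ℂ) * v (Sum.inr j) := by
  have h1 : xi κ μ * xi κ μ = fromBlocks (μ * μᴴ - ((κ ^ 2 / 4 : ℝ) : ℂ) • (1 : Matrix m m ℂ)) 0 0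
      (μᴴ * μ - ((κ ^ 2 / 4 : ℝ) : ℂ) • (1 : Matrix n n ℂ)) := by
    have hI : (((κ / 2 : ℝ) : ℂ) * Complex.I) * (((κ / 2 : ℝ) : ℂ) * Complex.I) = -((κ ^ 2 / 4 : ℝ) : ℂ) := by
      calc (((κ / 2 : ℝ) : ℂ) * Complex.I) * (((κ / 2 : ℝ) : ℂ) * Complex.I)
          = (((κ / 2 : ℝ) : ℂ) * ((κ / 2 : ℝ) : ℂ)) * (Complex.I * Complex.I) := by ring
        _ = _ := by rw [Complex.I_mul_I]; push_cast; ring
    unfold xi
    rw [fromBlocks_multiply]
    congr 1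
    · rw [Matrix.smul_mul, Matrix.one_mul, smul_smul, hI, neg_smul]
      abel
    · simp
    · simp
    · rw [neg_mul_neg, Matrix.smul_mul, Matrix.one_mul, smul_smul, hI, neg_smul]
      abel
  rw [mulVec_mulVec, h1, fromBlocks_mulVec, Sum.elim_inr, Matrix.sub_mulVec, Matrix.smul_mulVec]
  simp

private theorem F4_form {κ : ℝ} {μ : Matrix m n ℂ} {E : ℝ → Matrix (m ⊕ n) (m ⊕ n) ℂ}
    (hE : IsFlow (xi κ μ) E) {T : ℝ} {v : m ⊕ n → ℂ} (hv : v ∈ unst (E T))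
    (h2 : v ∘ Sum.inr = 0) : v = 0 := by
  rw [F4_mem hE] at hv
  have hq : ∀ w : m ⊕ n → ℂ, ∀ t, star (E t *ᵥ w) ⬝ᵥ (JJ m n *ᵥ (E t *ᵥ w)) = star w ⬝ᵥ (JJ m n *ᵥ w) := by
    intro w t
    have h3 : (E t)ᴴ * JJ m n * E t = JJ m n := flow_isU hE t
    rw [star_mulVec, mulVec_mulVec, dotProduct_mulVec, vecMul_vecMul, ← dotProduct_mulVec,
      ← Matrix.mul_assoc, h3]
  have hc : Continuous fun w : m ⊕ n → ℂ => star w ⬝ᵥ (JJ m n *ᵥ w) := by
    fun_prop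
  have h4 := (hc.tendsto 0).comp hv
  have h5 : ((fun w : m ⊕ n → ℂ => star w ⬝ᵥ (JJ m n *ᵥ w)) ∘ fun N : ℕ => E (-(N * T)) *ᵥ v) =
      fun _ => star v ⬝ᵥ (JJ m n *ᵥ v) := by
    funext N
    exact hq v _
  rw [h5] at h4
  have h6 : star v ⬝ᵥ (JJ m n *ᵥ v) = 0 := by
    have := tendsto_nhds_unique tendsto_const_nhds h4
    simpa using this
  have h7 : JJ m n *ᵥ v = v := by
    funext i
    unfold JJ
    rw [fromBlocks_mulVec]
    rcases i with i | i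
    · simp
    · have : v (Sum.inr i) = 0 := congrFun h2 i
      simp [h2, this]
  rw [h7] at h6
  exact dotProduct_star_self_eq_zero.1 h6

private theorem F4_coord {S : Matrix n n ℂ} (hS : S.IsHermitian) (w : n → ℂ) (j : n) :
    star (⇑(hS.eigenvectorBasis j) : n → ℂ) ⬝ᵥ (S *ᵥ w) =
      (hS.eigenvalues j : ℂ) * (star (⇑(hS.eigenvectorBasis j) : n → ℂ) ⬝ᵥ w) := by
  have h1 : star (⇑(hS.eigenvectorBasis j) : n → ℂ) ᵥ* S =
      (hS.eigenvalues j : ℂ) • star (⇑(hS.eigenvectorBasis j) : n → ℂ) := by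
    have h2 := congrArg star (hS.mulVec_eigenvectorBasis j)
    rw [star_mulVec, hS.eq] at h2
    rw [h2]
    funext i
    simp
  rw [dotProduct_mulVec, h1, smul_dotProduct, smul_eq_mul]

private theorem F4_coord_zero {S : Matrix n n ℂ} (hS : S.IsHermitian) (w : n → ℂ)
    (h : ∀ j, star (⇑(hS.eigenvectorBasis j) : n → ℂ) ⬝ᵥ w = 0) : w = 0 := by
  have h1 : (WithLp.toLp 2 w : EuclideanSpace ℂ n) = 0 := by
    apply hS.eigenvectorBasis.repr.injective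
    ext j
    rw [OrthonormalBasis.repr_apply_apply, EuclideanSpace.inner_eq_star_dotProduct,
      dotProduct_comm, map_zero]
    exact h j
  have h2 := congrArg WithLp.ofLp h1
  simpa using h2

private theorem F4_count {κ : ℝ} {μ : Matrix m n ℂ} {E : ℝ → Matrix (m ⊕ n) (m ⊕ n) ℂ}
    (hE : IsFlow (xi κ μ) E) (T : ℝ) (hS : (μᴴ * μ).IsHermitian) :
    Module.finrank ℂ (unst (E T)) ≤ Fintype.card {i // κ ^ 2 / 4 < hS.eigenvalues i} := by
  classical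
  let Ψ : (m ⊕ n → ℂ) →ₗ[ℂ] ({i // κ ^ 2 / 4 < hS.eigenvalues i} → ℂ) :=
    { toFun := fun v i => star (⇑(hS.eigenvectorBasis i.1) : n → ℂ) ⬝ᵥ (v ∘ Sum.inr)
      map_add' := by
        intro v w
        funext i
        change _ ⬝ᵥ ((v ∘ Sum.inr) + (w ∘ Sum.inr)) = _
        rw [dotProduct_add]
        rfl
      map_smul' := by
        intro c v
        funext i
        change _ ⬝ᵥ (c • (v ∘ Sum.inr)) = _
        rw [dotProduct_smul]
        rfl }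
  let N : Submodule ℂ (m ⊕ n → ℂ) := unst (E T) ⊓ LinearMap.ker Ψ
  have hΨ : ∀ v : m ⊕ n → ℂ, v ∈ LinearMap.ker Ψ ↔ ∀ j, κ ^ 2 / 4 < hS.eigenvalues j →
      star (⇑(hS.eigenvectorBasis j) : n → ℂ) ⬝ᵥ (v ∘ Sum.inr) = 0 := by
    intro v
    rw [LinearMap.mem_ker]
    constructor
    · intro h j hj
      exact congrFun h ⟨j, hj⟩
    · intro h
      funext j
      exact h j.1 j.2
  have hsq : ∀ v : m ⊕ n → ℂ, (xi κ μ *ᵥ (xi κ μ *ᵥ v)) ∘ Sum.inr =
      (μᴴ * μ) *ᵥ (v ∘ Sum.inr) - ((κ ^ 2 / 4 : ℝ) : ℂ) • (v ∘ Sum.inr) := by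
    intro v
    funext j
    exact F4_sq κ μ v j
  have hcoord : ∀ (v : m ⊕ n → ℂ) j, star (⇑(hS.eigenvectorBasis j) : n → ℂ) ⬝ᵥ
      ((xi κ μ *ᵥ (xi κ μ *ᵥ v)) ∘ Sum.inr) = ((hS.eigenvalues j - κ ^ 2 / 4 : ℝ) : ℂ) *
        (star (⇑(hS.eigenvectorBasis j) : n → ℂ) ⬝ᵥ (v ∘ Sum.inr)) := by
    intro v j
    rw [hsq, dotProduct_sub, F4_coord, dotProduct_smul, smul_eq_mul]
    push_cast
    ring
  let f : (m ⊕ n → ℂ) →ₗ[ℂ] (m ⊕ n → ℂ) := (xi κ μ).mulVecLin ∘ₗ (xi κ μ).mulVecLin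
  have hf : ∀ v, f v = xi κ μ *ᵥ (xi κ μ *ᵥ v) := fun v => rfl
  have hfN : ∀ v ∈ N, f v ∈ N := by
    intro v hv
    refine ⟨?_, ?_⟩
    · rw [hf]
      exact F4_inv_mem hE T (F4_inv_mem hE T hv.1)
    · have h1 := (hΨ v).1 hv.2
      have : f v ∈ LinearMap.ker Ψ := by
        rw [hΨ]
        intro j hj
        rw [hf, hcoord, h1 j hj, mul_zero]
      exact this
  have hN : N = ⊥ := by
    by_contra hne
    have hnt : Nontrivial N := Submodule.nontrivial_iff_ne_bot.2 hne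
    obtain ⟨z, hz⟩ := Module.End.exists_eigenvalue (f.restrict hfN)
    obtain ⟨v, hv⟩ := hz.exists_hasEigenvector
    have h1 : f v.1 = z • v.1 := by
      have := congrArg Subtype.val hv.apply_eq_smul
      exact this
    have hv0 : v.1 ≠ 0 := fun h => hv.2 (Subtype.ext h)
    apply hv0
    have hvL : v.1 ∈ unst (E T) := v.2.1
    by_cases hw : v.1 ∘ Sum.inr = 0
    · exact F4_form hE hvL hw
    · have h2 : ∃ j, star (⇑(hS.eigenvectorBasis j) : n → ℂ) ⬝ᵥ (v.1 ∘ Sum.inr) ≠ 0 := by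
        by_contra hcon
        push Not at hcon
        exact hw (F4_coord_zero hS _ hcon)
      obtain ⟨j, hj⟩ := h2
      have h3 := hcoord v.1 j
      rw [← hf, h1] at h3
      have h4 : star (⇑(hS.eigenvectorBasis j) : n → ℂ) ⬝ᵥ ((z • v.1) ∘ Sum.inr) =
          z * (star (⇑(hS.eigenvectorBasis j) : n → ℂ) ⬝ᵥ (v.1 ∘ Sum.inr)) := by
        change _ ⬝ᵥ (z • (v.1 ∘ Sum.inr)) = _
        rw [dotProduct_smul, smul_eq_mul]
      rw [h4] at h3
      have h5 : z = ((hS.eigenvalues j - κ ^ 2 / 4 : ℝ) : ℂ) := mul_right_cancel₀ hj h3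
      have h6 : hS.eigenvalues j - κ ^ 2 / 4 ≤ 0 := by
        by_contra hlt
        push Not at hlt
        exact hj ((hΨ v.1).1 v.2.2 j (by linarith))
      refine F4_noeig2 hE T hvL h6 ?_
      rw [← hf, h1, h5]
  have hinj : Function.Injective (Ψ.domRestrict (unst (E T))) := by
    rw [← LinearMap.ker_eq_bot, Submodule.eq_bot_iff]
    intro v hv
    rw [LinearMap.mem_ker, LinearMap.domRestrict_apply] at hv
    have h1 : v.1 ∈ N := ⟨v.2, hv⟩
    rw [hN, Submodule.mem_bot] at h1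
    exact Subtype.ext h1
  have := LinearMap.finrank_le_finrank_of_injective hinj
  rwa [Module.finrank_fintype_fun_eq_card] at this

end F4main

variable {m n : Type*} [Fintype m] [Fintype n] [DecidableEq m] [DecidableEq n]

theorem trace_gt {κ : ℝ} {μ : Matrix m n ℂ} {E : ℝ → Matrix (m ⊕ n) (m ⊕ n) ℂ} (hE : IsFlow (xi κ μ) E) {T : ℝ} (hT : 0 < T)
    {k1 : Matrix m m ℂ} {k2 : Matrix n n ℂ} (h1 : k1ᴴ * k1 = 1) (h2 : k2ᴴ * k2 = 1) (hk : k1 * μ = μ * k2)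
    {M G : Matrix (m ⊕ n) (m ⊕ n) ℂ} (hM : IsU M) (hG : IsU G) (h : M⁻¹ * G * M = E T * fromBlocks k1 0 0 k2)
    {R : ℕ} (hR : 0 < R) (hRG : R ≤ hyp G) : (R : ℝ) * κ ^ 2 / 4 < (trace (μ * μᴴ)).re := by
  classical
  have h2' : k2 * k2ᴴ = 1 := mul_eq_one_comm.1 h2
  have hk' : k2 * μᴴ = μᴴ * k1 := by
    have h3 : μᴴ * k1ᴴ = k2ᴴ * μᴴ := by
      have := congrArg conjTranspose hk
      rwa [conjTranspose_mul, conjTranspose_mul] at this
    calc k2 * μᴴ = k2 * (μᴴ * (k1ᴴ * k1)) := by rw [h1, Matrix.mul_one]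
      _ = k2 * ((μᴴ * k1ᴴ) * k1) := by rw [Matrix.mul_assoc μᴴ]
      _ = (k2 * k2ᴴ) * (μᴴ * k1) := by rw [h3]; simp only [Matrix.mul_assoc]
      _ = μᴴ * k1 := by rw [h2', Matrix.one_mul]
  have hKU : (fromBlocks k1 0 0 k2)ᴴ * fromBlocks k1 0 0 k2 = 1 := by
    rw [fromBlocks_conjTranspose, fromBlocks_multiply]
    simp [h1, h2]
  have hKξ : fromBlocks k1 0 0 k2 * xi κ μ = xi κ μ * fromBlocks k1 0 0 k2 := by
    unfold xi
    rw [fromBlocks_multiply, fromBlocks_multiply]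
    simp [hk, hk']
  have hS : (μᴴ * μ).IsHermitian := isHermitian_conjTranspose_mul_self μ
  have hPSD : (μᴴ * μ).PosSemidef := posSemidef_conjTranspose_mul_self μ
  have hcard : R ≤ Fintype.card {i // κ ^ 2 / 4 < hS.eigenvalues i} := by
    have h3 := F4_hyp hE T hKU hKξ hM.isUnit_det h
    have h4 := F4_count hE T hS
    omega
  have htr : (trace (μ * μᴴ)).re = ∑ i, hS.eigenvalues i := by
    rw [trace_mul_comm, hS.trace_eq_sum_eigenvalues]
    simp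
  rw [htr]
  have hcard' : R ≤ (Finset.univ.filter fun i => κ ^ 2 / 4 < hS.eigenvalues i).card := by
    rwa [Fintype.card_subtype] at hcard
  have hne : (Finset.univ.filter fun i => κ ^ 2 / 4 < hS.eigenvalues i).Nonempty := by
    rw [← Finset.card_pos]
    omega
  calc (R : ℝ) * κ ^ 2 / 4 = (R : ℝ) * (κ ^ 2 / 4) := by ring
    _ ≤ ((Finset.univ.filter fun i => κ ^ 2 / 4 < hS.eigenvalues i).card : ℝ) * (κ ^ 2 / 4) := by
        apply mul_le_mul_of_nonneg_right (by exact_mod_cast hcard') (by positivity)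
    _ = ∑ i ∈ Finset.univ.filter (fun i => κ ^ 2 / 4 < hS.eigenvalues i), κ ^ 2 / 4 := by
        rw [Finset.sum_const, nsmul_eq_mul]
    _ < ∑ i ∈ Finset.univ.filter (fun i => κ ^ 2 / 4 < hS.eigenvalues i), hS.eigenvalues i := by
        apply Finset.sum_lt_sum_of_nonempty hne
        intro i hi
        exact (Finset.mem_filter.1 hi).2
    _ ≤ ∑ i, hS.eigenvalues i := by
        apply Finset.sum_le_sum_of_subset_of_nonneg (Finset.filter_subset _ _)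
        intro i _ _
        exact hPSD.eigenvalues_nonneg i

end Pool.Agent.MP_a98e84_gt.TG
end

section

/-!
# TASK TG F5: closed orbits in the trivial class have `tr (μ μᴴ) < R κ² / 4`

`ξ = xi κ μ`, `K = fromBlocks k1 0 0 k2`; `E T * K = 1`, so `E (N T) = (E T) ^ N = K⁻¹ ^ N` is unitary for all `N` (`K` is unitary), so `|E (N T) *ᵥ v| = |v|` for all `v`. Let `S = μᴴ μ` (positive semidefinite) and `S v₂ = s v₂`, `v₂ ≠ 0`, `s` real; we show
`s < κ²/4`. Put `v = Sum.elim 0 v₂`, `θ = iκ/2`: `ξ v = Sum.elim (μ v₂) (-θ v₂)`, `ξ (ξ v) = (s - κ²/4) v` (`ξ² = fromBlocks (μ μᴴ - κ²/4) 0 0 (μᴴ μ - κ²/4)`). If `s > κ²/4`, `λ = √(s - κ²/4) > 0`: `u = ξ v + λ v = Sum.elim (μ v₂) ((λ - θ) v₂) ≠ 0` (`λ - θ ≠ 0`), `ξ u = λ u`,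
`E (N T) u = exp (N T λ) u` (`IsFlow.eig`), unbounded: contradiction. If `s = κ²/4`: `u = ξ v ≠ 0` (as `θ ≠ 0`) and `E (N T) v = v + N T u` (`nil`), unbounded. So all eigenvalues of `S` are `< κ²/4`. The number of nonzero eigenvalues is `rank S = rank μ ≤ R`
(`Matrix.IsHermitian.rank_eq_card_non_zero_eigs`), so `tr (μ μᴴ) = tr S = ∑ λ i` is `< R κ²/4`: if there is a nonzero eigenvalue strictly less than `rank μ * κ²/4`, if there is none it is `0 < R κ²/4`.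
-/

set_option autoImplicit false

namespace Pool.Agent.MP_a98e84_gt.TG

open Matrix
open scoped ComplexOrder

variable {m n : Type*} [Fintype m] [Fintype n] [DecidableEq m] [DecidableEq n]


private theorem F5_ns {ν : Type*} [Fintype ν] (x : ν → ℂ) :
    star x ⬝ᵥ x = ((∑ i, ‖x i‖ ^ 2 : ℝ) : ℂ) := by
  rw [dotProduct, Complex.ofReal_sum]
  refine Finset.sum_congr rfl fun i _ => ?_
  rw [Pi.star_apply, Complex.ofReal_pow]
  exact Complex.conj_mul' (x i)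

private theorem F5_unitary {ν : Type*} [Fintype ν] [DecidableEq ν] {U : Matrix ν ν ℂ}
    (hU : Uᴴ * U = 1) (v : ν → ℂ) : ∑ i, ‖(U *ᵥ v) i‖ ^ 2 = ∑ i, ‖v i‖ ^ 2 := by
  have h1 : star (U *ᵥ v) ⬝ᵥ (U *ᵥ v) = star v ⬝ᵥ v := by
    rw [Matrix.star_mulVec, ← Matrix.dotProduct_mulVec, Matrix.mulVec_mulVec, hU,
      Matrix.one_mulVec]
  rw [F5_ns, F5_ns] at h1
  exact_mod_cast h1

private theorem F5_pos {ν : Type*} [Fintype ν] {x : ν → ℂ} (hx : x ≠ 0) :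
    0 < ∑ i, ‖x i‖ ^ 2 := by
  obtain ⟨i, hi⟩ := Function.ne_iff.1 hx
  refine Finset.sum_pos' (fun j _ => by positivity) ⟨i, Finset.mem_univ i, ?_⟩
  have h1 : 0 < ‖x i‖ := norm_pos_iff.2 hi
  positivity

private theorem F5_par {ν : Type*} [Fintype ν] (a b : ν → ℂ) :
    ∑ i, ‖(a + b) i‖ ^ 2 + ∑ i, ‖(a - b) i‖ ^ 2 =
      2 * ∑ i, ‖a i‖ ^ 2 + 2 * ∑ i, ‖b i‖ ^ 2 := by
  rw [← Finset.sum_add_distrib, Finset.mul_sum, Finset.mul_sum, ← Finset.sum_add_distrib]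
  refine Finset.sum_congr rfl fun i _ => ?_
  have h := parallelogram_law_with_norm ℝ (a i) (b i)
  rw [Pi.add_apply, Pi.sub_apply]
  nlinarith [h]

private theorem F5_theta (κ : ℝ) :
    (((κ / 2 : ℝ) : ℂ) * Complex.I) * (((κ / 2 : ℝ) : ℂ) * Complex.I) =
      ((-(κ ^ 2 / 4) : ℝ) : ℂ) := by
  have h := Complex.I_mul_I
  push_cast
  calc ((κ : ℂ) / 2 * Complex.I) * ((κ : ℂ) / 2 * Complex.I)
      = (κ : ℂ) ^ 2 / 4 * (Complex.I * Complex.I) := by ring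
    _ = -((κ : ℂ) ^ 2 / 4) := by rw [h]; ring

omit [DecidableEq m] [DecidableEq n] in
private theorem F5_xi [DecidableEq m] [DecidableEq n] (κ : ℝ) (μ : Matrix m n ℂ) (x : m → ℂ)
    (y : n → ℂ) : xi κ μ *ᵥ Sum.elim x y =
      Sum.elim ((((κ / 2 : ℝ) : ℂ) * Complex.I) • x + μ *ᵥ y)
        (μᴴ *ᵥ x - (((κ / 2 : ℝ) : ℂ) * Complex.I) • y) := by
  unfold xi
  rw [Matrix.fromBlocks_mulVec]
  simp only [Sum.elim_comp_inl, Sum.elim_comp_inr, Matrix.smul_mulVec, Matrix.one_mulVec,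
    Matrix.neg_mulVec, sub_eq_add_neg]

/-- The eigenvalues of `μᴴ μ` are smaller than `κ ^ 2 / 4`. -/
private theorem F5_eig {κ : ℝ} (hκ : κ ≠ 0) {μ : Matrix m n ℂ} {E : ℝ → Matrix (m ⊕ n) (m ⊕ n) ℂ}
    (hE : IsFlow (xi κ μ) E) {T : ℝ} (hT : 0 < T) (hU : (E T)ᴴ * E T = 1) {s : ℝ} {v₂ : n → ℂ}
    (hv : v₂ ≠ 0) (hs : (μᴴ * μ) *ᵥ v₂ = (s : ℂ) • v₂) : s < κ ^ 2 / 4 := by
  by_contra hcon
  have hcon' : κ ^ 2 / 4 ≤ s := not_lt.1 hcon
  obtain ⟨j, hj⟩ := Function.ne_iff.1 hv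
  have hj' : v₂ j ≠ 0 := hj
  obtain ⟨w, hw⟩ : ∃ w : m ⊕ n → ℂ, w = Sum.elim (0 : m → ℂ) v₂ := ⟨_, rfl⟩
  obtain ⟨x, hx⟩ : ∃ x : m ⊕ n → ℂ, x = xi κ μ *ᵥ w := ⟨_, rfl⟩
  have h1 : x = Sum.elim (μ *ᵥ v₂) (-((((κ / 2 : ℝ) : ℂ) * Complex.I) • v₂)) := by
    rw [hx, hw, F5_xi, smul_zero, zero_add, Matrix.mulVec_zero, zero_sub]
  have h2 : xi κ μ *ᵥ x = ((s - κ ^ 2 / 4 : ℝ) : ℂ) • w := by
    rw [h1, F5_xi, Matrix.mulVec_neg, Matrix.mulVec_smul, add_neg_cancel, smul_neg, sub_neg_eq_add,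
      smul_smul, F5_theta, Matrix.mulVec_mulVec, hs, ← add_smul, hw]
    funext i
    rcases i with i | i
    · simp
    · simp only [Sum.elim_inr, Pi.smul_apply, smul_eq_mul]
      push_cast
      ring
  have hwj : w (Sum.inr j) = v₂ j := by rw [hw]; rfl
  have hxj : x (Sum.inr j) = -((((κ / 2 : ℝ) : ℂ) * Complex.I) * v₂ j) := by rw [h1]; rfl
  rcases hcon'.lt_or_eq with hlt | heq
  · -- a positive eigenvalue of the generator
    obtain ⟨l, hl⟩ : ∃ l : ℝ, l = Real.sqrt (s - κ ^ 2 / 4) := ⟨_, rfl⟩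
    have hl0 : 0 < l := by rw [hl]; exact Real.sqrt_pos.2 (by linarith)
    have hl2 : l * l = s - κ ^ 2 / 4 := by rw [hl]; exact Real.mul_self_sqrt (by linarith)
    obtain ⟨u, hu⟩ : ∃ u : m ⊕ n → ℂ, u = x + (l : ℂ) • w := ⟨_, rfl⟩
    have hξu : xi κ μ *ᵥ u = (l : ℂ) • u := by
      rw [hu, Matrix.mulVec_add, h2, Matrix.mulVec_smul, smul_add, smul_smul, ← hl2,
        Complex.ofReal_mul, add_comm, ← hx]
    have hu0 : u ≠ 0 := by
      intro h0
      have h3 := congrFun h0 (Sum.inr j)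
      rw [hu, Pi.add_apply, Pi.smul_apply, hxj, hwj, smul_eq_mul, Pi.zero_apply] at h3
      have h4 : ((l : ℂ) - ((κ / 2 : ℝ) : ℂ) * Complex.I) * v₂ j = 0 := by
        rw [← h3]
        ring
      rcases mul_eq_zero.1 h4 with h5 | h5
      · have h6 := congrArg Complex.im h5
        simp at h6
        exact hκ h6
      · exact hj' h5
    have h5 := F5_unitary hU u
    rw [hE.eig u l hξu T] at h5
    have h6 : ∑ i, ‖(Complex.exp ((T : ℂ) * (l : ℂ)) • u) i‖ ^ 2 =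
        Real.exp (T * l) ^ 2 * ∑ i, ‖u i‖ ^ 2 := by
      rw [Finset.mul_sum]
      refine Finset.sum_congr rfl fun i _ => ?_
      rw [Pi.smul_apply, smul_eq_mul, norm_mul, Complex.norm_exp, mul_pow, ← Complex.ofReal_mul,
        Complex.ofReal_re]
    rw [h6] at h5
    have h7 := F5_pos hu0
    have h8 : 1 < Real.exp (T * l) := Real.one_lt_exp_iff.2 (mul_pos hT hl0)
    nlinarith [mul_pos (show 0 < Real.exp (T * l) ^ 2 - 1 by nlinarith) h7]
  · -- the nilpotent case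
    rw [← heq, sub_self, Complex.ofReal_zero, zero_smul, hx] at h2
    have hu0 : x ≠ 0 := by
      intro h0
      have h3 := congrFun h0 (Sum.inr j)
      rw [hxj, Pi.zero_apply] at h3
      have h4 : (((κ / 2 : ℝ) : ℂ) * Complex.I) * v₂ j = 0 := neg_eq_zero.1 h3
      rcases mul_eq_zero.1 h4 with h5 | h5
      · have h6 := congrArg Complex.im h5
        simp at h6
        exact hκ h6
      · exact hj' h5
    have h3 := hE.nil w h2
    rw [← hx] at h3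
    have h4 := F5_unitary hU w
    have h5 := F5_unitary hU (E T *ᵥ w)
    rw [Matrix.mulVec_mulVec, ← hE.add, h3 (T + T), h4] at h5
    rw [h3 T] at h4
    have h6 := F5_par (w + (T : ℂ) • x) ((T : ℂ) • x)
    have h7 : w + (T : ℂ) • x + (T : ℂ) • x = w + ((T + T : ℝ) : ℂ) • x := by
      rw [Complex.ofReal_add, add_smul, add_assoc]
    rw [h7, add_sub_cancel_right, h4, h5] at h6
    have h8 : ∑ i, ‖((T : ℂ) • x) i‖ ^ 2 = T ^ 2 * ∑ i, ‖x i‖ ^ 2 := by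
      rw [Finset.mul_sum]
      refine Finset.sum_congr rfl fun i _ => ?_
      rw [Pi.smul_apply, smul_eq_mul, norm_mul, mul_pow, Complex.norm_real, Real.norm_eq_abs,
        sq_abs]
    rw [h8] at h6
    have h9 := mul_pos (pow_pos hT 2) (F5_pos hu0)
    linarith

theorem trace_lt {κ : ℝ} (hκ : κ ≠ 0) {μ : Matrix m n ℂ} {E : ℝ → Matrix (m ⊕ n) (m ⊕ n) ℂ} (hE : IsFlow (xi κ μ) E) {T : ℝ}
    (hT : 0 < T) {k1 : Matrix m m ℂ} {k2 : Matrix n n ℂ} (h1 : k1ᴴ * k1 = 1) (h2 : k2ᴴ * k2 = 1)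
    (h : E T * fromBlocks k1 0 0 k2 = 1) {R : ℕ} (hR : 0 < R) (hrank : μ.rank ≤ R) :
    (trace (μ * μᴴ)).re < (R : ℝ) * κ ^ 2 / 4 := by
  have hK : fromBlocks k1 0 0 k2 * (fromBlocks k1 0 0 k2)ᴴ = 1 := by
    have h3 : (fromBlocks k1 0 0 k2)ᴴ * fromBlocks k1 0 0 k2 = 1 := by
      rw [Matrix.fromBlocks_conjTranspose, Matrix.fromBlocks_multiply, h1, h2]
      simp
    exact mul_eq_one_comm.1 h3
  have hET : E T = (fromBlocks k1 0 0 k2)ᴴ := by
    calc E T = E T * (fromBlocks k1 0 0 k2 * (fromBlocks k1 0 0 k2)ᴴ) := by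
          rw [hK, Matrix.mul_one]
      _ = (fromBlocks k1 0 0 k2)ᴴ := by rw [← Matrix.mul_assoc, h, Matrix.one_mul]
  have hU : (E T)ᴴ * E T = 1 := by
    rw [hET, Matrix.conjTranspose_conjTranspose, hK]
  have hS : (μᴴ * μ).IsHermitian := Matrix.isHermitian_conjTranspose_mul_self μ
  have heig : ∀ j, hS.eigenvalues j < κ ^ 2 / 4 := by
    intro j
    have h3 := hS.mulVec_eigenvectorBasis j
    refine F5_eig hκ hE hT hU (v₂ := ⇑(hS.eigenvectorBasis j)) ?_ ?_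
    · intro h0
      refine hS.eigenvectorBasis.orthonormal.ne_zero j ?_
      ext i
      exact congrFun h0 i
    · rw [h3]
      funext i
      simp
  have hκ2 : 0 < κ ^ 2 / 4 := by positivity
  have htr : (trace (μ * μᴴ)).re = ∑ j, hS.eigenvalues j := by
    rw [Matrix.trace_mul_comm, hS.trace_eq_sum_eigenvalues, Complex.re_sum]
    exact Finset.sum_congr rfl fun j _ => Complex.ofReal_re _
  have hcard : (Finset.univ.filter fun j => hS.eigenvalues j ≠ 0).card ≤ R := by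
    rw [← Fintype.card_subtype, ← hS.rank_eq_card_non_zero_eigs,
      Matrix.rank_conjTranspose_mul_self]
    exact hrank
  rw [htr, ← Finset.sum_filter_ne_zero]
  rcases (Finset.univ.filter fun j => hS.eigenvalues j ≠ 0).eq_empty_or_nonempty with h0 | h0
  · rw [h0, Finset.sum_empty]
    have h4 : (0 : ℝ) < R := Nat.cast_pos.2 hR
    positivity
  · calc ∑ j ∈ Finset.univ.filter (fun j => hS.eigenvalues j ≠ 0), hS.eigenvalues j
        < ∑ j ∈ Finset.univ.filter (fun j => hS.eigenvalues j ≠ 0), κ ^ 2 / 4 :=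
          Finset.sum_lt_sum_of_nonempty h0 fun j _ => heig j
      _ = ((Finset.univ.filter fun j => hS.eigenvalues j ≠ 0).card : ℝ) * (κ ^ 2 / 4) := by
          rw [Finset.sum_const, nsmul_eq_mul]
      _ ≤ (R : ℝ) * (κ ^ 2 / 4) :=
          mul_le_mul_of_nonneg_right (Nat.cast_le.2 hcard) hκ2.le
      _ = (R : ℝ) * κ ^ 2 / 4 := by ring

end Pool.Agent.MP_a98e84_gt.TG
end

section

/-!
# TASK TG F7: the level `cs` carries no periodic orbit if all elements of `Γ` are regular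

Suppose `x, x', T` as in `HasPer` for `c = cs V a b`. `ode_of_sol`: `Ode (κ i) (x · i) (x' · i)`, `κ i = b i / a i ≠ 0`. `x` is continuous (entrywise differentiable: `Sol.vel`). `single_gamma`: one `γ` with `γ • x t = x (t + T)` on `[0, 1]`. Let `G` be a lift of `γ`, `G i = 1` if `γ = 1`
(then `Lifts` holds by `mob_one`, `IsU.one`). So `mob (G i) (x t i) = x (t + T) i` on `[0, 1]`; `closed_frame` for each `i`: `M, E, k1, k2`, `μ i = tva (x 0 i) * x' 0 i * tvd (x 0 i)`. `x' 0 i ∈ V i` (`HD.mem`), so `μ i ∈ V i` (`tva_mul_mem`), so `rank (μ i) ≤ R i = maxRank (V i)`.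
Energy: `cs V a b = met a (x 0) (x' 0) (x' 0) / 2 = ∑ i, (a i / 2) * re (tr (μ i (μ i)ᴴ))` (`hm_eq`), and `R i b i ² / (8 a i) = (a i / 2) (R i κ i ² / 4)`. If `γ ≠ 1`: `trace_gt` for each `i` (`0 < R i` by `maxRank_pos`) gives energy `> cs V a b` (`ι` is not empty). If `γ = 1`: `M⁻¹ * 1 * M = 1`, `trace_lt`
gives energy `< cs V a b`. Contradiction.
-/

set_option autoImplicit false

namespace Pool.Agent.MP_a98e84_gt.TG

open Matrix
open scoped ComplexOrder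

variable {ι : Type} [Fintype ι] {p q : ι → ℕ}


theorem not_per [Nonempty ι] (V : ∀ i, Submodule ℂ (Matrix (Fin (p i)) (Fin (q i)) ℂ)) (hV : ∀ i, JStar (V i))
    (hV0 : ∀ i, V i ≠ ⊥) {a b : ι → ℝ} (ha : ∀ i, 0 < a i) (hb : ∀ i, b i ≠ 0) {Γ : Type} [Group Γ]
    [MulAction Γ (dom V)] (hact : ∀ γ : Γ, ∃ G, Lifts V γ G) (hfree : ∀ (γ : Γ) (W : dom V), γ • W = W → γ = 1)
    [ProperlyDiscontinuousSMul Γ (dom V)]
    (hreg : ∀ γ : Γ, γ ≠ 1 → ∀ G, Lifts V γ G → ∀ i, maxRank (V i) ≤ hyp (G i)) : ¬ HasPer V a b Γ (cs V a b) := by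
  classical
  rintro ⟨x, x', T, hsol, hen, hT, hper⟩
  have hode : ∀ i, Ode (b i / a i) (fun t => x t i) (fun t => x' t i) :=
    fun i => ode_of_sol V hV ha hsol i
  have hmem : ∀ t, x t ∈ dom V := hsol.mem
  have hcont : Continuous (fun t => (⟨x t, hmem t⟩ : dom V)) := by
    refine Continuous.subtype_mk ?_ _
    refine continuous_pi fun i => ?_
    refine continuous_matrix fun j k => ?_
    exact continuous_iff_continuousAt.2 fun t => (hsol.vel t i j k).continuousAt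
  obtain ⟨γ, hγ⟩ := single_gamma V hact hfree hcont (T := T)
    (fun t => hper t (hmem t) (hmem (t + T)))
  obtain ⟨G, hG, hG1⟩ : ∃ G, Lifts V γ G ∧ (γ = 1 → ∀ i, G i = 1) := by
    by_cases h1 : γ = 1
    · refine ⟨fun _ => 1, ⟨fun _ => IsU.one, fun W i => ?_⟩, fun _ _ => rfl⟩
      rw [h1, one_smul, mob_one]
    · obtain ⟨G, hG⟩ := hact γ
      exact ⟨G, hG, fun h2 => absurd h2 h1⟩
  have hmob : ∀ i, ∀ t ∈ Set.Icc (0 : ℝ) 1, mob (G i) ((fun t => x t i) t) =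
      (fun t => x t i) (t + T) := by
    intro i t ht
    have h1 := hG.2 ⟨x t, hmem t⟩ i
    have h2 := hγ t ht
    rw [h2] at h1
    exact h1.symm
  choose M E k1 k2 hM hE hk1 hk2 hcomm hMG using
    fun i => closed_frame (hode i) (hG.1 i) (hmob i)
  have hx' : ∀ i, x' 0 i ∈ V i := fun i => HD.mem (fun s => (hmem s i).1) ((hode i).vel 0)
  have hμ : ∀ i, tva (x 0 i) * x' 0 i * tvd (x 0 i) ∈ V i := fun i =>
    tva_mul_mem (hV i) (hmem 0 i).1 (hmem 0 i).2 (hx' i)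
  have hrank : ∀ i, (tva (x 0 i) * x' 0 i * tvd (x 0 i)).rank ≤ maxRank (V i) :=
    fun i => le_maxRank (hμ i)
  have hpos : ∀ i, 0 < maxRank (V i) := fun i => maxRank_pos (hV0 i)
  have hE0 : ∑ i, a i * (trace ((tva (x 0 i) * x' 0 i * tvd (x 0 i)) *
      (tva (x 0 i) * x' 0 i * tvd (x 0 i))ᴴ)).re / 2 =
      ∑ i, (maxRank (V i) : ℝ) * b i ^ 2 / (8 * a i) := by
    have h1 := hen 0
    unfold met cs at h1
    rw [Finset.sum_div] at h1
    rw [← h1]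
    refine Finset.sum_congr rfl fun i _ => ?_
    rw [hm_eq (hmem 0 i).2]
  have halg : ∀ i, a i * ((maxRank (V i) : ℝ) * (b i / a i) ^ 2 / 4) / 2 =
      (maxRank (V i) : ℝ) * b i ^ 2 / (8 * a i) := by
    intro i
    have h1 := (ha i).ne'
    field_simp
    ring
  by_cases h1 : γ = 1
  · refine absurd hE0 (ne_of_lt (Finset.sum_lt_sum_of_nonempty Finset.univ_nonempty fun i _ => ?_))
    have h2 : E i T * fromBlocks (k1 i) 0 0 (k2 i) = 1 := by
      rw [← hMG i, hG1 h1 i, Matrix.mul_one, Matrix.nonsing_inv_mul _ (hM i).isUnit_det]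
    have h3 := trace_lt (div_ne_zero (hb i) (ha i).ne') (hE i) hT (hk1 i) (hk2 i) h2 (hpos i)
      (hrank i)
    rw [← halg i]
    have h4 := mul_lt_mul_of_pos_left h3 (ha i)
    linarith
  · refine absurd hE0 (ne_of_gt (Finset.sum_lt_sum_of_nonempty Finset.univ_nonempty fun i _ => ?_))
    have h3 := trace_gt (hE i) hT (hk1 i) (hk2 i) (hcomm i) (hM i) (hG.1 i) (hMG i) (hpos i)
      (hreg γ h1 G hG i)
    rw [← halg i]
    have h4 := mul_lt_mul_of_pos_left h3 (ha i)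
    linarith

end Pool.Agent.MP_a98e84_gt.TG
end
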